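import Pool.Agent.Helper43.TZ.D34
import Pool.Agent.Helper43.TA.SDef
import Pool.Agent.Helper96.FR.Maut

/-!
# Project TZ: the source group `G1`, definitions

`Dir G F par d`: what the proof needs from the group `G` (the first Lie group) in the direction of a one-parameter group `F`, `par f = τ` for `f = exp(τ H)`: the group `S'` (the Levi subgroup, it commutes with `F`), the boundary map `κ : G → Ω`, the family `Fam`,
the ping-pong in the normal closure of every element of the shell, the Mautner property of the contracted elements.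
`VSrc G m d`: the same for matrix groups, in terms of the Lie algebra: `H` with eigenvalues `-1, 0, 1`, `P1 = (H² + H) / 2 = ∑ E l` the projection on the space `V = ⊕ V_l` of the eigenvalue `1`, `Y i j : V_i → V_j` injective, `W` a space of matrices commuting with `H`.
For a simple Lie algebra `L` of type `A_m` (roots `a - b`): `H` with `(a0 - b)(H) = 1` for all `b ≠ a0`, `V_l = L_{a0 - b_l}`, `Y i j ∈ ad L_{b_i - b_j}`, `W = ⊕ ad L_{b_i - b_j}` (`i ≠ j`).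
-/

set_option autoImplicit false

open MeasureTheory Filter Topology Matrix

namespace Pool.Agent.Helper43.TZ

open Pool.Agent.Helper96.SA Pool.Agent.Helper96.FR Pool.Agent.Helper43.TA

/-- Everything the proof needs from the group `G` in the direction `par → ∞` of the group `F`. -/
structure Dir (G : Type) [Group G] [TopologicalSpace G] [IsTopologicalGroup G] (F : Subgroup G) (par : G → ℝ) (d : ℕ) where
  /-- the Levi group -/
  S' : Type
  [iG : Group S']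
  [iT : TopologicalSpace S']
  [iTG : IsTopologicalGroup S']
  /-- the embedding -/
  ι : S' →* G
  ιc : Continuous ι
  cm : ∀ s, ∀ f ∈ F, ι s * f = f * ι s
  /-- the boundary -/
  Ω : Type
  [iM : MeasurableSpace Ω]
  [iA : MulAction S' Ω]
  [iMS : MeasurableConstSMul S' Ω]
  /-- the boundary map -/
  κ : G → Ω
  κm : ∀ D : Set Ω, MeasurableSet D → MeasurableSet[borel G] (κ ⁻¹' D)
  κs : ∀ s g, κ (ι s * g) = s • κ g
  κq : ∀ (b : ℕ → G) (l : Filter ℕ) [l.NeBot], (∀ n, b n ∈ F) → Tendsto (fun n => par (b n)) l atTop →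
    ∀ q, Tendsto (fun n => b n * q * (b n)⁻¹) l (𝓝 1) → ∀ g, κ (q * g) = κ g
  maut : ∀ (b : ℕ → G) (l : Filter ℕ) [l.NeBot], (∀ n, b n ∈ F) → Tendsto (fun n => par (b n)) l atTop →
    ∀ {K : Type} [NormedAddCommGroup K] [InnerProductSpace ℂ K] (σ : G →* (K ≃ₗᵢ[ℂ] K)) (ξ : K), ξ ∈ contVec σ →
    (∀ q, Tendsto (fun n => b n * q * (b n)⁻¹) l (𝓝 1) → σ q ξ = ξ) → ∀ g, σ g ξ = ξ
  /-- the family -/
  fam : Fam S'
  famd : fam.d1 = d
  /-- the multiplicity -/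
  mult : ℕ
  pp : ∀ t ∈ fam.Sg, ∀ k : ℕ, ∃ (g : Fin k → S') (D : Fin k → Set Ω), (∀ l, g l ∈ Subgroup.normalClosure {t}) ∧
    (∀ l, MeasurableSet (D l)) ∧ (∀ x, {l | x ∈ D l}.ncard ≤ mult) ∧ ∀ x, {l | (g l)⁻¹ • x ∉ D l}.ncard ≤ mult

attribute [instance] Dir.iG Dir.iT Dir.iTG Dir.iM Dir.iA Dir.iMS

variable {M : ℕ}

/-- The one-parameter group of `H` in `G`. -/
def opg (G : Subgroup (GL (Fin M) ℝ)) (H : Mat M) : Subgroup G where
  carrier := {g | ∃ τ : ℝ, (g : GL (Fin M) ℝ) = ex (τ • H)}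
  mul_mem' := by
    rintro g h ⟨s, hs⟩ ⟨t, ht⟩
    exact ⟨s + t, by rw [Subgroup.coe_mul, hs, ht, ex_add_smul]⟩
  one_mem' := ⟨0, by rw [zero_smul, ex_zero]; rfl⟩
  inv_mem' := by
    rintro g ⟨s, hs⟩
    exact ⟨-s, by rw [Subgroup.coe_inv, hs, neg_smul, ex_neg]⟩

/-- The data on the matrix group `G`. -/
structure VSrc (G : Subgroup (GL (Fin M) ℝ)) (m d : ℕ) where
  closed : IsClosed (G : Set (GL (Fin M) ℝ))
  /-- the direction -/
  H : Mat M
  hH : H ∈ lie G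
  symm : Hᵀ = H
  cub : H * H * H = H
  /-- the projections on the `V_l` -/
  E : Fin m → Mat M
  EE : ∀ i j, E i * E j = if i = j then E i else 0
  sumE : ∑ i, E i = (1 / 2 : ℝ) • (H * H + H)
  E0 : ∀ i, E i ≠ 0
  /-- the transvections -/
  Y : Fin m → Fin m → Mat M
  Yl : ∀ i j, i ≠ j → Y i j ∈ lie G
  YH : ∀ i j, i ≠ j → Y i j * H = H * Y i j
  YE : ∀ i j, i ≠ j → Y i j * ((1 / 2 : ℝ) • (H * H + H)) = E j * Y i j * E i
  Yinj : ∀ i j, i ≠ j → ∀ v, Y i j *ᵥ (E i *ᵥ v) = 0 → E i *ᵥ v = 0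
  /-- the family -/
  W : Submodule ℝ (Mat M)
  Wl : ∀ X ∈ W, X ∈ lie G
  WH : ∀ X ∈ W, X * H = H * X
  Wd : Module.finrank ℝ W = d
  Winj : ∀ X ∈ W, X ≠ 0 → ∃ i j, i ≠ j ∧ ∀ v, E j *ᵥ (X *ᵥ (E i *ᵥ v)) = 0 → E i *ᵥ v = 0
  two : TwoF (m - 1) (opg G H)
  maut : ∀ {K : Type} [NormedAddCommGroup K] [InnerProductSpace ℂ K] (σ : G →* (K ≃ₗᵢ[ℂ] K)) (ξ : K), ξ ∈ contVec σ →
    (∀ (X : Mat M) (hX : X ∈ lie G), H * X - X * H = -X → ∀ τ : ℝ, σ ⟨ex (τ • X), mem_lie.1 hX τ⟩ ξ = ξ) → ∀ g, σ g ξ = ξ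

end Pool.Agent.Helper43.TZ
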