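import Pool.Agent.Helper43.TZ.Src
import Pool.Agent.Helper9.FP.Mau
import Pool.Agent.Helper78.BM.Erg
import Pool.Agent.Helper96.SA.Exp

/-!
# Project TZ, block MAU: a vector fixed by one unipotent group of an `sl(2)` is fixed by the other one

`T = [X, Xᵀ]`, `[T, X] = 2 X` (so `[T, Xᵀ] = -2 Xᵀ`). Identity in matrices: `exp(s X) exp(ε Xᵀ) exp(s' X) = exp(t T) exp(ε e^t Xᵀ)` for `s = (e^t - 1) / ε`, `s' = -(1 - e^(-t)) / ε`. PROOF: both sides are equal for `t = 0` and satisfy `L' = A(t) L` with the same `A(t) = T + ε e^(-t) Xᵀ`: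
`Ad(exp(s X)) Xᵀ = Xᵀ + s T - s² X`, `Ad(exp(ε Xᵀ)) X = X - ε T - ε² Xᵀ`, `Ad(exp(s X)) T = T - 2 s X`, `Ad(exp(t T)) Xᵀ = e^(-2t) Xᵀ` (or: check that `R⁻¹ L` has derivative `0`).
So with `ε = ε_n → 0` and `t` fixed `exp(s_n X) exp(ε_n Xᵀ) exp(s'_n X) → exp(t T)`, and `ξ` is fixed by `exp(t T)` (`mautner_unip` in `Helper78/BM/Erg.lean`); `exp(t T) exp(τ Xᵀ) exp(-t T) = exp(e^(-2t) τ Xᵀ) → 1` for `t → ∞`, so `ξ` is fixed by `exp(τ Xᵀ)` (Mautner, `Helper96/FR/Maut.lean`).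
-/

set_option autoImplicit false

open MeasureTheory Filter Topology Matrix

namespace Pool.Agent.Helper43.TZ

open Pool.Agent.Helper96.SA Pool.Agent.Helper96.FR Pool.Agent.Helper43.TA

variable {M : ℕ} {G : Subgroup (GL (Fin M) ℝ)}

theorem sl2_tr {X T : Mat M} (hT : T = X * Xᵀ - Xᵀ * X) (h : T * X - X * T = (2 : ℝ) • X) : T * Xᵀ - Xᵀ * T = (-2 : ℝ) • Xᵀ := by
  have hTT : Tᵀ = T := by
    rw [hT, transpose_sub, transpose_mul, transpose_mul, transpose_transpose]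
  have h1 := congrArg Matrix.transpose h
  rw [transpose_sub, transpose_mul, transpose_mul, transpose_smul, hTT] at h1
  rw [neg_smul, ← h1, neg_sub]

theorem sl2_id {X T : Mat M} (hT : T = X * Xᵀ - Xᵀ * X) (h : T * X - X * T = (2 : ℝ) • X) {ε t : ℝ} (hε : ε ≠ 0) :
    ex (((Real.exp t - 1) / ε) • X) * ex (ε • Xᵀ) * ex ((-(1 - Real.exp (-t)) / ε) • X) = ex (t • T) * ex ((ε * Real.exp t) • Xᵀ) := by
  have h' := sl2_tr hT h
  refine Units.ext ?_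
  rw [Units.val_mul, Units.val_mul, Units.val_mul, ex_coe, ex_coe, ex_coe, ex_coe, ex_coe]
  open scoped Matrix.Norms.Operator in
  exact Pool.Agent.Helper9.Mau.sl2_identity (A := Mat M) hT.symm h h' hε t

theorem ex_conj_T {X T : Mat M} (hT : T = X * Xᵀ - Xᵀ * X) (h : T * X - X * T = (2 : ℝ) • X) (t τ : ℝ) :
    ex (t • T) * ex (τ • Xᵀ) * (ex (t • T))⁻¹ = ex ((Real.exp (-2 * t) * τ) • Xᵀ) := by
  have h' := sl2_tr hT h
  rw [← ex_conj, ← ex_neg, ex_coe, ex_coe, ← neg_smul]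
  have h1 : NormedSpace.exp (t • T) * Xᵀ * NormedSpace.exp ((-t) • T) = Real.exp (-2 * t) • Xᵀ := by
    open scoped Matrix.Norms.Operator in
    exact Pool.Agent.Helper9.Mau.cc_eig (A := Mat M) h' t
  rw [mul_smul_comm, smul_mul_assoc, h1, smul_smul, mul_comm τ]

theorem continuous_exl {Z : Mat M} (hZ : Z ∈ lie G) : Continuous (fun c : ℝ => (⟨ex (c • Z), mem_lie.1 hZ c⟩ : G)) :=
  (continuous_ex.comp (continuous_id.smul continuous_const)).subtype_mk _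

theorem tendsto_exl {Z : Mat M} (hZ : Z ∈ lie G) {c : ℕ → ℝ} (hc : Tendsto c atTop (𝓝 0)) :
    Tendsto (fun n => (⟨ex (c n • Z), mem_lie.1 hZ (c n)⟩ : G)) atTop (𝓝 1) := by
  have h1 := ((continuous_exl hZ).tendsto 0).comp hc
  have h2 : (⟨ex ((0 : ℝ) • Z), mem_lie.1 hZ 0⟩ : G) = 1 := by
    apply Subtype.ext
    show ex ((0 : ℝ) • Z) = 1
    rw [zero_smul, ex_zero]
  rw [h2] at h1
  exact h1

theorem maut_sl2 {X T : Mat M} (hT : T = X * Xᵀ - Xᵀ * X) (h : T * X - X * T = (2 : ℝ) • X) (hX : X ∈ lie G) (hX' : Xᵀ ∈ lie G) (hTl : T ∈ lie G)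
    {K : Type} [NormedAddCommGroup K] [InnerProductSpace ℂ K] (σ : G →* (K ≃ₗᵢ[ℂ] K)) {ξ : K} (hξ : ξ ∈ contVec σ)
    (h1 : ∀ τ : ℝ, σ ⟨ex (τ • X), mem_lie.1 hX τ⟩ ξ = ξ) (τ : ℝ) :
    σ ⟨ex (τ • Xᵀ), mem_lie.1 hX' τ⟩ ξ = ξ := by
  have step1 : ∀ t : ℝ, σ ⟨ex (t • T), mem_lie.1 hTl t⟩ ξ = ξ := by
    intro t
    let ε : ℕ → ℝ := fun n => 1 / ((n : ℝ) + 1)
    have hε : Tendsto ε atTop (𝓝 0) := tendsto_one_div_add_atTop_nhds_zero_nat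
    have hε0 : ∀ n, ε n ≠ 0 := fun n => (div_pos one_pos (by positivity)).ne'
    have hε' : Tendsto (fun n => ε n * Real.exp t) atTop (𝓝 0) := by
      have := hε.mul_const (Real.exp t)
      rwa [zero_mul] at this
    have e1 : ∀ n, (⟨ex (((Real.exp t - 1) / ε n) • X), mem_lie.1 hX _⟩ : G) * ⟨ex (ε n • Xᵀ), mem_lie.1 hX' _⟩ *
        ⟨ex ((-(1 - Real.exp (-t)) / ε n) • X), mem_lie.1 hX _⟩ =
        ⟨ex (t • T), mem_lie.1 hTl t⟩ * ⟨ex ((ε n * Real.exp t) • Xᵀ), mem_lie.1 hX' _⟩ :=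
      fun n => Subtype.ext (sl2_id hT h (hε0 n))
    refine Pool.Agent.Helper78.BM.mautner_unip hξ (s := fun n => ⟨ex (((Real.exp t - 1) / ε n) • X), mem_lie.1 hX _⟩)
      (g := fun n => ⟨ex (ε n • Xᵀ), mem_lie.1 hX' _⟩) (t := fun n => ⟨ex ((-(1 - Real.exp (-t)) / ε n) • X), mem_lie.1 hX _⟩)
      (fun n => h1 _) (fun n => h1 _) (tendsto_exl hX' hε) ?_
    have h2 := (tendsto_const_nhds (x := (⟨ex (t • T), mem_lie.1 hTl t⟩ : G)) (f := atTop)).mul (tendsto_exl hX' hε')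
    rw [mul_one] at h2
    exact h2.congr fun n => (e1 n).symm
  have h2 : ∀ m : ℕ, ((⟨ex ((-1 : ℝ) • T), mem_lie.1 hTl _⟩ : G) ^ m)⁻¹ * ⟨ex (τ • Xᵀ), mem_lie.1 hX' τ⟩ *
      (⟨ex ((-1 : ℝ) • T), mem_lie.1 hTl _⟩ : G) ^ m = ⟨ex ((Real.exp (-2 * m) * τ) • Xᵀ), mem_lie.1 hX' _⟩ := by
    intro m
    refine Subtype.ext ?_
    rw [Subgroup.coe_mul, Subgroup.coe_mul, Subgroup.coe_inv, Subgroup.coe_pow]
    show (ex ((-1 : ℝ) • T) ^ m)⁻¹ * ex (τ • Xᵀ) * ex ((-1 : ℝ) • T) ^ m = ex ((Real.exp (-2 * m) * τ) • Xᵀ)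
    have e1 : ex ((-1 : ℝ) • T) ^ m = (ex ((m : ℝ) • T))⁻¹ := by
      rw [← ex_nsmul, ← ex_neg, smul_smul, mul_neg_one, neg_smul]
    rw [e1, inv_inv, ex_conj_T hT h]
  have h3 : Tendsto (fun m : ℕ => Real.exp (-2 * m) * τ) atTop (𝓝 0) := by
    have h4 : Tendsto (fun m : ℕ => -2 * (m : ℝ)) atTop atBot :=
      tendsto_natCast_atTop_atTop.const_mul_atTop_of_neg (by norm_num)
    have h5 := (Real.tendsto_exp_atBot.comp h4).mul_const τ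
    rwa [zero_mul] at h5
  refine mautner hξ (a := ⟨ex ((-1 : ℝ) • T), mem_lie.1 hTl _⟩) ?_ (step1 _)
  exact (tendsto_exl hX' h3).congr fun m => (h2 m).symm

end Pool.Agent.Helper43.TZ
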