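import Pool.Agent.Helper43.TZ.SMau
import Pool.Agent.Helper96.TO.Fin
import Pool.Agent.Helper66.BD.Fin
import Pool.Agent.Helper77.LA.Fld
import Pool.Agent.Helper77.LA.Two
import Pool.Agent.Helper77.LA.Mt

/-!
# Project TZ, block LIE: simple Lie algebras of type `A`

`rootsL A = {a - b : a ≠ b ∈ B}`, `B` affinely independent, `r + 1` elements, `r = dim A ≥ 2`; `a0 ∈ B`, `H ∈ A` with `(a0 - b)(H) = 1` for all `b ≠ a0` in `B`. `L_φ` the root spaces.
(1) For `y ∈ L_(b - b')`, `y ≠ 0`: `ad y : L_(a - b) → L_(a - b')` is injective (`a, b, b'` different): `[θ y, x] ∈ L_(a - 2b + b')` which is `0`, so `[θ y, [y, x]] = [[θ y, y], x]`, a nonzero multiple of `x` (`coroot`). The same for `L_(b' - a) → L_(b - a)`. So all root spaces have the same dimension.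
(2) `VSrc`: as in the header of `Src.lean`. `Y i j = ad y`, `y ∈ L_(b_i - b_j)`. `W = ⊕ ad L_(b_i - b_j)`. `two`: `twoF_of_sim` with the simple algebra generated by the roots `b - b'`, `b, b' ≠ a0` (`lsub_gens`, `isSim_gens`, as in `simSl2_of_irr`, `Helper96/TO/Fin.lean`), its flat has dimension `r - 1`.
(3) `maut`: `ξ` is fixed by `exp(τ x)`, `x ∈ L_(-1)`; by `maut_sl2` (with `Xᵀ` for `X`) also by `exp(τ x)` for the root vectors `x` of `L_1`; the stabiliser of `ξ` is closed (`ξ ∈ contVec σ`), its Lie algebra is closed under brackets (`lie_submodule`, `lie_bracket`), contains `L_1` and `L_(-1)`, so the ideal generated, `= L`. `hc`: `G` is the closure of the group generated by the `exp(ad x)`.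
(4) The second direction: `-B`, `-a0` instead of `B`, `a0`.
-/

set_option autoImplicit false

open MeasureTheory Filter Topology Matrix

namespace Pool.Agent.Helper43.TZ

open Pool.Agent.Helper96.SA Pool.Agent.Helper96.FR Pool.Agent.Helper43.TA Pool.Agent.Helper96.TO

variable {L : Type} [LieRing L] [LieAlgebra ℝ L] {N : ℕ} {θ : L ≃ₗ⁅ℝ⁆ L} {b : Module.Basis (Fin N) ℝ L}
  {G : Subgroup (GL (Fin N) ℝ)} {A : Submodule ℝ L}

/-- The root space of `φ`. -/
def rootSp (A : Submodule ℝ L) (φ : Module.Dual ℝ A) : Submodule ℝ L where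
  carrier := {x | ∀ h : A, ⁅(h : L), x⁆ = φ h • x}
  add_mem' := by
    intro x y hx hy h
    rw [lie_add, hx h, hy h, smul_add]
  zero_mem' := by
    intro h
    rw [lie_zero, smul_zero]
  smul_mem' := by
    intro c x hx h
    rw [lie_smul, hx h, smul_comm]

/-- One direction. -/
theorem exists_vsrc_aux [LieAlgebra.IsSimple ℝ L] (h : CartanBasis θ b) (hG : IsAdj b G)
    (hc : (G : Set (GL (Fin N) ℝ)) ⊆ closure (Subgroup.closure (Set.range fun x : L => ex (LinearMap.toMatrix b b (LieAlgebra.ad ℝ L x))) : Set (GL (Fin N) ℝ)))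
    (hA : MaxFlat θ A) {m : ℕ} (hm : 2 ≤ m) {e : Fin (m + 1) → Module.Dual ℝ A} (he : Helper77.LA.TypA A m e) {φ : Module.Dual ℝ A}
    (hφ : φ ∈ rootsL A) {H : A} (hH : ∀ j : Fin m, (e 0 - e j.succ) H = 1) :
    ∃ s : VSrc G m (Module.finrank ℝ (rootSp A φ) * (m * (m - 1))), s.H = TT_to b (H : L) := by
  obtain ⟨E, Y, W, hF⟩ := he.fields h hG hA hm hH hφ
  let s : VSrc G m (Module.finrank ℝ (rootSp A φ) * (m * (m - 1))) :=
    { closed := hG.closed
      H := TT_to b (H : L)
      hH := hF.hH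
      symm := hF.symm
      cub := hF.cub
      E := E
      EE := hF.EE
      sumE := hF.sumE
      E0 := hF.E0
      Y := Y
      Yl := hF.Yl
      YH := hF.YH
      YE := hF.YE
      Yinj := hF.Yinj
      W := W
      Wl := hF.Wl
      WH := hF.WH
      Wd := hF.Wd
      Winj := hF.Winj
      two := he.two h hG hA hm hH
      maut := fun σ ξ hξ h1 => he.maut h hG hc hA hm hH σ ξ hξ h1 }
  exact ⟨s, rfl⟩

theorem exists_vsrc [LieAlgebra.IsSimple ℝ L] (h : CartanBasis θ b) (hG : IsAdj b G)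
    (hc : (G : Set (GL (Fin N) ℝ)) ⊆ closure (Subgroup.closure (Set.range fun x : L => ex (LinearMap.toMatrix b b (LieAlgebra.ad ℝ L x))) : Set (GL (Fin N) ℝ)))
    (hA : MaxFlat θ A) (h2 : 2 ≤ Module.finrank ℝ A) (hT : IsTypeA (rootsL A)) {φ : Module.Dual ℝ A} (hφ : φ ∈ rootsL A) :
    ∃ s s' : VSrc G (Module.finrank ℝ A) (Module.finrank ℝ (rootSp A φ) * (Module.finrank ℝ A * (Module.finrank ℝ A - 1))),
      s'.H = -s.H := by
  obtain ⟨e, he⟩ := Helper77.LA.exists_typA h hG hA h2 hT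
  obtain ⟨H, hH⟩ := he.exists_H h hG hA rfl
  obtain ⟨s, hs⟩ := exists_vsrc_aux h hG hc hA h2 he hφ hH
  have hH' : ∀ j : Fin (Module.finrank ℝ A), ((-e 0) - (-e j.succ)) (-H) = 1 := by
    intro j
    have h1 : e 0 H - e j.succ H = 1 := hH j
    rw [LinearMap.sub_apply, LinearMap.neg_apply, LinearMap.neg_apply, map_neg, map_neg]
    linarith
  obtain ⟨s', hs'⟩ := exists_vsrc_aux h hG hc hA h2 he.neg hφ hH'
  refine ⟨s, s', ?_⟩
  rw [hs, hs', Submodule.coe_neg, map_neg]

end Pool.Agent.Helper43.TZ
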