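import Pool.Agent.Helper43.TZ.SGlue4
import Pool.Agent.Helper43.TZ.SLie
import Pool.Agent.Helper42.TZ.C.Src
import Pool.Agent.Helper55.TZ.Esc

/-!
# Project TZ: the source data of a simple Lie algebra of type `A`
-/

set_option autoImplicit false

open MeasureTheory Filter Topology Matrix

namespace Pool.Agent.Helper43.TZ

open Pool.Agent.Helper96.SA Pool.Agent.Helper96.FR Pool.Agent.Helper43.TA Pool.Agent.Helper96.TO
open Pool.Agent.Helper42.TZ (HasSrc)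

theorem hasSrc_of_vsrc {M m d : ℕ} {G : Subgroup (GL (Fin M) ℝ)} (s s' : VSrc G m d) (hs : s'.H = -s.H) (hm : 0 < m) (hd : 0 < d) :
    HasSrc G (m - 1) d := by
  obtain ⟨par, hp1, hp2, f, hf1, hf2, hf3⟩ := Pool.Agent.Helper55.TZ.exists_par s hm
  refine ⟨opg G s.H, par, f, s.two, exists_dir s hm hd _ par hp1, exists_dir s' hm hd _ (fun g => -par g) fun g hg => ?_, hp2, hf1, hf2, hf3⟩
  rw [hs, hp1 g hg, smul_neg, neg_smul, neg_neg]

variable {L : Type} [LieRing L] [LieAlgebra ℝ L] {N : ℕ} {θ : L ≃ₗ⁅ℝ⁆ L} {b : Module.Basis (Fin N) ℝ L}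
  {G : Subgroup (GL (Fin N) ℝ)} {A : Submodule ℝ L}

theorem rootSp_pos (b : Module.Basis (Fin N) ℝ L) {φ : Module.Dual ℝ A} (hφ : φ ∈ rootsL A) : 0 < Module.finrank ℝ (rootSp A φ) := by
  have hF : Module.Finite ℝ L := Module.Finite.of_basis b
  obtain ⟨-, x, hx0, hx⟩ := hφ
  refine Module.finrank_pos_iff_exists_ne_zero.2 ⟨⟨x, hx⟩, fun h => hx0 (congrArg Subtype.val h)⟩

theorem hasSrc_typeA [LieAlgebra.IsSimple ℝ L] (h : CartanBasis θ b) (hG : IsAdj b G)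
    (hc : (G : Set (GL (Fin N) ℝ)) ⊆ closure (Subgroup.closure (Set.range fun x : L => ex (LinearMap.toMatrix b b (LieAlgebra.ad ℝ L x))) : Set (GL (Fin N) ℝ)))
    (hA : MaxFlat θ A) (h2 : 2 ≤ Module.finrank ℝ A) (hT : IsTypeA (rootsL A)) {φ : Module.Dual ℝ A} (hφ : φ ∈ rootsL A) :
    HasSrc G (Module.finrank ℝ A - 1) (Module.finrank ℝ (rootSp A φ) * (Module.finrank ℝ A * (Module.finrank ℝ A - 1))) := by
  obtain ⟨s, s', hs⟩ := exists_vsrc h hG hc hA h2 hT hφ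
  have h3 := rootSp_pos b hφ
  refine hasSrc_of_vsrc s s' hs (by omega) ?_
  exact Nat.mul_pos h3 (Nat.mul_pos (by omega) (by omega))

end Pool.Agent.Helper43.TZ
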