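import Pool.Agent.Helper43.TZ.SLie
import Pool.Agent.Helper69.SLN.Root
import Mathlib

/-!
# Project TZ, block SLN: simple Lie algebras of type `A` with root spaces of dimension one

`rootsL A = {a - b : a ≠ b ∈ B}`, `B` affinely independent; all root spaces of dimension one. Then `L` is isomorphic to `sl(r + 1, ℝ)`, `r = dim A`.
PROOF. (1) `m = {x : θ x = x, [x, A] = 0}` is `0`: `x ∈ m` acts on `L_φ` (dimension one) by a scalar `c`, `ad x` is skew for `-κ(x, θ y)`, so `c = 0`; the span of the `L_φ` and of the `[L_φ, L_(-φ)]` is an ideal, `= L`, so `x` is central.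
`L = L_0 ⊕ ⊕ L_φ` (diagonalise the symmetric commuting `ad h`, `h ∈ A`), `L_0 = A ⊕ m = A`. So the elements of `B`, `|B| = r + 1`: (the roots span the dual of `A`), and `dim L = r + r (r + 1)`.
(2) `B = {a_0, ..., a_r}`. `x_j ∈ L_(a_0 - a_j)`, `x_j ≠ 0`, `y_j = - c θ x_j ∈ L_(a_j - a_0)` with `[x_j, y_j] = h_j`, `(a_0 - a_j)(h_j) = 2`; then `(a_0 - a_k)(h_j) = 1` for `k ≠ j` (root strings, or: the coroot of `a_0 - a_j` is orthogonal to all roots `a_k - a_l`, `k, l ≠ 0, j`, and `(a_0 - a_k)(h_j) + (a_k - a_j)(h_j) = 2`, both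
positive integers by the `sl(2)` action; or reflection symmetry). `e_(0 j) = x_j`, `e_(j 0) = y_j`, `e_(j k) = [y_j, x_k]` for `j ≠ k`. All brackets `[e_(i j), e_(k l)] = δ_(j k) e_(i l) - δ_(i l) e_(k j)` follow from the Jacobi identity and the weights. The linear map `L → sl(r + 1)` with `e_(i j) ↦ E_(i j)`, `h_j ↦ E_(00) - E_(jj)`
is bijective and preserves brackets.
-/

set_option autoImplicit false

open MeasureTheory Filter Topology Matrix

namespace Pool.Agent.Helper43.TZ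

open Pool.Agent.Helper96.SA Pool.Agent.Helper96.FR Pool.Agent.Helper43.TA Pool.Agent.Helper96.TO

variable {L : Type} [LieRing L] [LieAlgebra ℝ L] {N : ℕ} {θ : L ≃ₗ⁅ℝ⁆ L} {b : Module.Basis (Fin N) ℝ L} {A : Submodule ℝ L}

theorem sl_of_typeA [LieAlgebra.IsSimple ℝ L] (h : CartanBasis θ b) (hA : MaxFlat θ A) (h2 : 2 ≤ Module.finrank ℝ A) (hT : IsTypeA (rootsL A))
    (h1 : ∀ φ ∈ rootsL A, Module.finrank ℝ (rootSp A φ) = 1) :
    Nonempty (L ≃ₗ⁅ℝ⁆ LieAlgebra.SpecialLinear.sl (Fin (Module.finrank ℝ A + 1)) ℝ) := by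
  refine Pool.Agent.Helper69.SLN.iso_sl_of_typeA h hA (by omega) hT fun φ hφ y z hy hz hy0 => ?_
  have hyv : (⟨y, hy⟩ : rootSp A φ) ≠ 0 := fun h3 => hy0 (congrArg Subtype.val h3)
  obtain ⟨c, hc⟩ := (finrank_eq_one_iff_of_nonzero' (⟨y, hy⟩ : rootSp A φ) hyv).1 (h1 φ hφ) ⟨z, hz⟩
  exact ⟨c, (congrArg Subtype.val hc).symm⟩

end Pool.Agent.Helper43.TZ
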