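import Mathlib

/-!
# Project TZ (MP_0f6f3f_an): definitions of the abstract part

`H` a Hilbert space, `V : S1 → U(H)`, `W : S2 → U(H)` commuting unitary representations, `J` the commutant of a set `R` of operators. See `/team-store/h43_TZ_proof.md`.
-/

set_option autoImplicit false

open MeasureTheory Filter Topology
open scoped ENNReal

noncomputable section

namespace Pool.Agent.Helper43.TZ

section cj

variable {H : Type} [NormedAddCommGroup H] [InnerProductSpace ℂ H]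

/-- Conjugation `u a u⁻¹`. -/
noncomputable def cj (u : H ≃ₗᵢ[ℂ] H) (a : H →L[ℂ] H) : H →L[ℂ] H :=
  (u.toContinuousLinearEquiv : H →L[ℂ] H).comp (a.comp (u.symm.toContinuousLinearEquiv : H →L[ℂ] H))

theorem cj_apply (u : H ≃ₗᵢ[ℂ] H) (a : H →L[ℂ] H) (x : H) : cj u a x = u (a (u.symm x)) := rfl

end cj

/-- A size function `ρ` (think of `ρ h = ‖h - 1‖`) on a locally compact group `S` of dimension `d`, with Haar measure `μ`. -/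
structure Siz (S : Type) [Group S] [TopologicalSpace S] [MeasurableSpace S] (μ : Measure S) where
  /-- the size -/
  ρ : S → ℝ
  cont : Continuous ρ
  nonneg : ∀ g, 0 ≤ ρ g
  one : ρ 1 = 0
  mul : ∀ g h, ρ (g * h) ≤ ρ g + ρ h + ρ g * ρ h
  inv : ∀ g, ρ g ≤ 1 / 2 → ρ g⁻¹ ≤ 2 * ρ g
  basis : ∀ U ∈ 𝓝 (1 : S), ∃ r : ℝ, 0 < r ∧ ∀ g, ρ g < r → g ∈ U
  /-- the dimension -/
  d : ℕ
  vol : ∃ c : ℝ, 0 < c ∧ ∀ r : ℝ, 0 < r → r ≤ 1 → ENNReal.ofReal (c * r ^ d) ≤ μ {g | ρ g < r}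
  net : ∀ B : Set S, IsCompact B → ∃ C : ℝ, 0 < C ∧ ∀ δ : ℝ, 0 < δ → δ ≤ 1 →
    ∃ P : Finset S, (P.card : ℝ) * δ ^ d ≤ C ∧ ∀ h ∈ B, ∃ k ∈ P, ρ (h * k⁻¹) ≤ δ
  bump : ∀ r : ℝ, 0 < r → ∃ f : S → ℝ, Continuous f ∧ HasCompactSupport f ∧ (∀ h, 0 ≤ f h) ∧ (∀ h, f h ≠ 0 → ρ h < r) ∧
    ∫ h, f h ∂μ = 1 ∧ ∃ C : ℝ, ∀ g, ∫ h, |f (g⁻¹ * h) - f h| ∂μ ≤ C * ρ g

/-- The data: `V`, `W` commuting unitary representations, `J = R'`, `J^{S2} = ℂ`, an integrable element `a0`. -/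
structure Lev (S1 S2 H : Type) [Group S1] [TopologicalSpace S1] [Group S2] [TopologicalSpace S2] [MeasurableSpace S2]
    (μ : Measure S2) [NormedAddCommGroup H] [InnerProductSpace ℂ H] [CompleteSpace H] where
  /-- the representation of `S1` -/
  V : S1 →* (H ≃ₗᵢ[ℂ] H)
  /-- the representation of `S2` -/
  W : S2 →* (H ≃ₗᵢ[ℂ] H)
  VW : ∀ s h x, V s (W h x) = W h (V s x)
  Vc : ∀ x, Continuous fun s => V s x
  Wc : ∀ x, Continuous fun h => W h x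
  /-- generators of the commutant of `J` -/
  R : Set (H →L[ℂ] H)
  RW : ∀ a ∈ StarSubalgebra.centralizer ℂ R, ∀ h, cj (W h) a ∈ StarSubalgebra.centralizer ℂ R
  RV : ∀ a ∈ StarSubalgebra.centralizer ℂ R, ∀ s, cj (V s) a ∈ StarSubalgebra.centralizer ℂ R
  erg : ∀ a ∈ StarSubalgebra.centralizer ℂ R, (∀ h, cj (W h) a = a) → ∃ z : ℂ, ∀ x, a x = z • x
  /-- an integrable element -/
  a0 : H →L[ℂ] H
  a0J : a0 ∈ StarSubalgebra.centralizer ℂ R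
  a0n : a0 ≠ 0
  a0i : ∃ C : ℝ, ∀ x, ∫⁻ h, ‖cj (W h) a0 x‖ₑ ^ 2 ∂μ ≤ ENNReal.ofReal C * ‖x‖ₑ ^ 2

variable {S1 S2 H : Type} [Group S1] [TopologicalSpace S1] [Group S2] [TopologicalSpace S2] [MeasurableSpace S2]
  {μ : Measure S2} [NormedAddCommGroup H] [InnerProductSpace ℂ H] [CompleteSpace H]

/-- The algebra `J`. -/
def Lev.J (L : Lev S1 S2 H μ) : StarSubalgebra ℂ (H →L[ℂ] H) := StarSubalgebra.centralizer ℂ L.R

/-- The commutant of `J`. -/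
def Lev.J' (L : Lev S1 S2 H μ) : StarSubalgebra ℂ (H →L[ℂ] H) := StarSubalgebra.centralizer ℂ (L.J : Set (H →L[ℂ] H))

/-- The centre of `J`. -/
def Lev.Z (L : Lev S1 S2 H μ) : StarSubalgebra ℂ (H →L[ℂ] H) := L.J ⊓ L.J'

/-- Lipschitz at `1` for the action of `S2`. -/
def Lev.Lip (L : Lev S1 S2 H μ) (z : Siz S2 μ) (a : H →L[ℂ] H) : Prop :=
  ∃ C : ℝ, ∀ h, ‖cj (L.W h) a - a‖ ≤ C * z.ρ h

/-- Square integrable. -/
def Lev.I2 (L : Lev S1 S2 H μ) (a : H →L[ℂ] H) : Prop :=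
  ∃ C : ℝ, ∀ x, ∫⁻ h, ‖cj (L.W h) a x‖ₑ ^ 2 ∂μ ≤ ENNReal.ofReal C * ‖x‖ₑ ^ 2

/-- The Lipschitz square integrable elements of `J`. -/
def Lev.J2 (L : Lev S1 S2 H μ) (z : Siz S2 μ) : Set (H →L[ℂ] H) := {a | a ∈ L.J ∧ L.Lip z a ∧ L.I2 a}

/-- A family of `k` elements of `S1` playing ping-pong with multiplicity `m`: `P i` = the repelling part of `s i`, `P' i` = the image of the complement. -/
structure PP (L : Lev S1 S2 H μ) (m k : ℕ) (s : Fin k → S1) where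
  /-- the repelling parts -/
  P : Fin k → (H →L[ℂ] H)
  /-- the attracting parts -/
  P' : Fin k → (H →L[ℂ] H)
  mem : ∀ i, P i ∈ L.J
  mem' : ∀ i, P' i ∈ L.J
  nonneg : ∀ i, 0 ≤ P i
  nonneg' : ∀ i, 0 ≤ P' i
  le_one : ∀ i, P i ≤ 1
  sum : ∑ i, P i ≤ (m : ℂ) • (1 : H →L[ℂ] H)
  sum' : ∑ i, P' i ≤ (m : ℂ) • (1 : H →L[ℂ] H)
  pp : ∀ i, cj (L.V (s i)) (1 - P i) = P' i

end Pool.Agent.Helper43.TZ
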