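import Pool.Agent.Helper43.TZ.TF

/-!
# Project TZ: Theorem T, conclusion
-/

set_option autoImplicit false
set_option linter.unusedSectionVars false

open MeasureTheory Filter Topology
open scoped ENNReal

namespace Pool.Agent.Helper43.TZ

variable {S1 S2 H : Type} [Group S1] [TopologicalSpace S1] [Group S2] [TopologicalSpace S2] [IsTopologicalGroup S2]
  [LocallyCompactSpace S2] [SecondCountableTopology S2] [T2Space S2] [MeasurableSpace S2] [BorelSpace S2]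
  {μ : Measure S2} [μ.IsHaarMeasure] [μ.IsMulRightInvariant] [NormedAddCommGroup H] [InnerProductSpace ℂ H] [CompleteSpace H]

/-- Lipschitz at `1`. -/
def LipF (z : Siz S2 μ) (T : S2 → (H →L[ℂ] H)) : Prop := ∃ C : ℝ, ∀ h, ‖T h - T 1‖ ≤ C * z.ρ h

theorem LipF.add {z : Siz S2 μ} {T T' : S2 → (H →L[ℂ] H)} (h : LipF z T) (h' : LipF z T') : LipF z (T + T') := by
  obtain ⟨C, hC⟩ := h
  obtain ⟨C', hC'⟩ := h'
  refine ⟨C + C', fun g => ?_⟩
  have e : (T + T') g - (T + T') 1 = (T g - T 1) + (T' g - T' 1) := by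
    show T g + T' g - (T 1 + T' 1) = _
    abel
  rw [e]
  refine (norm_add_le _ _).trans ((add_le_add (hC g) (hC' g)).trans (le_of_eq (by ring)))

theorem LipF.zero (z : Siz S2 μ) : LipF z (0 : S2 → (H →L[ℂ] H)) := ⟨0, fun h => by simp⟩

theorem LipF.sum {z : Siz S2 μ} {k : ℕ} {T : Fin k → S2 → (H →L[ℂ] H)} (h : ∀ i, LipF z (T i)) : LipF z (∑ i, T i) := by
  have : ∀ s : Finset (Fin k), LipF z (∑ i ∈ s, T i) := by
    intro s
    induction s using Finset.induction_on with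
    | empty => simpa using LipF.zero z
    | insert a s ha ih =>
      rw [Finset.sum_insert ha]
      exact (h a).add ih
  exact this _

theorem LipF.smul {z : Siz S2 μ} {T : S2 → (H →L[ℂ] H)} (c : ℂ) (h : LipF z T) : LipF z (c • T) := by
  obtain ⟨C, hC⟩ := h
  refine ⟨‖c‖ * C, fun g => ?_⟩
  have e : (c • T) g - (c • T) 1 = c • (T g - T 1) := by
    rw [smul_sub]
    rfl
  rw [e, norm_smul, mul_assoc]
  exact mul_le_mul_of_nonneg_left (hC g) (norm_nonneg _)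

theorem LipF.star {z : Siz S2 μ} {T : S2 → (H →L[ℂ] H)} (h : LipF z T) : LipF z (star T) := by
  obtain ⟨C, hC⟩ := h
  refine ⟨C, fun g => ?_⟩
  have e : (Star.star T) g - (Star.star T) 1 = Star.star (T g - T 1) := by
    rw [star_sub]
    rfl
  rw [e, norm_star]
  exact hC g

theorem LipF.mul_op {z : Siz S2 μ} {T : S2 → (H →L[ℂ] H)} (h : LipF z T) (u : H ≃ₗᵢ[ℂ] H) : LipF z (fun g => T g * op u) := by
  obtain ⟨C, hC⟩ := h
  refine ⟨C, fun g => ?_⟩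
  have e : T g * op u - T 1 * op u = (T g - T 1) * op u := by rw [sub_mul]
  show ‖T g * op u - T 1 * op u‖ ≤ _
  rw [e]
  refine (norm_mul_le _ _).trans ?_
  calc ‖T g - T 1‖ * ‖op u‖ ≤ ‖T g - T 1‖ * 1 := mul_le_mul_of_nonneg_left (norm_op_le u) (norm_nonneg _)
    _ ≤ _ := by rw [mul_one]; exact hC g

section Pr

variable {L : Lev S1 S2 H μ} {z : Siz S2 μ} {E : Type} [NormedAddCommGroup E] [InnerProductSpace ℂ E] [CompleteSpace E]

/-- The pair preserves `EE`. -/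
def ES.Pr (M : ES L z E) (q : (E →L[ℂ] E) × (S2 → (H →L[ℂ] H))) : Prop :=
  ∀ p ∈ M.EE, (q.1 p.1, fun h => q.2 h (p.2 h)) ∈ M.EE

theorem ES.Pr.add {M : ES L z E} {q q' : (E →L[ℂ] E) × (S2 → (H →L[ℂ] H))} (h : M.Pr q) (h' : M.Pr q') : M.Pr (q + q') :=
  fun p hp => M.EE.add_mem (h p hp) (h' p hp)

theorem ES.Pr.zero (M : ES L z E) : M.Pr 0 := fun p hp => M.EE.zero_mem

theorem ES.Pr.smul {M : ES L z E} {q : (E →L[ℂ] E) × (S2 → (H →L[ℂ] H))} (c : ℂ) (h : M.Pr q) : M.Pr (c • q) :=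
  fun p hp => M.EE.smul_mem c (h p hp)

theorem ES.Pr.sum {M : ES L z E} {k : ℕ} {q : Fin k → (E →L[ℂ] E) × (S2 → (H →L[ℂ] H))} (h : ∀ i, M.Pr (q i)) : M.Pr (∑ i, q i) := by
  have : ∀ s : Finset (Fin k), M.Pr (∑ i ∈ s, q i) := by
    intro s
    induction s using Finset.induction_on with
    | empty => simpa using ES.Pr.zero M
    | insert a s ha ih =>
      rw [Finset.sum_insert ha]
      exact (h a).add ih
  exact this _

theorem ES.Pr.pow {M : ES L z E} {q : (E →L[ℂ] E) × (S2 → (H →L[ℂ] H))} (h : M.Pr q) {p : E × (S2 → H)} (hp : p ∈ M.EE) (n : ℕ) :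
    ((q.1 ^ n) p.1, fun g => ((q.2 g) ^ n) (p.2 g)) ∈ M.EE := by
  induction n with
  | zero => simpa using hp
  | succ n ih =>
    have := h _ ih
    have e1 : (q.1 ^ (n + 1)) p.1 = q.1 ((q.1 ^ n) p.1) := by rw [pow_succ']; rfl
    have e2 : (fun g => ((q.2 g) ^ (n + 1)) (p.2 g)) = fun g => q.2 g (((q.2 g) ^ n) (p.2 g)) := by
      funext g
      rw [pow_succ']
      rfl
    rw [e1, e2]
    exact this

/-- `T ∈ TT` times the unitary of `s`. -/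
noncomputable def ES.qq (M : ES L z E) (s : S1) (T : M.TT) : (E →L[ℂ] E) × (S2 → (H →L[ℂ] H)) :=
  ((T : (E →L[ℂ] E) × (S2 → (H →L[ℂ] H))).1 * op (M.VE s), fun h => (T : (E →L[ℂ] E) × (S2 → (H →L[ℂ] H))).2 h * op (L.V s))

theorem ES.qq_pr (M : ES L z E) (s : S1) (T : M.TT) : M.Pr (M.qq s T) := by
  intro p hp
  exact T.2.m _ (M.VE_mem s p hp)

theorem ES.qq_star_pr (M : ES L z E) (s : S1) (T : M.TT) : M.Pr (star (M.qq s T)) := by
  intro p hp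
  have h1 := M.VE_mem s⁻¹ _ (T.2.ms p hp)
  have e1 : (star (M.qq s T)).1 p.1 = M.VE s⁻¹ (star (T : (E →L[ℂ] E) × (S2 → (H →L[ℂ] H))).1 p.1) := by
    show (star ((T : (E →L[ℂ] E) × (S2 → (H →L[ℂ] H))).1 * op (M.VE s))) p.1 = _
    rw [star_mul, star_op, M.VE_inv]
    rfl
  have e2 : (fun h => (star (M.qq s T)).2 h (p.2 h)) = fun h => L.V s⁻¹ (star ((T : (E →L[ℂ] E) × (S2 → (H →L[ℂ] H))).2 h) (p.2 h)) := by
    funext h
    show (star ((T : (E →L[ℂ] E) × (S2 → (H →L[ℂ] H))).2 h * op (L.V s))) (p.2 h) = _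
    rw [star_mul, star_op, map_inv]
    rfl
  rw [e1, e2]
  exact h1

theorem ES.Rt_zero (M : ES L z E) : M.Rt 0 = 0 := by
  have := M.Rt_smul 0 0 L.J.zero_mem
  rwa [zero_smul, zero_smul] at this

theorem ES.Rt_sum (M : ES L z E) {k : ℕ} {a : Fin k → (H →L[ℂ] H)} (h : ∀ i, a i ∈ L.J) : M.Rt (∑ i, a i) = ∑ i, M.Rt (a i) := by
  have : ∀ s : Finset (Fin k), M.Rt (∑ i ∈ s, a i) = ∑ i ∈ s, M.Rt (a i) := by
    intro s
    induction s using Finset.induction_on with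
    | empty => simpa using M.Rt_zero
    | insert b s hb ih =>
      rw [Finset.sum_insert hb, Finset.sum_insert hb, M.Rt_add _ (h b) _ (sum_mem fun i _ => h i), ih]
  exact this _

theorem ES.Rt_sub (M : ES L z E) {a b : H →L[ℂ] H} (ha : a ∈ L.J) (hb : b ∈ L.J) : M.Rt (a - b) = M.Rt a - M.Rt b := by
  have e : a - b = a + (-1 : ℂ) • b := by rw [neg_one_smul, sub_eq_add_neg]
  rw [e, M.Rt_add _ ha _ (L.J.smul_mem hb _), M.Rt_smul _ _ hb, neg_one_smul, sub_eq_add_neg]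

theorem ES.Rt_le_one (M : ES L z E) {a : H →L[ℂ] H} (ha : a ∈ L.J) (h1 : a ≤ 1) : M.Rt a ≤ 1 := by
  have h2 := M.Rt_nonneg (1 - a) (sub_mem (one_mem _) ha) (sub_nonneg.2 h1)
  rw [M.Rt_sub (one_mem _) ha, M.Rt_one] at h2
  exact sub_nonneg.1 h2

theorem ES.Rt_sum_le (M : ES L z E) {k m : ℕ} {a : Fin k → (H →L[ℂ] H)} (h : ∀ i, a i ∈ L.J)
    (hs : ∑ i, a i ≤ (m : ℂ) • (1 : H →L[ℂ] H)) (x : E) : (∑ i, (inner ℂ x (M.Rt (a i) x) : ℂ).re) ≤ m * ‖x‖ ^ 2 := by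
  have h2 := M.Rt_nonneg ((m : ℂ) • (1 : H →L[ℂ] H) - ∑ i, a i) (sub_mem (L.J.smul_mem (one_mem _) _) (sum_mem fun i _ => h i)) (sub_nonneg.2 hs)
  rw [M.Rt_sub (L.J.smul_mem (one_mem _) _) (sum_mem fun i _ => h i), M.Rt_smul _ _ (one_mem _), M.Rt_one, M.Rt_sum h,
    ContinuousLinearMap.nonneg_iff_isPositive] at h2
  have h3 : 0 ≤ (inner ℂ x (((m : ℂ) • (1 : E →L[ℂ] E) - ∑ i, M.Rt (a i)) x) : ℂ).re := h2.re_inner_nonneg_right x
  have h4 : (inner ℂ x (((m : ℂ) • (1 : E →L[ℂ] E) - ∑ i, M.Rt (a i)) x) : ℂ) = (m : ℂ) * (‖x‖ : ℂ) ^ 2 - ∑ i, (inner ℂ x (M.Rt (a i) x) : ℂ) := by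
    rw [sub_apply, sum_apply, inner_sub_right, inner_sum, smul_apply, one_apply_eq_self, inner_smul_right, inner_self_eq_norm_sq_to_K]
    rfl
  rw [h4, Complex.sub_re, Complex.re_sum] at h3
  have h5 : ((m : ℂ) * (‖x‖ : ℂ) ^ 2).re = m * ‖x‖ ^ 2 := by
    norm_cast
  rw [h5] at h3
  linarith

theorem ES.norm_sum_le (M : ES L z E) {m k : ℕ} {s : Fin k → S1} (pp : PP L m k s) (T : Fin k → M.TT) (hT : ∀ i, ‖M.sg (T i)‖ ≤ 2) :
    ‖∑ i, (M.qq (s i) (T i)).1‖ ≤ 2 * 2 * Real.sqrt (m * k) := by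
  refine pp_bound k m (fun i => (M.qq (s i) (T i)).1) (fun i => M.Rt (pp.P i)) (fun i => M.Rt (pp.P' i)) 2 zero_le_two ?_ ?_ ?_ ?_ ?_ ?_ ?_ ?_
  · intro i
    show ‖M.sg (T i) * op (M.VE (s i))‖ ≤ 2
    refine (norm_mul_le _ _).trans ?_
    calc ‖M.sg (T i)‖ * ‖op (M.VE (s i))‖ ≤ 2 * 1 := mul_le_mul (hT i) (norm_op_le _) (norm_nonneg _) zero_le_two
      _ = 2 := mul_one 2
  · exact fun i => M.Rt_nonneg _ (pp.mem i) (pp.nonneg i)
  · exact fun i => M.Rt_nonneg _ (pp.mem' i) (pp.nonneg' i)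
  · exact fun i => M.Rt_le_one (pp.mem i) (pp.le_one i)
  · intro i
    refine M.Rt_le_one (pp.mem' i) ?_
    rw [← pp.pp i, cj_sub, cj_one]
    exact sub_le_self 1 (cj_nonneg _ (pp.nonneg i))
  · exact M.Rt_sum_le pp.mem pp.sum
  · exact M.Rt_sum_le pp.mem' pp.sum'
  · intro i
    show M.sg (T i) * op (M.VE (s i)) * (1 - M.Rt (pp.P i)) = M.Rt (pp.P' i) * (M.sg (T i) * op (M.VE (s i)))
    have h1 : (1 : E →L[ℂ] E) - M.Rt (pp.P i) = M.Rt (1 - pp.P i) := by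
      rw [M.Rt_sub (one_mem _) (pp.mem i), M.Rt_one]
    rw [h1, mul_assoc, op_mul, M.VE_Rt _ _ (sub_mem (one_mem _) (pp.mem i)), pp.pp i, ← mul_assoc, ← mul_assoc]
    congr 1
    exact (T i).2.r _ (pp.mem' i)

/-- The symmetrised average. -/
noncomputable def ES.XX (M : ES L z E) {k : ℕ} (s : Fin k → S1) (T : Fin k → M.TT) : (E →L[ℂ] E) × (S2 → (H →L[ℂ] H)) :=
  (1 / (2 * (k : ℂ))) • ∑ i, (M.qq (s i) (T i) + star (M.qq (s i) (T i)))

theorem ES.XX_pr (M : ES L z E) {k : ℕ} (s : Fin k → S1) (T : Fin k → M.TT) : M.Pr (M.XX s T) :=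
  (ES.Pr.sum fun i => (M.qq_pr (s i) (T i)).add (M.qq_star_pr (s i) (T i))).smul _

theorem ES.XX_norm (M : ES L z E) {m k : ℕ} {s : Fin k → S1} (pp : PP L m k s) (T : Fin k → M.TT) (hT : ∀ i, ‖M.sg (T i)‖ ≤ 2) :
    ‖(M.XX s T).1‖ ≤ 1 / k * (2 * 2 * Real.sqrt (m * k)) := by
  have h1 := M.norm_sum_le pp T hT
  have e1 : (M.XX s T).1 = (1 / (2 * (k : ℂ))) • (∑ i, (M.qq (s i) (T i)).1 + star (∑ i, (M.qq (s i) (T i)).1)) := by
    rw [ES.XX, Prod.smul_fst, Prod.fst_sum, star_sum, ← Finset.sum_add_distrib]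
    rfl
  rw [e1, norm_smul]
  have e2 : ‖(1 / (2 * (k : ℂ)))‖ = 1 / (2 * k) := by
    rw [norm_div, norm_one, norm_mul, Complex.norm_natCast, Complex.norm_ofNat]
  rw [e2]
  have h2 : ‖∑ i, (M.qq (s i) (T i)).1 + star (∑ i, (M.qq (s i) (T i)).1)‖ ≤ 2 * (2 * 2 * Real.sqrt (m * k)) := by
    refine (norm_add_le _ _).trans ?_
    rw [norm_star]
    linarith
  calc 1 / (2 * (k : ℝ)) * ‖∑ i, (M.qq (s i) (T i)).1 + star (∑ i, (M.qq (s i) (T i)).1)‖ ≤ 1 / (2 * (k : ℝ)) * (2 * (2 * 2 * Real.sqrt (m * k))) := by gcongr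
    _ = _ := by
      rw [one_div_mul_eq_div, one_div_mul_eq_div, mul_div_mul_left _ _ two_ne_zero]

theorem ES.XX_symm (M : ES L z E) {k : ℕ} (s : Fin k → S1) (T : Fin k → M.TT) (h : S2) : star ((M.XX s T).2 h) = (M.XX s T).2 h := by
  have h1 : star (M.XX s T) = M.XX s T := by
    rw [ES.XX, star_smul, star_sum]
    congr 1
    · rw [Complex.star_def, map_div₀, map_one, map_mul, Complex.conj_natCast, Complex.conj_ofNat]
    · refine Finset.sum_congr rfl fun i _ => ?_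
      rw [star_add, star_star, add_comm]
  have := congrArg (fun q : (E →L[ℂ] E) × (S2 → (H →L[ℂ] H)) => q.2 h) h1
  exact this

theorem ES.XX_snd (M : ES L z E) {k : ℕ} (s : Fin k → S1) (T : Fin k → M.TT) :
    (M.XX s T).2 = (1 / (2 * (k : ℂ))) • ∑ i, ((M.qq (s i) (T i)).2 + star (M.qq (s i) (T i)).2) := by
  rw [ES.XX, Prod.smul_snd, Prod.snd_sum]
  rfl

theorem ES.XX_lip (M : ES L z E) {k : ℕ} (s : Fin k → S1) (T : Fin k → M.TT) : LipF z (M.XX s T).2 := by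
  rw [M.XX_snd]
  refine (LipF.sum fun i => ?_).smul _
  have h1 : LipF z (M.qq (s i) (T i)).2 := LipF.mul_op (T := (T i : (E →L[ℂ] E) × (S2 → (H →L[ℂ] H))).2) (T i).2.l (L.V (s i))
  exact h1.add h1.star

theorem ES.XX_cont (M : ES L z E) {k : ℕ} (s : Fin k → S1) (T : Fin k → M.TT) : Continuous (M.XX s T).2 := by
  rw [M.XX_snd]
  have h0 : Continuous (∑ i, ((M.qq (s i) (T i)).2 + star (M.qq (s i) (T i)).2)) := by
    have e : (∑ i, ((M.qq (s i) (T i)).2 + star (M.qq (s i) (T i)).2)) = fun h => ∑ i, ((M.qq (s i) (T i)).2 h + star ((M.qq (s i) (T i)).2 h)) := by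
      funext h
      rw [Finset.sum_apply]
      rfl
    rw [e]
    refine continuous_finset_sum _ fun i _ => ?_
    have h1 : Continuous (M.qq (s i) (T i)).2 := (T i).2.c.mul continuous_const
    exact h1.add h1.star
  exact h0.const_smul _

theorem ES.XX_norm_one (M : ES L z E) {k : ℕ} (hk : 0 < k) (s : Fin k → S1) (T : Fin k → M.TT) (hT : ∀ i, ‖M.pi (T i)‖ ≤ 2) :
    ‖(M.XX s T).2 1‖ ≤ 2 := by
  have hk' : (0 : ℝ) < k := by exact_mod_cast hk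
  rw [M.XX_snd]
  show ‖(1 / (2 * (k : ℂ))) • ((∑ i, ((M.qq (s i) (T i)).2 + star (M.qq (s i) (T i)).2)) 1)‖ ≤ 2
  rw [Finset.sum_apply, norm_smul]
  have e2 : ‖(1 / (2 * (k : ℂ)))‖ = 1 / (2 * k) := by
    rw [norm_div, norm_one, norm_mul, Complex.norm_natCast, Complex.norm_ofNat]
  rw [e2]
  have h1 : ‖∑ i, ((M.qq (s i) (T i)).2 + star (M.qq (s i) (T i)).2) 1‖ ≤ ∑ _i : Fin k, (4 : ℝ) := by
    refine norm_sum_le_of_le _ fun i _ => ?_
    have h2 : ‖(M.qq (s i) (T i)).2 1‖ ≤ 2 := by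
      show ‖M.pi (T i) * op (L.V (s i))‖ ≤ 2
      refine (norm_mul_le _ _).trans ?_
      calc ‖M.pi (T i)‖ * ‖op (L.V (s i))‖ ≤ 2 * 1 := mul_le_mul (hT i) (norm_op_le _) (norm_nonneg _) zero_le_two
        _ = 2 := mul_one 2
    refine (norm_add_le _ _).trans ?_
    have h3 : ‖(star (M.qq (s i) (T i)).2) 1‖ = ‖(M.qq (s i) (T i)).2 1‖ := norm_star ((M.qq (s i) (T i)).2 1)
    rw [h3]
    linarith
  rw [Finset.sum_const, Finset.card_univ, Fintype.card_fin, nsmul_eq_mul] at h1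
  calc 1 / (2 * (k : ℝ)) * ‖∑ i, ((M.qq (s i) (T i)).2 + star (M.qq (s i) (T i)).2) 1‖ ≤ 1 / (2 * (k : ℝ)) * (k * 4) := by gcongr
    _ = 2 := by field_simp; norm_num

theorem ES.XX_re (M : ES L z E) {k : ℕ} (hk : 0 < k) (s : Fin k → S1) (T : Fin k → M.TT) (ξ : H)
    (hT : ∀ i, ‖M.pi (T i) (L.V (s i) ξ) - ξ‖ ≤ ‖ξ‖ / 2) : 1 / 2 * ‖ξ‖ ^ 2 ≤ (inner ℂ ((M.XX s T).2 1 ξ) ξ : ℂ).re := by
  have hk' : (0 : ℝ) < k := by exact_mod_cast hk
  have h1 : ∀ i, 1 / 2 * ‖ξ‖ ^ 2 ≤ (inner ℂ ((M.qq (s i) (T i)).2 1 ξ) ξ : ℂ).re := by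
    intro i
    have e1 : (M.qq (s i) (T i)).2 1 ξ = M.pi (T i) (L.V (s i) ξ) := rfl
    rw [e1]
    have e2 : (inner ℂ (M.pi (T i) (L.V (s i) ξ)) ξ : ℂ) = inner ℂ (M.pi (T i) (L.V (s i) ξ) - ξ) ξ + inner ℂ ξ ξ := by
      rw [inner_sub_left, sub_add_cancel]
    rw [e2, Complex.add_re, inner_self_eq_norm_sq_to_K]
    have h2 : ‖(inner ℂ (M.pi (T i) (L.V (s i) ξ) - ξ) ξ : ℂ)‖ ≤ ‖ξ‖ / 2 * ‖ξ‖ :=
      (norm_inner_le_norm _ _).trans (mul_le_mul_of_nonneg_right (hT i) (norm_nonneg _))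
    have h3 := (Complex.abs_re_le_norm (inner ℂ (M.pi (T i) (L.V (s i) ξ) - ξ) ξ : ℂ)).trans h2
    have h4 := neg_le_of_abs_le h3
    have h5 : (((‖ξ‖ : ℝ) : ℂ) ^ 2).re = ‖ξ‖ ^ 2 := by norm_cast
    change _ ≤ _ + (((‖ξ‖ : ℝ) : ℂ) ^ 2).re
    rw [h5]
    nlinarith
  rw [M.XX_snd]
  have e1 : ((1 / (2 * (k : ℂ))) • ∑ i, ((M.qq (s i) (T i)).2 + star (M.qq (s i) (T i)).2)) 1 ξ
      = (1 / (2 * (k : ℂ))) • ∑ i, ((M.qq (s i) (T i)).2 1 ξ + star ((M.qq (s i) (T i)).2 1) ξ) := by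
    show ((1 / (2 * (k : ℂ))) • ((∑ i, ((M.qq (s i) (T i)).2 + star (M.qq (s i) (T i)).2)) 1)) ξ = _
    rw [Finset.sum_apply, smul_apply, sum_apply]
    rfl
  rw [e1, inner_smul_left, sum_inner]
  have e2 : ∀ i, (inner ℂ ((M.qq (s i) (T i)).2 1 ξ + star ((M.qq (s i) (T i)).2 1) ξ) ξ : ℂ) =
      ((2 * (inner ℂ ((M.qq (s i) (T i)).2 1 ξ) ξ : ℂ).re : ℝ) : ℂ) := by
    intro i
    rw [inner_add_left, ContinuousLinearMap.star_eq_adjoint, ContinuousLinearMap.adjoint_inner_left, ← inner_conj_symm ξ, Complex.add_conj]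
  simp only [e2]
  rw [← Complex.ofReal_sum, ← Finset.mul_sum]
  have e3 : (starRingEnd ℂ) (1 / (2 * (k : ℂ))) = ((1 / (2 * (k : ℝ)) : ℝ) : ℂ) := by
    rw [map_div₀, map_one, map_mul, Complex.conj_natCast, Complex.conj_ofNat]
    push_cast
    rfl
  rw [e3, ← Complex.ofReal_mul, Complex.ofReal_re]
  have h2 : (k : ℝ) * (1 / 2 * ‖ξ‖ ^ 2) ≤ ∑ i, (inner ℂ ((M.qq (s i) (T i)).2 1 ξ) ξ : ℂ).re := by
    have := Finset.sum_le_sum fun (i : Fin k) (_ : i ∈ Finset.univ) => h1 i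
    rwa [Finset.sum_const, Finset.card_univ, Fintype.card_fin, nsmul_eq_mul] at this
  calc 1 / 2 * ‖ξ‖ ^ 2 = 1 / (2 * (k : ℝ)) * (2 * (k * (1 / 2 * ‖ξ‖ ^ 2))) := by field_simp
    _ ≤ _ := by gcongr

end Pr

theorem norm_pow_apply_le {E : Type} [NormedAddCommGroup E] [InnerProductSpace ℂ E] {A : E →L[ℂ] E} {κ : ℝ} (hκ : 0 ≤ κ) (hA : ‖A‖ ≤ κ)
    (u : E) (n : ℕ) : ‖(A ^ n) u‖ ≤ ‖u‖ * κ ^ n := by
  induction n with
  | zero => simp
  | succ n ih =>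
    have e : (A ^ (n + 1)) u = A ((A ^ n) u) := by rw [pow_succ']; rfl
    rw [e]
    refine (A.le_of_opNorm_le hA _).trans ?_
    calc κ * ‖(A ^ n) u‖ ≤ κ * (‖u‖ * κ ^ n) := by gcongr
      _ = ‖u‖ * κ ^ (n + 1) := by ring

/-- **Theorem T.** Ping-pong families of elements acting trivially on the centre are small. -/
theorem thmT (L : Lev S1 S2 H μ) (z : Siz S2 μ) (m : ℕ) :
    ∃ k₀ : ℕ, ∀ k ≥ k₀, ∀ s : Fin k → S1, (∀ i, ∀ a ∈ L.Z, cj (L.V (s i)) a = a) → PP L m k s → False := by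
  refine ⟨m * (16 * 12 ^ z.d) ^ 2 + 1, fun k hk s hs pp => ?_⟩
  obtain ⟨E, i1, i2, i3, ⟨M⟩⟩ := exists_ES L z
  have hk0 : 0 < k := by omega
  have hk' : (0 : ℝ) < k := by exact_mod_cast hk0
  obtain ⟨x, hx, hx0⟩ := exists_x L z
  obtain ⟨ζ, hζ⟩ : ∃ v, x v ≠ 0 := by
    by_contra h
    push Not at h
    exact hx0 (ContinuousLinearMap.ext h)
  obtain ⟨u0, hu0⟩ := M.mem x hx ζ
  set F0 : S2 → H := fun h => cj (L.W h) x ζ with hF0
  have hF1 : F0 1 = x ζ := by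
    rw [hF0]
    show cj (L.W 1) x ζ = x ζ
    rw [map_one]
    rfl
  set ξ := x ζ with hξ
  -- Kaplansky
  have hT : ∀ i, ∃ T : M.TT, ‖M.pi T‖ ≤ 2 ∧ ‖M.sg T‖ ≤ 2 ∧ ‖M.pi T (L.V (s i) ξ) - ξ‖ ≤ ‖ξ‖ / 2 := by
    intro i
    obtain ⟨T, h1, h2, h3⟩ := kap M.pi M.sg (op (L.V (s i)).symm) (by rw [star_op, LinearIsometryEquiv.symm_symm, op_mul_symm])
      (by rw [star_op, LinearIsometryEquiv.symm_symm, op_symm_mul]) (by
        intro c hc
        have h1 := hs i c (M.comm_mem hc)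
        conv_lhs => rw [← h1]
        rw [cj_eq, ← mul_assoc, ← mul_assoc, op_symm_mul, one_mul]) 1 (fun _ => L.V (s i) ξ) (‖ξ‖ / 2)
        (half_pos (norm_pos_iff.2 hζ))
    refine ⟨T, h1, h2, ?_⟩
    have h4 := (h3 0).1
    have e : op (L.V (s i)).symm (L.V (s i) ξ) = ξ := (L.V (s i)).symm_apply_apply ξ
    rwa [e] at h4
  choose T hT1 hT2 hT3 using hT
  obtain ⟨C1, hC1⟩ := M.XX_lip s T
  obtain ⟨C2, hC2⟩ := M.lip _ hu0
  set κ : ℝ := 1 / k * (2 * 2 * Real.sqrt (m * k)) with hκ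
  have hκ0 : 0 ≤ κ := by positivity
  have hκ1 : κ * (4 * (2 + 1)) ^ z.d ≤ 1 / 4 := by
    have h1 : (m : ℝ) * (16 * 12 ^ z.d) ^ 2 ≤ k := by
      have h2 : ((m * (16 * 12 ^ z.d) ^ 2 : ℕ) : ℝ) ≤ (k : ℝ) := Nat.cast_le.2 (by omega)
      push_cast at h2
      exact h2
    have h2 : Real.sqrt (m * k) * (16 * 12 ^ z.d) ≤ k := by
      refine le_of_sq_le_sq ?_ hk'.le
      rw [mul_pow, Real.sq_sqrt (by positivity)]
      generalize ((16 : ℝ) * 12 ^ z.d) ^ 2 = q at h1 ⊢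
      calc (m : ℝ) * k * q = k * (m * q) := by ring
        _ ≤ k * k := mul_le_mul_of_nonneg_left h1 hk'.le
        _ = (k : ℝ) ^ 2 := by ring
    calc κ * (4 * (2 + 1)) ^ z.d = 1 / k * (1 / 4) * (Real.sqrt (m * k) * (16 * 12 ^ z.d)) := by
          rw [hκ]
          norm_num
          ring
      _ ≤ 1 / k * (1 / 4) * k := by gcongr
      _ = 1 / 4 := by field_simp
  obtain ⟨C', hC'⟩ := avg z (M.XX s T).2 F0 (M.XX_cont s T) (M.cont _ hu0) (|C1| + |C2|) 2 ‖u0‖ κ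
    (fun h => (hC1 h).trans (mul_le_mul_of_nonneg_right ((le_abs_self C1).trans (le_add_of_nonneg_right (abs_nonneg _))) (z.nonneg h)))
    (M.XX_norm_one hk0 s T hT1)
    (fun h => (hC2 h).trans (mul_le_mul_of_nonneg_right ((le_abs_self C2).trans (le_add_of_nonneg_left (abs_nonneg _))) (z.nonneg h)))
    hκ0 hκ1 (by
      intro n
      have h1 := (M.XX_pr s T).pow hu0 n
      have h2 := M.norm _ h1
      rw [h2, ← ofReal_norm, ← ENNReal.ofReal_pow (norm_nonneg _)]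
      refine ENNReal.ofReal_le_ofReal (pow_le_pow_left₀ (norm_nonneg _) ?_ 2)
      exact norm_pow_apply_le hκ0 (M.XX_norm pp T hT2) u0 n)
  rw [hF1] at hC'
  refine low_contra (X := (M.XX s T).2 1) (fun a b => ?_) hζ (M.XX_re hk0 s T ξ hT3) C' hC'
  conv_lhs => rw [← M.XX_symm s T 1]
  rw [ContinuousLinearMap.star_eq_adjoint, ContinuousLinearMap.adjoint_inner_left]

end Pool.Agent.Helper43.TZ
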