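import Pool.Agent.Helper43.TZ.Defs

/-!
# Project TZ: the hypothesis on `S1` for the dimension argument
-/

set_option autoImplicit false

open MeasureTheory Filter Topology
open scoped ENNReal

namespace Pool.Agent.Helper43.TZ

/-- The hypothesis on `S1`: many separated elements with powers in the compact set `Sg`. -/
structure Fam (S1 : Type) [Group S1] [TopologicalSpace S1] where
  /-- a compact set -/
  B1 : Set S1
  hB1 : IsCompact B1
  /-- the shell -/
  Sg : Set S1
  hSg : IsCompact Sg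
  /-- the dimension -/
  d1 : ℕ
  /-- constants -/
  c : ℝ
  C : ℝ
  c_pos : 0 < c
  fam : ∀ η : ℝ, 0 < η → η ≤ 1 → ∃ (N : ℕ) (s : Fin N → S1), c ≤ N * η ^ d1 ∧ (∀ i, s i ∈ B1) ∧
    ∀ i j, i ≠ j → ∃ a : ℕ, a * η ≤ C ∧ ((s j)⁻¹ * s i) ^ a ∈ Sg

end Pool.Agent.Helper43.TZ
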