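import Pool.Agent.Helper43.TZ.Defs

/-!
# Project TZ, block T5: smoothing

`a' = ∫ f(h) W(h) a W(h)⁻¹ dh`, `f` a bump function (`Siz.bump`), as a weak/strong (Bochner in each vector) integral. `W(g) a' W(g)⁻¹ = ∫ f(g⁻¹ h) W(h) a W(h)⁻¹ dh` (left invariance), so `‖W(g) a' W(g)⁻¹ - a'‖ ≤ ‖a‖ ∫ |f(g⁻¹h) - f(h)|`.
Square integrability: `‖W(g) a' W(g)⁻¹ x‖² ≤ ∫ f(h) ‖W(gh) a W(gh)⁻¹ x‖² dh` (Jensen), Tonelli and right invariance.
-/

set_option autoImplicit false

open MeasureTheory Filter Topology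
open scoped ENNReal

namespace Pool.Agent.Helper43.TZ

variable {S1 S2 H : Type} [Group S1] [TopologicalSpace S1] [Group S2] [TopologicalSpace S2] [IsTopologicalGroup S2]
  [LocallyCompactSpace S2] [SecondCountableTopology S2] [T2Space S2] [MeasurableSpace S2] [BorelSpace S2]
  {μ : Measure S2} [μ.IsHaarMeasure] [μ.IsMulRightInvariant] [NormedAddCommGroup H] [InnerProductSpace ℂ H] [CompleteSpace H]

omit [CompleteSpace H] in
private theorem cj_mul69 (u : H ≃ₗᵢ[ℂ] H) (a b : H →L[ℂ] H) : cj u (a * b) = cj u a * cj u b := by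
  ext x
  simp [cj_apply]

omit [CompleteSpace H] in
private theorem cj_comp69 {G : Type} [Group G] (U : G →* (H ≃ₗᵢ[ℂ] H)) (g h : G) (a : H →L[ℂ] H) :
    cj (U g) (cj (U h) a) = cj (U (g * h)) a := by
  ext x
  rw [cj_apply, cj_apply, cj_apply, map_mul]
  rfl

omit [CompleteSpace H] in
private theorem cj_one69 {G : Type} [Group G] (U : G →* (H ≃ₗᵢ[ℂ] H)) (a : H →L[ℂ] H) : cj (U 1) a = a := by
  ext x
  rw [cj_apply, map_one]
  rfl

omit [CompleteSpace H] in
private theorem norm_cj69 (u : H ≃ₗᵢ[ℂ] H) (a : H →L[ℂ] H) (x : H) : ‖cj u a x‖ ≤ ‖a‖ * ‖x‖ := by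
  rw [cj_apply, LinearIsometryEquiv.norm_map]
  exact (a.le_opNorm _).trans (by rw [LinearIsometryEquiv.norm_map])

omit [CompleteSpace H] in
private theorem symm_eq69 {G : Type} [Group G] (U : G →* (H ≃ₗᵢ[ℂ] H)) (g : G) (x : H) : (U g).symm x = U g⁻¹ x := by
  rw [map_inv]
  rfl

omit [CompleteSpace H] in
private theorem contW69 {T : Type} [TopologicalSpace T] {U : T → (H ≃ₗᵢ[ℂ] H)} (hU : ∀ x, Continuous fun h => U h x)
    {y : T → H} (hy : Continuous y) : Continuous fun h => U h (y h) := by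
  rw [continuous_iff_continuousAt]
  intro h0
  unfold ContinuousAt
  rw [tendsto_iff_norm_sub_tendsto_zero]
  have h1 : Tendsto (fun h => ‖y h - y h0‖ + ‖U h (y h0) - U h0 (y h0)‖) (𝓝 h0) (𝓝 0) := by
    have e1 := tendsto_iff_norm_sub_tendsto_zero.1 (hy.tendsto h0)
    have e2 := tendsto_iff_norm_sub_tendsto_zero.1 ((hU (y h0)).tendsto h0)
    simpa using e1.add e2
  refine squeeze_zero (fun _ => norm_nonneg _) (fun h => ?_) h1
  calc ‖U h (y h) - U h0 (y h0)‖ = ‖U h (y h - y h0) + (U h (y h0) - U h0 (y h0))‖ := by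
        rw [map_sub]
        congr 1
        abel
    _ ≤ ‖U h (y h - y h0)‖ + ‖U h (y h0) - U h0 (y h0)‖ := norm_add_le _ _
    _ = _ := by rw [LinearIsometryEquiv.norm_map]

private theorem cont_cj69 (L : Lev S1 S2 H μ) (a : H →L[ℂ] H) (x : H) : Continuous fun h => cj (L.W h) a x := by
  have h1 : Continuous fun h => (L.W h).symm x := by
    have : (fun h => (L.W h).symm x) = fun h => L.W h⁻¹ x := funext fun h => symm_eq69 L.W h x
    rw [this]
    exact (L.Wc x).comp continuous_inv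
  exact contW69 L.Wc (a.continuous.comp h1)

private theorem int69 (L : Lev S1 S2 H μ) (a : H →L[ℂ] H) (x : H) {f : S2 → ℝ} (hf : Continuous f) (hc : HasCompactSupport f) :
    Integrable (fun h => (f h : ℂ) • cj (L.W h) a x) μ := by
  refine Continuous.integrable_of_hasCompactSupport ((Complex.continuous_ofReal.comp hf).smul (cont_cj69 L a x)) ?_
  refine HasCompactSupport.smul_right ?_
  exact hc.comp_left Complex.ofReal_zero

/-- the smoothed operator -/
private noncomputable def sm69 (L : Lev S1 S2 H μ) (a : H →L[ℂ] H) (f : S2 → ℝ) (hf : Continuous f) (hc : HasCompactSupport f)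
    (h0 : ∀ h, 0 ≤ f h) (h1 : ∫ h, f h ∂μ = 1) : H →L[ℂ] H :=
  LinearMap.mkContinuous
    { toFun := fun x => ∫ h, (f h : ℂ) • cj (L.W h) a x ∂μ
      map_add' := fun x y => by
        rw [← integral_add (int69 L a x hf hc) (int69 L a y hf hc)]
        congr 1
        ext h
        rw [map_add, smul_add]
      map_smul' := fun c x => by
        rw [RingHom.id_apply, ← integral_smul]
        congr 1
        ext h
        rw [map_smul, smul_comm] } ‖a‖ (fun x => by
      change ‖∫ h, (f h : ℂ) • cj (L.W h) a x ∂μ‖ ≤ ‖a‖ * ‖x‖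
      calc ‖∫ h, (f h : ℂ) • cj (L.W h) a x ∂μ‖ ≤ ∫ h, f h * (‖a‖ * ‖x‖) ∂μ := by
            refine norm_integral_le_of_norm_le ((hf.integrable_of_hasCompactSupport hc).mul_const _) (ae_of_all _ fun h => ?_)
            rw [norm_smul, Complex.norm_real, Real.norm_of_nonneg (h0 h)]
            exact mul_le_mul_of_nonneg_left (norm_cj69 _ _ _) (h0 h)
        _ = ‖a‖ * ‖x‖ := by rw [integral_mul_const, h1, one_mul])

private theorem sm_apply69 (L : Lev S1 S2 H μ) (a : H →L[ℂ] H) (f : S2 → ℝ) (hf : Continuous f) (hc : HasCompactSupport f)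
    (h0 : ∀ h, 0 ≤ f h) (h1 : ∫ h, f h ∂μ = 1) (x : H) :
    sm69 L a f hf hc h0 h1 x = ∫ h, (f h : ℂ) • cj (L.W h) a x ∂μ := rfl

private theorem cj_sm69 (L : Lev S1 S2 H μ) (a : H →L[ℂ] H) (f : S2 → ℝ) (hf : Continuous f) (hc : HasCompactSupport f)
    (h0 : ∀ h, 0 ≤ f h) (h1 : ∫ h, f h ∂μ = 1) (g : S2) (x : H) :
    cj (L.W g) (sm69 L a f hf hc h0 h1) x = ∫ h, (f h : ℂ) • cj (L.W (g * h)) a x ∂μ := by
  rw [cj_apply, sm_apply69, ← LinearIsometryEquiv.coe_toContinuousLinearEquiv, ← ContinuousLinearEquiv.integral_comp_comm]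
  congr 1
  ext h
  rw [map_smul, ← cj_comp69 L.W g h a]
  rfl

theorem smooth (L : Lev S1 S2 H μ) (z : Siz S2 μ) (a : H →L[ℂ] H) (n : ℕ) (v : Fin n → H) (ε : ℝ) (hε : 0 < ε) :
    ∃ a' : H →L[ℂ] H, L.Lip z a' ∧ ‖a'‖ ≤ ‖a‖ ∧ (∀ i, ‖a' (v i) - a (v i)‖ ≤ ε) ∧
      (∀ r : H →L[ℂ] H, (∀ h, cj (L.W h) a * r = r * cj (L.W h) a) → a' * r = r * a') ∧
      (L.I2 a → L.I2 a') ∧ (a ∈ L.J → a' ∈ L.J) := by
  -- the radius
  have hU : {h : S2 | ∀ i, ‖cj (L.W h) a (v i) - a (v i)‖ ≤ ε} ∈ 𝓝 (1 : S2) := by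
    rw [← eventually_iff, eventually_all]
    intro i
    have e1 := (cont_cj69 L a (v i)).tendsto 1
    rw [cj_one69] at e1
    have e2 := tendsto_iff_norm_sub_tendsto_zero.1 e1
    exact (e2.eventually_le_const hε)
  obtain ⟨r, hr, hrU⟩ := z.basis _ hU
  obtain ⟨f, hf, hc, h0, hs, h1, C, hC⟩ := z.bump r hr
  refine ⟨sm69 L a f hf hc h0 h1, ⟨C * ‖a‖, fun g => ?_⟩, LinearMap.mkContinuous_norm_le _ (norm_nonneg _) _, fun i => ?_, ?_⟩
  · -- Lipschitz
    have hpos : 0 ≤ C * z.ρ g := (integral_nonneg fun h => abs_nonneg _).trans (hC g)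
    refine ContinuousLinearMap.opNorm_le_bound _ (by nlinarith [norm_nonneg a, mul_nonneg hpos (norm_nonneg a)]) fun x => ?_
    have e1 : cj (L.W g) (sm69 L a f hf hc h0 h1) x = ∫ h, (f (g⁻¹ * h) : ℂ) • cj (L.W h) a x ∂μ := by
      rw [cj_sm69, ← integral_mul_left_eq_self (fun h => (f (g⁻¹ * h) : ℂ) • cj (L.W h) a x) g]
      congr 1
      ext h
      rw [inv_mul_cancel_left]
    have hf' : Continuous fun h => f (g⁻¹ * h) := hf.comp (continuous_const_mul _)
    have hc' : HasCompactSupport fun h => f (g⁻¹ * h) := hc.comp_homeomorph (Homeomorph.mulLeft g⁻¹)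
    rw [ContinuousLinearMap.sub_apply, e1, sm_apply69, ← integral_sub (int69 L a x hf' hc') (int69 L a x hf hc)]
    calc ‖∫ h, ((f (g⁻¹ * h) : ℂ) • cj (L.W h) a x - (f h : ℂ) • cj (L.W h) a x) ∂μ‖
        ≤ ∫ h, |f (g⁻¹ * h) - f h| * (‖a‖ * ‖x‖) ∂μ := by
          refine norm_integral_le_of_norm_le ?_ (ae_of_all _ fun h => ?_)
          · exact (((hf'.integrable_of_hasCompactSupport hc').sub (hf.integrable_of_hasCompactSupport hc)).abs).mul_const _
          · rw [← sub_smul, norm_smul, ← Complex.ofReal_sub, Complex.norm_real, Real.norm_eq_abs]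
            exact mul_le_mul_of_nonneg_left (norm_cj69 _ _ _) (abs_nonneg _)
      _ = (∫ h, |f (g⁻¹ * h) - f h| ∂μ) * (‖a‖ * ‖x‖) := integral_mul_const _ _
      _ ≤ (C * z.ρ g) * (‖a‖ * ‖x‖) := mul_le_mul_of_nonneg_right (hC g) (by positivity)
      _ = C * ‖a‖ * z.ρ g * ‖x‖ := by ring
  · -- approximation
    have e1 : a (v i) = ∫ h, (f h : ℂ) • a (v i) ∂μ := by
      rw [integral_smul_const]
      rw [show (∫ h, (f h : ℂ) ∂μ) = ((∫ h, f h ∂μ : ℝ) : ℂ) from integral_ofReal, h1, Complex.ofReal_one, one_smul]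
    have hi : Integrable (fun h => (f h : ℂ) • a (v i)) μ :=
      ((hf.integrable_of_hasCompactSupport hc).ofReal).smul_const _
    rw [sm_apply69]
    conv_lhs => rw [e1]
    rw [← integral_sub (int69 L a _ hf hc) hi]
    calc ‖∫ h, ((f h : ℂ) • cj (L.W h) a (v i) - (f h : ℂ) • a (v i)) ∂μ‖ ≤ ∫ h, f h * ε ∂μ := by
          refine norm_integral_le_of_norm_le ((hf.integrable_of_hasCompactSupport hc).mul_const _) (ae_of_all _ fun h => ?_)
          rw [← smul_sub, norm_smul, Complex.norm_real, Real.norm_of_nonneg (h0 h)]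
          by_cases hh : f h = 0
          · rw [hh, zero_mul, zero_mul]
          · exact mul_le_mul_of_nonneg_left (hrU h (hs h hh) i) (h0 h)
      _ = ε := by rw [integral_mul_const, h1, one_mul]
  · have key : ∀ r : H →L[ℂ] H, (∀ h, cj (L.W h) a * r = r * cj (L.W h) a) →
        sm69 L a f hf hc h0 h1 * r = r * sm69 L a f hf hc h0 h1 := by
      intro r hr
      ext x
      rw [ContinuousLinearMap.mul_apply, ContinuousLinearMap.mul_apply, sm_apply69, sm_apply69,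
        ← ContinuousLinearMap.integral_comp_comm _ (int69 L a x hf hc)]
      congr 1
      ext h
      rw [map_smul]
      have := congrArg (fun T : H →L[ℂ] H => T x) (hr h)
      simp only [ContinuousLinearMap.mul_apply] at this
      rw [this]
    refine ⟨key, ?_, ?_⟩
    · rintro ⟨C', hC'⟩
      refine ⟨C', fun x => ?_⟩
      have hfm : Measurable fun h => ENNReal.ofReal (f h) := hf.measurable.ennreal_ofReal
      have hum : Measurable fun h => ‖cj (L.W h) a x‖ₑ := (cont_cj69 L a x).enorm.measurable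
      have hf1 : ∫⁻ h, ENNReal.ofReal (f h) ∂μ = 1 := by
        rw [← ofReal_integral_eq_lintegral_ofReal (hf.integrable_of_hasCompactSupport hc) (ae_of_all _ h0), h1, ENNReal.ofReal_one]
      have hpt : ∀ g, ‖cj (L.W g) (sm69 L a f hf hc h0 h1) x‖ₑ ^ 2 ≤
          ∫⁻ h, ENNReal.ofReal (f h) * ‖cj (L.W (g * h)) a x‖ₑ ^ 2 ∂μ := by
        intro g
        have hug : Measurable fun h => ‖cj (L.W (g * h)) a x‖ₑ := hum.comp (measurable_const_mul g)
        have e1 : ‖cj (L.W g) (sm69 L a f hf hc h0 h1) x‖ₑ ≤ ∫⁻ h, ENNReal.ofReal (f h) * ‖cj (L.W (g * h)) a x‖ₑ ∂μ := by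
          rw [cj_sm69]
          refine (enorm_integral_le_lintegral_enorm _).trans (le_of_eq ?_)
          congr 1
          ext h
          rw [enorm_smul]
          congr 1
          rw [← ofReal_norm_eq_enorm, Complex.norm_real, Real.norm_of_nonneg (h0 h)]
        have e2 : (∫⁻ h, ENNReal.ofReal (f h) * ‖cj (L.W (g * h)) a x‖ₑ ∂μ) ^ 2 ≤
            ∫⁻ h, ENNReal.ofReal (f h) * ‖cj (L.W (g * h)) a x‖ₑ ^ 2 ∂μ := by
          set A : S2 → ℝ≥0∞ := fun h => ENNReal.ofReal (f h) ^ (1 / 2 : ℝ) with hA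
          set B : S2 → ℝ≥0∞ := fun h => ENNReal.ofReal (f h) ^ (1 / 2 : ℝ) * ‖cj (L.W (g * h)) a x‖ₑ with hB
          have hAm : AEMeasurable A μ := (hfm.pow_const _).aemeasurable
          have hBm : AEMeasurable B μ := ((hfm.pow_const _).mul hug).aemeasurable
          have hAA : ∀ h, A h ^ (2 : ℝ) = ENNReal.ofReal (f h) := fun h => by
            rw [hA]
            simp only
            rw [← ENNReal.rpow_mul]
            norm_num
          have hBB : ∀ h, B h ^ (2 : ℝ) = ENNReal.ofReal (f h) * ‖cj (L.W (g * h)) a x‖ₑ ^ 2 := fun h => by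
            rw [hB]
            simp only
            rw [ENNReal.mul_rpow_of_nonneg _ _ (by norm_num : (0 : ℝ) ≤ 2), ← ENNReal.rpow_mul]
            norm_num
          have hAB : ∀ h, (A * B) h = ENNReal.ofReal (f h) * ‖cj (L.W (g * h)) a x‖ₑ := fun h => by
            rw [Pi.mul_apply, hB]
            simp only
            rw [← mul_assoc]
            congr 1
            have := hAA h
            rw [show (2 : ℝ) = ((2 : ℕ) : ℝ) by norm_num, ENNReal.rpow_natCast, sq] at this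
            exact this
          have e3 := ENNReal.lintegral_mul_le_Lp_mul_Lq μ Real.HolderConjugate.two_two hAm hBm
          simp only [hAA, hBB, hAB, hf1, ENNReal.one_rpow, one_mul] at e3
          calc (∫⁻ h, ENNReal.ofReal (f h) * ‖cj (L.W (g * h)) a x‖ₑ ∂μ) ^ 2
              ≤ ((∫⁻ h, ENNReal.ofReal (f h) * ‖cj (L.W (g * h)) a x‖ₑ ^ 2 ∂μ) ^ (1 / 2 : ℝ)) ^ 2 := by gcongr
            _ = ∫⁻ h, ENNReal.ofReal (f h) * ‖cj (L.W (g * h)) a x‖ₑ ^ 2 ∂μ := by
              rw [← ENNReal.rpow_natCast, ← ENNReal.rpow_mul]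
              norm_num
        exact le_trans (by gcongr) e2
      have hprod : Measurable fun q : S2 × S2 => ENNReal.ofReal (f q.2) * ‖cj (L.W (q.1 * q.2)) a x‖ₑ ^ 2 :=
        (hfm.comp measurable_snd).mul ((((cont_cj69 L a x).comp continuous_mul).enorm.measurable).pow_const 2)
      calc ∫⁻ g, ‖cj (L.W g) (sm69 L a f hf hc h0 h1) x‖ₑ ^ 2 ∂μ
          ≤ ∫⁻ g, ∫⁻ h, ENNReal.ofReal (f h) * ‖cj (L.W (g * h)) a x‖ₑ ^ 2 ∂μ ∂μ := lintegral_mono hpt
        _ = ∫⁻ h, ∫⁻ g, ENNReal.ofReal (f h) * ‖cj (L.W (g * h)) a x‖ₑ ^ 2 ∂μ ∂μ :=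
          lintegral_lintegral_swap hprod.aemeasurable
        _ = ∫⁻ h, ENNReal.ofReal (f h) * ∫⁻ g, ‖cj (L.W g) a x‖ₑ ^ 2 ∂μ ∂μ := by
          congr 1
          ext h
          have hm : Measurable fun g => ‖cj (L.W (g * h)) a x‖ₑ ^ 2 := (hum.comp (measurable_mul_const h)).pow_const 2
          rw [lintegral_const_mul _ hm]
          congr 1
          exact lintegral_mul_right_eq_self (fun g => ‖cj (L.W g) a x‖ₑ ^ 2) h
        _ = ∫⁻ g, ‖cj (L.W g) a x‖ₑ ^ 2 ∂μ := by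
          rw [lintegral_mul_const _ hfm, hf1, one_mul]
        _ ≤ _ := hC' x
    · intro ha
      have hall : ∀ h, cj (L.W h) a ∈ L.J := fun h => L.RW a ha h
      have hmem := fun h => (StarSubalgebra.mem_centralizer_iff (R := ℂ)).1 (hall h)
      refine (StarSubalgebra.mem_centralizer_iff (R := ℂ)).2 fun r hr => ⟨?_, ?_⟩
      · exact (key r fun h => ((hmem h) r hr).1.symm).symm
      · exact (key (star r) fun h => ((hmem h) r hr).2.symm).symm

/-- There is a Lipschitz square integrable element of `J` which is not zero. -/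
theorem exists_x (L : Lev S1 S2 H μ) (z : Siz S2 μ) : ∃ x ∈ L.J2 z, x ≠ 0 := by
  obtain ⟨v, hv⟩ : ∃ v, L.a0 v ≠ 0 := by
    by_contra h
    push Not at h
    exact L.a0n (ContinuousLinearMap.ext h)
  obtain ⟨x, h1, -, h2, -, h3, h4⟩ := smooth L z L.a0 1 (fun _ => v) (‖L.a0 v‖ / 2) (by positivity)
  refine ⟨x, ⟨h4 L.a0J, h1, h3 L.a0i⟩, fun hx => ?_⟩
  have h5 := h2 0
  rw [hx, ContinuousLinearMap.zero_apply, zero_sub, norm_neg] at h5
  have : 0 < ‖L.a0 v‖ := norm_pos_iff.2 hv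
  linarith

private theorem comm69 (L : Lev S1 S2 H μ) (z : Siz S2 μ) (a c : H →L[ℂ] H)
    (hc : ∀ (n : ℕ) (v : Fin n → H) (ε : ℝ), 0 < ε → ∃ a' : H →L[ℂ] H, a' * c = c * a' ∧ ∀ i, ‖a' (v i) - a (v i)‖ ≤ ε) :
    a * c = c * a := by
  ext x
  rw [ContinuousLinearMap.mul_apply, ContinuousLinearMap.mul_apply, ← sub_eq_zero, ← norm_le_zero_iff]
  refine le_of_forall_pos_le_add fun δ hδ => ?_
  obtain ⟨a', h1, h2⟩ := hc 2 ![c x, x] (δ / (1 + ‖c‖)) (by positivity)
  have e1 : a' (c x) = c (a' x) := by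
    have := congrArg (fun T : H →L[ℂ] H => T x) h1
    simpa only [ContinuousLinearMap.mul_apply] using this
  have h3 := h2 0
  have h4 := h2 1
  simp only [Matrix.cons_val_zero, Matrix.cons_val_one] at h3 h4
  calc ‖a (c x) - c (a x)‖ = ‖(c (a' x - a x)) - (a' (c x) - a (c x))‖ := by
        rw [map_sub, e1]
        congr 1
        abel
    _ ≤ ‖c (a' x - a x)‖ + ‖a' (c x) - a (c x)‖ := norm_sub_le _ _
    _ ≤ ‖c‖ * (δ / (1 + ‖c‖)) + δ / (1 + ‖c‖) :=
        add_le_add ((c.le_opNorm _).trans (mul_le_mul_of_nonneg_left h4 (norm_nonneg _))) h3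
    _ = 0 + δ := by field_simp; ring

/-- Elements commuting with the Lipschitz elements of `J` commute with `J`. -/
theorem comm_of_lip (L : Lev S1 S2 H μ) (z : Siz S2 μ) (c : H →L[ℂ] H) (hc : ∀ a ∈ L.J, L.Lip z a → a * c = c * a) : c ∈ L.J' := by
  have key : ∀ a ∈ L.J, a * c = c * a := fun a ha => comm69 L z a c fun n v ε hε => by
    obtain ⟨a', h1, -, h2, -, -, h4⟩ := smooth L z a n v ε hε
    exact ⟨a', hc a' (h4 ha) h1, h2⟩
  exact (StarSubalgebra.mem_centralizer_iff (R := ℂ)).2 fun a ha => ⟨key a ha, key (star a) (star_mem ha)⟩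

private theorem cj_J69 {G : Type} [Group G] (L : Lev S1 S2 H μ) (U : G →* (H ≃ₗᵢ[ℂ] H)) (hU : ∀ a ∈ L.J, ∀ g, cj (U g) a ∈ L.J)
    {a : H →L[ℂ] H} (ha : a ∈ L.J') (g : G) : cj (U g) a ∈ L.J' := by
  have key : ∀ b ∈ L.J, b * cj (U g) a = cj (U g) a * b := fun b hb => by
    have h1 := ((StarSubalgebra.mem_centralizer_iff (R := ℂ)).1 ha (cj (U g⁻¹) b) (hU b hb _)).1
    have h2 : cj (U g) (cj (U g⁻¹) b) = b := by rw [cj_comp69, mul_inv_cancel, cj_one69]
    calc b * cj (U g) a = cj (U g) (cj (U g⁻¹) b * a) := by rw [cj_mul69, h2]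
      _ = cj (U g) (a * cj (U g⁻¹) b) := by rw [h1]
      _ = cj (U g) a * b := by rw [cj_mul69, h2]
  exact (StarSubalgebra.mem_centralizer_iff (R := ℂ)).2 fun b hb => ⟨key b hb, key (star b) (star_mem hb)⟩

/-- An operator commuting with the Lipschitz elements of the centre `Z` commutes with `Z`. -/
theorem comm_of_lipZ (L : Lev S1 S2 H μ) (z : Siz S2 μ) (c : H →L[ℂ] H) (hc : ∀ a ∈ L.Z, L.Lip z a → a * c = c * a) :
    ∀ a ∈ L.Z, a * c = c * a := by
  intro a ha
  have ha' : a ∈ L.J ∧ a ∈ L.J' := ha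
  refine comm69 L z a c fun n v ε hε => ?_
  obtain ⟨a', h1, -, h2, h3, -, h4⟩ := smooth L z a n v ε hε
  have key : ∀ b ∈ L.J, b * a' = a' * b := fun b hb => by
    refine (h3 b fun h => ?_).symm
    exact (((StarSubalgebra.mem_centralizer_iff (R := ℂ)).1 (cj_J69 L L.W L.RW ha'.2 h) b hb).1).symm
  have h5 : a' ∈ L.J' := (StarSubalgebra.mem_centralizer_iff (R := ℂ)).2 fun b hb => ⟨key b hb, key (star b) (star_mem hb)⟩
  exact ⟨a', hc a' (show a' ∈ L.J ⊓ L.J' from ⟨h4 ha'.1, h5⟩) h1, h2⟩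

/-- `α_h` preserves `J'` and `Z`. -/
theorem cjW_J' (L : Lev S1 S2 H μ) {a : H →L[ℂ] H} (ha : a ∈ L.J') (h : S2) : cj (L.W h) a ∈ L.J' :=
  cj_J69 L L.W L.RW ha h

theorem cjV_J' (L : Lev S1 S2 H μ) {a : H →L[ℂ] H} (ha : a ∈ L.J') (s : S1) : cj (L.V s) a ∈ L.J' :=
  cj_J69 L L.V L.RV ha s

end Pool.Agent.Helper43.TZ
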