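import Mathlib

/-!
# Project TZ: arithmetic
-/

set_option autoImplicit false

namespace Pool.Agent.Helper43.TZ

theorem mult_lt {p1 p2 m : ℕ} (hm : 2 ≤ m) (hp2 : 0 < p2) (h : p1 * (m * (m - 1)) ≤ p2 * m ^ 2 - 1) : p1 < 2 * p2 := by
  by_contra hcon
  push Not at hcon
  obtain ⟨k, rfl⟩ : ∃ k, m = k + 2 := ⟨m - 2, by omega⟩
  have h1 : k + 2 - 1 = k + 1 := by omega
  rw [h1] at h
  have h2 : 2 * p2 * ((k + 2) * (k + 1)) ≤ p1 * ((k + 2) * (k + 1)) := Nat.mul_le_mul_right _ hcon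
  have h3 : p2 * (k + 2) ^ 2 ≤ 2 * p2 * ((k + 2) * (k + 1)) := by
    have : (k + 2) ^ 2 ≤ 2 * ((k + 2) * (k + 1)) := by nlinarith
    calc p2 * (k + 2) ^ 2 ≤ p2 * (2 * ((k + 2) * (k + 1))) := Nat.mul_le_mul_left _ this
      _ = _ := by ring
  have h4 : 0 < p2 * (k + 2) ^ 2 := by positivity
  omega

end Pool.Agent.Helper43.TZ
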