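import Pool.Agent.Helper43.TZ.SGlue4

/-!
# Project TZ: the two directions of a one-parameter group

`TwoDir G r d`: everything `tz_main` needs from the first group. `exists_twoDir`: from `VSrc` in the directions `H` and `-H`.
-/

set_option autoImplicit false

open MeasureTheory Filter Topology Matrix

namespace Pool.Agent.Helper43.TZ

open Pool.Agent.Helper96.SA Pool.Agent.Helper96.FR Pool.Agent.Helper43.TA

/-- Everything the proof needs from the first group. -/
structure TwoDir (G : Type) [Group G] [TopologicalSpace G] [IsTopologicalGroup G] (r d : ℕ) where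
  F : Subgroup G
  par : G → ℝ
  two : TwoF r F
  D1 : Dir G F par d
  D2 : Dir G F (fun g => -par g) d
  hpi : ∀ g ∈ F, par g⁻¹ = -par g
  f : ℕ → G
  hfF : ∀ n, f n ∈ F
  hfc : Tendsto f atTop (cocompact G)
  hfp : Tendsto (fun n => par (f n)) atTop atTop

variable {M m d : ℕ} {G : Subgroup (GL (Fin M) ℝ)}

theorem VSrc.H_ne (s : VSrc G m d) (hm : 0 < m) : s.H ≠ 0 := by
  intro h
  have h1 := s.sumE
  rw [h, Matrix.mul_zero, add_zero, smul_zero] at h1
  have h2 := congrArg (fun X => X * s.E ⟨0, hm⟩) h1
  simp only [Finset.sum_mul, s.EE, Matrix.zero_mul] at h2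
  rw [Finset.sum_ite_eq'] at h2
  rw [if_pos (Finset.mem_univ _)] at h2
  exact s.E0 _ h2

end Pool.Agent.Helper43.TZ
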