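import Mathlib

/-!
# Project TZ: lower bound for the powers of a selfadjoint operator
-/

set_option autoImplicit false

open Filter Topology

namespace Pool.Agent.Helper43.TZ

variable {H : Type} [NormedAddCommGroup H] [InnerProductSpace ℂ H] [CompleteSpace H]

theorem pow_symm {X : H →L[ℂ] H} (hX : ∀ x y, (inner ℂ (X x) y : ℂ) = inner ℂ x (X y)) (n : ℕ) (x y : H) :
    (inner ℂ ((X ^ n) x) y : ℂ) = inner ℂ x ((X ^ n) y) := by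
  induction n generalizing x y with
  | zero => simp
  | succ n ih =>
    rw [pow_succ']
    show (inner ℂ (X ((X ^ n) x)) y : ℂ) = inner ℂ x (X ((X ^ n) y))
    rw [hX, ih, ← hX]
    have h1 : X ((X ^ n) y) = (X ^ n) (X y) := by
      rw [← ContinuousLinearMap.mul_apply, ← ContinuousLinearMap.mul_apply, ← pow_succ', ← pow_succ]
    rw [hX, h1]

theorem low {X : H →L[ℂ] H} (hX : ∀ x y, (inner ℂ (X x) y : ℂ) = inner ℂ x (X y)) {ξ : H} (hξ : ξ ≠ 0) {c : ℝ} (hc : 0 ≤ c)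
    (h : c * ‖ξ‖ ^ 2 ≤ (inner ℂ (X ξ) ξ : ℂ).re) (j : ℕ) : c ^ 2 ^ j * ‖ξ‖ ≤ ‖(X ^ 2 ^ j) ξ‖ := by
  have hp : 0 < ‖ξ‖ := norm_pos_iff.2 hξ
  induction j with
  | zero =>
    have h1 : c * ‖ξ‖ ^ 2 ≤ ‖X ξ‖ * ‖ξ‖ := h.trans ((Complex.re_le_norm _).trans (norm_inner_le_norm _ _))
    rw [pow_zero, pow_one, pow_one]
    nlinarith
  | succ j ih =>
    have e : 2 ^ (j + 1) = 2 ^ j + 2 ^ j := by ring
    have h1 : ‖(X ^ 2 ^ j) ξ‖ ^ 2 ≤ ‖(X ^ 2 ^ (j + 1)) ξ‖ * ‖ξ‖ := by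
      have h2 : (inner ℂ ((X ^ 2 ^ (j + 1)) ξ) ξ : ℂ) = inner ℂ ((X ^ 2 ^ j) ξ) ((X ^ 2 ^ j) ξ) := by
        rw [e, pow_add, ContinuousLinearMap.mul_apply, pow_symm hX]
      have h3 : (‖(X ^ 2 ^ j) ξ‖ : ℝ) ^ 2 = (inner ℂ ((X ^ 2 ^ (j + 1)) ξ) ξ : ℂ).re := by
        rw [h2]
        exact (inner_self_eq_norm_sq (𝕜 := ℂ) _).symm
      rw [h3]
      exact (Complex.re_le_norm _).trans (norm_inner_le_norm _ _)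
    have h4 : (c ^ 2 ^ j * ‖ξ‖) ^ 2 ≤ ‖(X ^ 2 ^ j) ξ‖ ^ 2 := pow_le_pow_left₀ (by positivity) ih 2
    have h5 : c ^ 2 ^ (j + 1) = (c ^ 2 ^ j) ^ 2 := by rw [e, pow_add, sq]
    have h6 : c ^ 2 ^ (j + 1) * ‖ξ‖ * ‖ξ‖ ≤ ‖(X ^ 2 ^ (j + 1)) ξ‖ * ‖ξ‖ := by
      rw [h5]
      calc (c ^ 2 ^ j) ^ 2 * ‖ξ‖ * ‖ξ‖ = (c ^ 2 ^ j * ‖ξ‖) ^ 2 := by ring
        _ ≤ _ := h4.trans h1
    exact le_of_mul_le_mul_right h6 hp

/-- Exponential decay with rate `1/4` contradicts the lower bound with rate `1/2`. -/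
theorem low_contra {X : H →L[ℂ] H} (hX : ∀ x y, (inner ℂ (X x) y : ℂ) = inner ℂ x (X y)) {ξ : H} (hξ : ξ ≠ 0)
    (h : 1 / 2 * ‖ξ‖ ^ 2 ≤ (inner ℂ (X ξ) ξ : ℂ).re) (C : ℝ) (hC : ∀ n : ℕ, ‖(X ^ n) ξ‖ ≤ C * (n + 1) * (1 / 4) ^ n) : False := by
  have hp : 0 < ‖ξ‖ := norm_pos_iff.2 hξ
  have h1 : ∀ j : ℕ, ‖ξ‖ ≤ C * (((2 ^ j : ℕ) : ℝ) + 1) * (1 / 2) ^ (2 ^ j) := by
    intro j
    have h2 := (low hX hξ (by norm_num) h j).trans (hC (2 ^ j))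
    have h3 : ((1 : ℝ) / 4) ^ (2 ^ j) = (1 / 2) ^ (2 ^ j) * (1 / 2) ^ (2 ^ j) := by
      rw [← mul_pow]
      norm_num
    rw [h3] at h2
    have h4 : (0 : ℝ) < (1 / 2) ^ (2 ^ j) := by positivity
    have h5 : (1 / 2 : ℝ) ^ (2 ^ j) * ‖ξ‖ ≤ (1 / 2) ^ (2 ^ j) * (C * (((2 ^ j : ℕ) : ℝ) + 1) * (1 / 2) ^ (2 ^ j)) := by
      rw [mul_comm] at h2 ⊢
      calc ‖ξ‖ * (1 / 2) ^ 2 ^ j = ‖ξ‖ * (1 / 2) ^ 2 ^ j := rfl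
        _ ≤ C * (((2 ^ j : ℕ) : ℝ) + 1) * ((1 / 2) ^ 2 ^ j * (1 / 2) ^ 2 ^ j) := h2
        _ = _ := by ring
    exact le_of_mul_le_mul_left h5 h4
  have h2 : Tendsto (fun n : ℕ => C * ((n : ℝ) + 1) * (1 / 2) ^ n) atTop (𝓝 0) := by
    have h3 : Tendsto (fun n : ℕ => (n : ℝ) * (1 / 2) ^ n) atTop (𝓝 0) :=
      tendsto_self_mul_const_pow_of_lt_one (by norm_num) (by norm_num)
    have h4 : Tendsto (fun n : ℕ => ((1 : ℝ) / 2) ^ n) atTop (𝓝 0) :=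
      tendsto_pow_atTop_nhds_zero_of_lt_one (by norm_num) (by norm_num)
    have h5 := (h3.add h4).const_mul C
    rw [add_zero, mul_zero] at h5
    refine h5.congr fun n => ?_
    ring
  have h6 : Tendsto (fun j : ℕ => C * (((2 ^ j : ℕ) : ℝ) + 1) * (1 / 2) ^ (2 ^ j)) atTop (𝓝 0) :=
    h2.comp (tendsto_pow_atTop_atTop_of_one_lt (by norm_num))
  exact absurd (ge_of_tendsto' h6 h1) (not_le.2 hp)

end Pool.Agent.Helper43.TZ
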