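import Pool.Agent.Helper43.TZ.TG
import Pool.Agent.Helper96.TZ.DimL

/-!
# Project TZ: the main theorem of the abstract part

`L : Lev S1 S2 H μ` with `S2` of dimension `z.d` and a family of `S1` of dimension `> z.d`: not all elements of the shell have ping-pong families of all sizes in their normal closures.
-/

set_option autoImplicit false
set_option linter.unusedSectionVars false

open MeasureTheory Filter Topology
open scoped ENNReal

namespace Pool.Agent.Helper43.TZ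

variable {S1 S2 H : Type} [Group S1] [TopologicalSpace S1] [IsTopologicalGroup S1] [Group S2] [TopologicalSpace S2] [IsTopologicalGroup S2]
  [LocallyCompactSpace S2] [SecondCountableTopology S2] [T2Space S2] [MeasurableSpace S2] [BorelSpace S2]
  {μ : Measure S2} [μ.IsHaarMeasure] [μ.IsMulRightInvariant] [NormedAddCommGroup H] [InnerProductSpace ℂ H] [CompleteSpace H]

theorem cj_mul (u v : H ≃ₗᵢ[ℂ] H) (a : H →L[ℂ] H) : cj (u * v) a = cj u (cj v a) := rfl

theorem cj_inv_cj (u : H ≃ₗᵢ[ℂ] H) (a : H →L[ℂ] H) : cj u⁻¹ (cj u a) = a := by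
  rw [← cj_mul, inv_mul_cancel]
  rfl

theorem cjV_Z (L : Lev S1 S2 H μ) {a : H →L[ℂ] H} (ha : a ∈ L.Z) (s : S1) : cj (L.V s) a ∈ L.Z :=
  ⟨L.RV a ha.1 s, cjV_J' L ha.2 s⟩

/-- The elements of `S1` which act trivially on the centre. -/
def Lev.ker (L : Lev S1 S2 H μ) : Subgroup S1 where
  carrier := {s | ∀ a ∈ L.Z, cj (L.V s) a = a}
  mul_mem' := by
    intro s t hs ht a ha
    rw [map_mul, cj_mul, ht a ha, hs a ha]
  one_mem' := by
    intro a _
    rw [map_one]
    rfl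
  inv_mem' := by
    intro s hs a ha
    rw [map_inv]
    conv_lhs => rw [← hs a ha]
    rw [cj_inv_cj]

instance (L : Lev S1 S2 H μ) : L.ker.Normal := ⟨by
  intro n hn g a ha
  rw [map_mul, map_mul, cj_mul, cj_mul]
  have h1 : cj (L.V g⁻¹) a ∈ L.Z := cjV_Z L ha g⁻¹
  rw [hn _ h1, map_inv]
  have := cj_inv_cj (L.V g)⁻¹ a
  rwa [inv_inv] at this⟩

/-- **The main theorem of the abstract part.** -/
theorem main (L : Lev S1 S2 H μ) (z : Siz S2 μ) (F : Fam S1) (hd : z.d < F.d1) (m : ℕ)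
    (hpp : ∀ t ∈ F.Sg, ∀ N : Subgroup S1, N.Normal → t ∈ N → ∀ k : ℕ, ∃ s : Fin k → S1, (∀ i, s i ∈ N) ∧ Nonempty (PP L m k s)) : False := by
  obtain ⟨t, ht, htr⟩ := Pool.Agent.Helper96.TZ.exists_triv_Z L z F hd
  obtain ⟨k₀, hk₀⟩ := thmT L z m
  obtain ⟨s, hs, ⟨pp⟩⟩ := hpp t ht L.ker inferInstance htr k₀
  exact hk₀ k₀ le_rfl s hs pp

end Pool.Agent.Helper43.TZ
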