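import Pool.Agent.Helper16.TZ.Cj

/-!
# Project TZ, block PHI: the form `φ`

`x, y ∈ J2`: `(ξ, η) ↦ ∫ ⟨W h x W h⁻¹ ξ, W h y W h⁻¹ η⟩ dh` is a bounded sesquilinear form (Cauchy-Schwarz in `L²`), so `= ⟨ξ, T η⟩`; `T` commutes with `R`, `R⋆` and with `W` (left invariance), so it is scalar by `erg`.
-/

set_option autoImplicit false
set_option linter.unusedSectionVars false

open MeasureTheory Filter Topology
open scoped ENNReal

namespace Pool.Agent.Helper43.TZ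

open Pool.Agent.Helper16.TZ (cj_mul cj_sub norm_cj)

variable {S1 S2 H : Type} [Group S1] [TopologicalSpace S1] [Group S2] [TopologicalSpace S2] [IsTopologicalGroup S2]
  [LocallyCompactSpace S2] [SecondCountableTopology S2] [T2Space S2] [MeasurableSpace S2] [BorelSpace S2]
  {μ : Measure S2} [μ.IsHaarMeasure] [NormedAddCommGroup H] [InnerProductSpace ℂ H] [CompleteSpace H]

theorem continuous_cj (L : Lev S1 S2 H μ) (a : H →L[ℂ] H) (x : H) : Continuous fun h => cj (L.W h) a x := by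
  have h1 : ∀ y : S2 → H, Continuous y → Continuous fun h => L.W h (y h) := by
    intro y hy
    refine continuous_iff_continuousAt.2 fun h0 => ?_
    refine tendsto_iff_norm_sub_tendsto_zero.2 ?_
    have e1 : Tendsto (fun h => ‖y h - y h0‖ + ‖L.W h (y h0) - L.W h0 (y h0)‖) (𝓝 h0) (𝓝 (0 + 0)) := by
      refine Tendsto.add ?_ ?_
      · exact tendsto_iff_norm_sub_tendsto_zero.1 (hy.tendsto h0)
      · exact tendsto_iff_norm_sub_tendsto_zero.1 ((L.Wc (y h0)).tendsto h0)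
    rw [add_zero] at e1
    refine squeeze_zero (fun _ => norm_nonneg _) (fun h => ?_) e1
    have e2 : L.W h (y h) - L.W h0 (y h0) = L.W h (y h - y h0) + (L.W h (y h0) - L.W h0 (y h0)) := by
      rw [map_sub]; abel
    rw [e2]
    refine (norm_add_le _ _).trans ?_
    rw [(L.W h).norm_map]
  have h2 : Continuous fun h : S2 => (L.W h).symm x := by
    have : (fun h : S2 => (L.W h).symm x) = fun h => L.W h⁻¹ x := by
      funext h
      rw [map_inv]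
      rfl
    rw [this]
    exact (L.Wc x).comp continuous_inv
  exact h1 _ (a.continuous.comp h2)

/-- Lipschitz elements are norm continuous. -/
theorem Lev.Lip.cont {L : Lev S1 S2 H μ} {z : Siz S2 μ} {a : H →L[ℂ] H} (ha : L.Lip z a) : Continuous fun h => cj (L.W h) a := by
  obtain ⟨C, hC⟩ := ha
  refine continuous_iff_continuousAt.2 fun h0 => ?_
  refine tendsto_iff_norm_sub_tendsto_zero.2 ?_
  have h1 : ∀ h, ‖cj (L.W h) a - cj (L.W h0) a‖ ≤ C * z.ρ (h0⁻¹ * h) := by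
    intro h
    have e1 : cj (L.W h) a - cj (L.W h0) a = cj (L.W h0) (cj (L.W (h0⁻¹ * h)) a - a) := by
      rw [cj_sub, ← cj_mul, ← map_mul, mul_inv_cancel_left]
    rw [e1, norm_cj]
    exact hC _
  have h2 : Tendsto (fun h => C * z.ρ (h0⁻¹ * h)) (𝓝 h0) (𝓝 (C * z.ρ (h0⁻¹ * h0))) := by
    refine Continuous.tendsto ?_ h0
    exact continuous_const.mul (z.cont.comp (continuous_const_mul _))
  rw [inv_mul_cancel, z.one, mul_zero] at h2
  exact squeeze_zero (fun _ => norm_nonneg _) h1 h2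

theorem memLp_cj (L : Lev S1 S2 H μ) {x : H →L[ℂ] H} (hx : L.I2 x) (ξ : H) : MemLp (fun h => cj (L.W h) x ξ) 2 μ := by
  refine ⟨(continuous_cj L x ξ).aestronglyMeasurable, ?_⟩
  obtain ⟨C, hC⟩ := hx
  rw [eLpNorm_lt_top_iff_lintegral_rpow_enorm_lt_top (by norm_num) (by norm_num)]
  have h1 : ∀ h, ‖cj (L.W h) x ξ‖ₑ ^ (2 : ℝ≥0∞).toReal = ‖cj (L.W h) x ξ‖ₑ ^ 2 := by
    intro h
    rw [ENNReal.toReal_ofNat, ENNReal.rpow_ofNat]
  simp only [h1]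
  refine (hC ξ).trans_lt ?_
  exact ENNReal.mul_lt_top ENNReal.ofReal_lt_top (ENNReal.pow_lt_top enorm_lt_top)

theorem integrable_phi (L : Lev S1 S2 H μ) {x y : H →L[ℂ] H} (hx : L.I2 x) (hy : L.I2 y) (ξ η : H) :
    Integrable (fun h => (inner ℂ (cj (L.W h) x ξ) (cj (L.W h) y η) : ℂ)) μ := by
  have h1 := L2.integrable_inner (𝕜 := ℂ) ((memLp_cj L hx ξ).toLp _) ((memLp_cj L hy η).toLp _)
  refine h1.congr ?_
  filter_upwards [(memLp_cj L hx ξ).coeFn_toLp, (memLp_cj L hy η).coeFn_toLp] with h e1 e2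
  rw [e1, e2]

/-- The operator `ξ ↦ (h ↦ α_h(x) ξ)`. -/
theorem exists_A (L : Lev S1 S2 H μ) {x : H →L[ℂ] H} (hx : L.I2 x) : ∃ A : H →L[ℂ] Lp H 2 μ, ∀ ξ, A ξ = (memLp_cj L hx ξ).toLp _ := by
  obtain ⟨C, hC⟩ := id hx
  let A0 : H →ₗ[ℂ] Lp H 2 μ :=
    { toFun := fun ξ => (memLp_cj L hx ξ).toLp _
      map_add' := fun ξ η => by
        rw [← MemLp.toLp_add]
        congr 1
        funext h
        exact map_add _ _ _
      map_smul' := fun c ξ => by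
        rw [RingHom.id_apply, ← MemLp.toLp_const_smul]
        congr 1
        funext h
        exact map_smul _ _ _ }
  refine ⟨A0.mkContinuous (Real.sqrt C) fun ξ => ?_, fun ξ => rfl⟩
  change ‖(memLp_cj L hx ξ).toLp _‖ ≤ _
  rw [Lp.norm_toLp, eLpNorm_eq_lintegral_rpow_enorm_toReal (by norm_num) (by norm_num)]
  have h1 : ∀ h, ‖cj (L.W h) x ξ‖ₑ ^ (2 : ℝ≥0∞).toReal = ‖cj (L.W h) x ξ‖ₑ ^ 2 := by
    intro h
    rw [ENNReal.toReal_ofNat, ENNReal.rpow_ofNat]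
  simp only [h1]
  have hCC : C ≤ Real.sqrt C ^ 2 := by
    rcases le_or_gt 0 C with hC0 | hC0
    · rw [Real.sq_sqrt hC0]
    · exact hC0.le.trans (sq_nonneg _)
  have h4 : ENNReal.ofReal C * ‖ξ‖ₑ ^ 2 ≤ ENNReal.ofReal (Real.sqrt C * ‖ξ‖) ^ (2 : ℝ) := by
    rw [ENNReal.rpow_ofNat, ENNReal.ofReal_mul (Real.sqrt_nonneg _), ofReal_norm, mul_pow]
    gcongr
    rw [← ENNReal.ofReal_pow (Real.sqrt_nonneg _)]
    exact ENNReal.ofReal_le_ofReal hCC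
  have h2 : (∫⁻ h, ‖cj (L.W h) x ξ‖ₑ ^ 2 ∂μ) ^ (1 / (2 : ℝ≥0∞).toReal) ≤ ENNReal.ofReal (Real.sqrt C * ‖ξ‖) := by
    rw [ENNReal.toReal_ofNat]
    calc (∫⁻ h, ‖cj (L.W h) x ξ‖ₑ ^ 2 ∂μ) ^ (1 / 2 : ℝ) ≤ (ENNReal.ofReal (Real.sqrt C * ‖ξ‖) ^ (2 : ℝ)) ^ (1 / 2 : ℝ) :=
          ENNReal.rpow_le_rpow ((hC ξ).trans h4) (by norm_num)
      _ = ENNReal.ofReal (Real.sqrt C * ‖ξ‖) := by
        rw [← ENNReal.rpow_mul]
        norm_num
  exact ENNReal.toReal_le_of_le_ofReal (by positivity) h2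

theorem inner_A (L : Lev S1 S2 H μ) {x y : H →L[ℂ] H} (hx : L.I2 x) (hy : L.I2 y) (ξ η : H) :
    (inner ℂ ((memLp_cj L hx ξ).toLp _) ((memLp_cj L hy η).toLp _) : ℂ) = ∫ h, (inner ℂ (cj (L.W h) x ξ) (cj (L.W h) y η) : ℂ) ∂μ := by
  rw [L2.inner_def]
  refine integral_congr_ae ?_
  filter_upwards [(memLp_cj L hx ξ).coeFn_toLp, (memLp_cj L hy η).coeFn_toLp] with h e1 e2
  rw [e1, e2]

theorem exists_phi (L : Lev S1 S2 H μ) {x y : H →L[ℂ] H} (hxJ : x ∈ L.J) (hyJ : y ∈ L.J) (hx : L.I2 x) (hy : L.I2 y) :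
    ∃ c : ℂ, ∀ ξ η, ∫ h, (inner ℂ (cj (L.W h) x ξ) (cj (L.W h) y η) : ℂ) ∂μ = c * inner ℂ ξ η := by
  obtain ⟨A, hA⟩ := exists_A L hx
  obtain ⟨B, hB⟩ := exists_A L hy
  set T : H →L[ℂ] H := (ContinuousLinearMap.adjoint A).comp B with hT
  have hTi : ∀ ξ η, (inner ℂ ξ (T η) : ℂ) = ∫ h, (inner ℂ (cj (L.W h) x ξ) (cj (L.W h) y η) : ℂ) ∂μ := by
    intro ξ η
    rw [← inner_A L hx hy, ← hA, ← hB]
    exact ContinuousLinearMap.adjoint_inner_right A ξ (B η)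
  have key : ∀ r : H →L[ℂ] H, (∀ h, r * cj (L.W h) y = cj (L.W h) y * r) → (∀ h, star r * cj (L.W h) x = cj (L.W h) x * star r) →
      r * T = T * r := by
    intro r h1 h2
    refine ContinuousLinearMap.ext fun η => ?_
    refine ext_inner_left ℂ fun ξ => ?_
    change (inner ℂ ξ (r (T η)) : ℂ) = inner ℂ ξ (T (r η))
    rw [← ContinuousLinearMap.adjoint_inner_left, hTi, hTi]
    refine integral_congr_ae (Eventually.of_forall fun h => ?_)
    have e1 : cj (L.W h) x (ContinuousLinearMap.adjoint r ξ) = ContinuousLinearMap.adjoint r (cj (L.W h) x ξ) :=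
      (congrArg (fun A : H →L[ℂ] H => A ξ) (h2 h)).symm
    have e2 : cj (L.W h) y (r η) = r (cj (L.W h) y η) := (congrArg (fun A : H →L[ℂ] H => A η) (h1 h)).symm
    change (inner ℂ (cj (L.W h) x (ContinuousLinearMap.adjoint r ξ)) (cj (L.W h) y η) : ℂ) = inner ℂ (cj (L.W h) x ξ) (cj (L.W h) y (r η))
    rw [e1, e2, ContinuousLinearMap.adjoint_inner_left]
  have hTJ : T ∈ L.J := by
    refine (StarSubalgebra.mem_centralizer_iff ℂ).2 fun r hr => ⟨?_, ?_⟩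
    · refine key r (fun h => ?_) fun h => ?_
      · exact ((StarSubalgebra.mem_centralizer_iff ℂ).1 (L.RW y hyJ h) r hr).1
      · exact ((StarSubalgebra.mem_centralizer_iff ℂ).1 (L.RW x hxJ h) r hr).2
    · refine key (star r) (fun h => ?_) fun h => ?_
      · exact ((StarSubalgebra.mem_centralizer_iff ℂ).1 (L.RW y hyJ h) r hr).2
      · rw [star_star]
        exact ((StarSubalgebra.mem_centralizer_iff ℂ).1 (L.RW x hxJ h) r hr).1
  have hTW : ∀ g, cj (L.W g) T = T := by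
    intro g
    refine ContinuousLinearMap.ext fun η => ?_
    refine ext_inner_left ℂ fun ξ => ?_
    have e1 : (inner ℂ ξ (cj (L.W g) T η) : ℂ) = inner ℂ ((L.W g).symm ξ) (T ((L.W g).symm η)) := by
      rw [cj_apply, ← (L.W g).inner_map_map ((L.W g).symm ξ), (L.W g).apply_symm_apply]
    rw [e1, hTi, hTi, ← integral_mul_left_eq_self (fun h => (inner ℂ (cj (L.W h) x ξ) (cj (L.W h) y η) : ℂ)) g]
    refine integral_congr_ae (Eventually.of_forall fun h => ?_)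
    change (inner ℂ (cj (L.W h) x ((L.W g).symm ξ)) (cj (L.W h) y ((L.W g).symm η)) : ℂ) = inner ℂ (cj (L.W (g * h)) x ξ) (cj (L.W (g * h)) y η)
    rw [map_mul, cj_mul, cj_mul, cj_apply (L.W g), cj_apply (L.W g), (L.W g).inner_map_map]
  obtain ⟨c, hc⟩ := L.erg T hTJ hTW
  refine ⟨c, fun ξ η => ?_⟩
  rw [← hTi, hc, inner_smul_right]

/-- `‖x‖²_φ > 0` if `x ≠ 0`. -/
theorem phi_pos (L : Lev S1 S2 H μ) {x : H →L[ℂ] H} (hxJ : x ∈ L.J) (hx : L.I2 x) (hx0 : x ≠ 0) :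
    ∃ c : ℝ, 0 < c ∧ ∀ ξ, ∫ h, ‖cj (L.W h) x ξ‖ ^ 2 ∂μ = c * ‖ξ‖ ^ 2 := by
  obtain ⟨c, hc⟩ := exists_phi L hxJ hxJ hx hx
  have h1 : ∀ ξ, ((∫ h, ‖cj (L.W h) x ξ‖ ^ 2 ∂μ : ℝ) : ℂ) = c * ((‖ξ‖ ^ 2 : ℝ) : ℂ) := by
    intro ξ
    have e1 := hc ξ ξ
    rw [inner_self_eq_norm_sq_to_K] at e1
    have e2 : ((∫ h, ‖cj (L.W h) x ξ‖ ^ 2 ∂μ : ℝ) : ℂ) = ∫ h, ((‖cj (L.W h) x ξ‖ ^ 2 : ℝ) : ℂ) ∂μ :=
      (integral_ofReal (𝕜 := ℂ) (f := fun h => ‖cj (L.W h) x ξ‖ ^ 2)).symm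
    rw [e2]
    push_cast
    refine Eq.trans ?_ e1
    refine integral_congr_ae (Eventually.of_forall fun h => ?_)
    change ((‖cj (L.W h) x ξ‖ : ℂ)) ^ 2 = inner ℂ (cj (L.W h) x ξ) (cj (L.W h) x ξ)
    rw [inner_self_eq_norm_sq_to_K]
    rfl
  obtain ⟨ξ, hξ⟩ : ∃ ξ, x ξ ≠ 0 := by
    by_contra h
    push Not at h
    exact hx0 (ContinuousLinearMap.ext h)
  have hξ0 : ξ ≠ 0 := by
    rintro rfl
    exact hξ (map_zero _)
  have h2 : ∀ η, ∫ h, ‖cj (L.W h) x η‖ ^ 2 ∂μ = c.re * ‖η‖ ^ 2 := by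
    intro η
    have e1 := congrArg Complex.re (h1 η)
    rw [Complex.ofReal_re, Complex.mul_re, Complex.ofReal_re, Complex.ofReal_im, mul_zero, sub_zero] at e1
    exact e1
  refine ⟨c.re, ?_, h2⟩
  have hint : Integrable (fun h => ‖cj (L.W h) x ξ‖ ^ 2) μ := by
    have e1 := (memLp_two_iff_integrable_sq_norm (continuous_cj L x ξ).aestronglyMeasurable).1 (memLp_cj L hx ξ)
    exact e1
  have h3 : 0 < ∫ h, ‖cj (L.W h) x ξ‖ ^ 2 ∂μ := by
    rw [integral_pos_iff_support_of_nonneg (fun _ => by positivity) hint]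
    have ho : IsOpen (Function.support fun h => ‖cj (L.W h) x ξ‖ ^ 2) := by
      have e1 : Continuous fun h => ‖cj (L.W h) x ξ‖ ^ 2 := ((continuous_cj L x ξ).norm).pow 2
      exact e1.isOpen_support
    refine ho.measure_pos μ ⟨1, ?_⟩
    change ‖cj (L.W 1) x ξ‖ ^ 2 ≠ 0
    rw [map_one]
    have : cj (1 : H ≃ₗᵢ[ℂ] H) x ξ = x ξ := rfl
    rw [this]
    exact pow_ne_zero 2 (norm_ne_zero_iff.2 hξ)
  rw [h2] at h3
  by_contra hcon
  push Not at hcon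
  have : 0 ≤ ‖ξ‖ ^ 2 := by positivity
  nlinarith

end Pool.Agent.Helper43.TZ
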