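import Pool.Agent.Helper43.TZ.Src
import Pool.Agent.Helper7.TZ.Pow

/-!
# Project TZ, block FAM: the family

`S` a closed group of matrices, `W` a space of matrices in `lie S`. `s_i = exp w_i` with `w_i` in a grid of a small ball of `W`; `s = s_j⁻¹ s_i` has `‖(s - 1) - (w_i - w_j)‖ ≤ ρ ‖w_i - w_j‖` (strict derivative of `exp` at `0`); for `a` with `a ‖w_i - w_j‖ ∈ [ρ/2, ρ]`: `‖s^a - 1 - a (s - 1)‖ ≤ (a ‖s - 1‖)²`
(`Helper7/TZ/Pow.lean`), so `t = s^a` is in the compact set `shl ρ` of the elements at distance `≤ 6 ρ²` of `1 + Z`, `Z ∈ W`, `‖Z‖ ∈ [ρ/2, ρ]`. `shl ρ ⊆ P` for small `ρ` by compactness.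
-/

set_option autoImplicit false

open MeasureTheory Filter Topology Matrix

namespace Pool.Agent.Helper43.TZ

open Pool.Agent.Helper96.SA Pool.Agent.Helper96.FR Pool.Agent.Helper43.TA

variable {M : ℕ}

open scoped Matrix.Norms.Operator

theorem exp_est {ε : ℝ} (hε : 0 < ε) (hε1 : ε ≤ 1) : ∃ r : ℝ, 0 < r ∧ ∀ X Y : Mat M, ‖X‖ ≤ r → ‖Y‖ ≤ r →
    ‖(NormedSpace.exp (-Y) * NormedSpace.exp X - 1) - (X - Y)‖ ≤ ε * ‖X - Y‖ := by
  have hc : CompleteSpace (Mat M) := inferInstance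
  have h1 : HasStrictFDerivAt (NormedSpace.exp : Mat M → Mat M) (1 : Mat M →L[ℝ] Mat M) 0 := hasStrictFDerivAt_exp_zero
  have h2 := h1.isLittleO
  rw [Asymptotics.isLittleO_iff] at h2
  have h3 := h2 (show (0 : ℝ) < ε / 4 by positivity)
  have h4 : Tendsto (fun Y : Mat M => NormedSpace.exp (-Y)) (𝓝 0) (𝓝 1) := by
    have := ((NormedSpace.exp_continuous (𝔸 := Mat M)).comp continuous_neg).tendsto (0 : Mat M)
    simp only [Function.comp_apply, neg_zero, NormedSpace.exp_zero] at this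
    exact this
  have h5 : ∀ᶠ Y in 𝓝 (0 : Mat M), ‖NormedSpace.exp (-Y) - 1‖ < ε / 4 := by
    have := (h4.sub_const (1 : Mat M)).norm
    rw [sub_self, norm_zero] at this
    exact this.eventually (gt_mem_nhds (by positivity))
  rw [nhds_prod_eq] at h3
  obtain ⟨r1, hr1, hr1'⟩ := Metric.eventually_nhds_iff.1 ((nhds_prod_eq (x := (0 : Mat M)) (y := (0 : Mat M))) ▸ h3)
  obtain ⟨r2, hr2, hr2'⟩ := Metric.eventually_nhds_iff.1 h5
  refine ⟨min r1 r2 / 2, by positivity, fun X Y hX hY => ?_⟩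
  have hm : 0 < min r1 r2 := lt_min hr1 hr2
  have k1 : ‖NormedSpace.exp X - NormedSpace.exp Y - (X - Y)‖ ≤ ε / 4 * ‖X - Y‖ := by
    refine hr1' (y := (X, Y)) ?_
    rw [Prod.dist_eq, max_lt_iff, dist_zero_right, dist_zero_right]
    exact ⟨by linarith [min_le_left r1 r2], by linarith [min_le_left r1 r2]⟩
  have k2 : ‖NormedSpace.exp (-Y) - 1‖ < ε / 4 := by
    refine hr2' ?_
    rw [dist_zero_right]
    linarith [min_le_right r1 r2]
  have e1 : NormedSpace.exp (-Y) * NormedSpace.exp Y = (1 : Mat M) := by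
    rw [← Matrix.exp_add_of_commute _ _ (Commute.neg_left (Commute.refl Y)), neg_add_cancel, NormedSpace.exp_zero]
  have e2 : (NormedSpace.exp (-Y) * NormedSpace.exp X - 1) - (X - Y) =
      (NormedSpace.exp X - NormedSpace.exp Y - (X - Y)) + (NormedSpace.exp (-Y) - 1) * (NormedSpace.exp X - NormedSpace.exp Y - (X - Y)) +
        (NormedSpace.exp (-Y) - 1) * (X - Y) := by
    have : NormedSpace.exp (-Y) * NormedSpace.exp X - 1 = NormedSpace.exp (-Y) * (NormedSpace.exp X - NormedSpace.exp Y) := by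
      rw [mul_sub, e1]
    rw [this]
    noncomm_ring
  rw [e2]
  have hd := norm_nonneg (X - Y)
  refine (norm_add₃_le).trans ?_
  have k3 : ‖(NormedSpace.exp (-Y) - 1) * (NormedSpace.exp X - NormedSpace.exp Y - (X - Y))‖ ≤ ε / 4 * (ε / 4 * ‖X - Y‖) :=
    (norm_mul_le _ _).trans (mul_le_mul k2.le k1 (norm_nonneg _) (by positivity))
  have k4 : ‖(NormedSpace.exp (-Y) - 1) * (X - Y)‖ ≤ ε / 4 * ‖X - Y‖ :=
    (norm_mul_le _ _).trans (mul_le_mul_of_nonneg_right k2.le hd)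
  have k5 : ε / 4 * (ε / 4 * ‖X - Y‖) ≤ ε / 4 * ‖X - Y‖ := by
    have : ε / 4 * ‖X - Y‖ ≤ 1 * ‖X - Y‖ := mul_le_mul_of_nonneg_right (by linarith) hd
    rw [one_mul] at this
    exact mul_le_mul_of_nonneg_left this (by positivity)
  nlinarith

/-- The shell. -/
def shl (S : Subgroup (GL (Fin M) ℝ)) (W : Submodule ℝ (Mat M)) (ρ : ℝ) : Set S :=
  {t | ∃ Z ∈ W, ρ / 2 ≤ ‖Z‖ ∧ ‖Z‖ ≤ ρ ∧ ‖(((t : GL (Fin M) ℝ) : Mat M) - 1) - Z‖ ≤ 6 * ρ ^ 2}

theorem isCompact_shl {S : Subgroup (GL (Fin M) ℝ)} (hS : IsClosed (S : Set (GL (Fin M) ℝ))) (W : Submodule ℝ (Mat M)) {ρ : ℝ} (hρ : 0 < ρ)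
    (hρ1 : ρ ≤ 1 / 12) : IsCompact (shl S W ρ) := by
  have hc : CompleteSpace (Mat M) := inferInstance
  have hprop : ProperSpace (Mat M) := FiniteDimensional.proper ℝ (Mat M)
  -- the compact set of matrices
  let K1 : Set (Mat M) := {Z | Z ∈ W ∧ ρ / 2 ≤ ‖Z‖ ∧ ‖Z‖ ≤ ρ}
  have hK1 : IsCompact K1 := by
    refine (isCompact_closedBall (0 : Mat M) ρ).of_isClosed_subset ?_ ?_
    · exact (W.closed_of_finiteDimensional).inter ((isClosed_le continuous_const continuous_norm).inter (isClosed_le continuous_norm continuous_const))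
    · intro Z hZ
      rw [mem_closedBall_zero_iff]
      exact hZ.2.2
  let K2 : Set (Mat M) := (fun p : Mat M × Mat M => 1 + p.1 + p.2) '' (K1 ×ˢ Metric.closedBall 0 (6 * ρ ^ 2))
  have hK2 : IsCompact K2 := (hK1.prod (isCompact_closedBall _ _)).image (by fun_prop)
  have hK2' : K2 ⊆ Set.range (fun g : GL (Fin M) ℝ => (g : Mat M)) := by
    rintro _ ⟨⟨Z, E⟩, ⟨hZ, hE⟩, rfl⟩
    rw [mem_closedBall_zero_iff] at hE
    have h1 : ‖-(Z + E)‖ < 1 := by
      rw [norm_neg]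
      refine (norm_add_le _ _).trans_lt ?_
      have := hZ.2.2
      nlinarith
    refine ⟨Units.oneSub (-(Z + E)) h1, ?_⟩
    show 1 - -(Z + E) = 1 + Z + E
    rw [sub_neg_eq_add, add_assoc]
  have h3 : IsCompact ((fun g : GL (Fin M) ℝ => (g : Mat M)) ⁻¹' K2) := (isEmbedding_val.isInducing.isCompact_preimage_iff hK2').2 hK2
  have h4 : IsCompact ((Subtype.val : S → GL (Fin M) ℝ) ⁻¹' ((fun g : GL (Fin M) ℝ => (g : Mat M)) ⁻¹' K2)) :=
    hS.isClosedEmbedding_subtypeVal.isCompact_preimage h3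
  have h5 : shl S W ρ = (Subtype.val : S → GL (Fin M) ℝ) ⁻¹' ((fun g : GL (Fin M) ℝ => (g : Mat M)) ⁻¹' K2) := by
    ext t
    constructor
    · rintro ⟨Z, hZ, h1, h2, h6⟩
      refine ⟨(Z, (((t : GL (Fin M) ℝ) : Mat M) - 1) - Z), ⟨⟨hZ, h1, h2⟩, ?_⟩, ?_⟩
      · rw [mem_closedBall_zero_iff]
        exact h6
      · show 1 + Z + ((((t : GL (Fin M) ℝ) : Mat M) - 1) - Z) = ((t : GL (Fin M) ℝ) : Mat M)
        abel
    · rintro ⟨⟨Z, E⟩, ⟨hZ, hE⟩, h1⟩
      rw [mem_closedBall_zero_iff] at hE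
      refine ⟨Z, hZ.1, hZ.2.1, hZ.2.2, ?_⟩
      have h6 : ((t : GL (Fin M) ℝ) : Mat M) = 1 + Z + E := h1.symm
      have h7 : (((t : GL (Fin M) ℝ) : Mat M) - 1) - Z = E := by
        rw [h6]
        abel
      rw [h7]
      exact hE
  rw [h5]
  exact h4

theorem fam_of {S : Subgroup (GL (Fin M) ℝ)} (hS : IsClosed (S : Set (GL (Fin M) ℝ))) (W : Submodule ℝ (Mat M))
    (hW : ∀ X ∈ W, X ∈ lie S) (hM : 0 < M) {ρ : ℝ} (hρ : 0 < ρ) (hρ1 : ρ ≤ 1 / 12) :
    ∃ F : Fam S, F.d1 = Module.finrank ℝ W ∧ F.Sg = shl S W ρ := by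
  classical
  have hne : Nonempty (Fin M) := ⟨⟨0, hM⟩⟩
  have hc : CompleteSpace (Mat M) := inferInstance
  obtain ⟨r, hr, hexp⟩ := exp_est (M := M) hρ (by linarith)
  set r0 : ℝ := min r (ρ / 4) with hr0
  have hr0p : 0 < r0 := lt_min hr (by positivity)
  have hr0r : r0 ≤ r := min_le_left _ _
  have hr0ρ : r0 ≤ ρ / 4 := min_le_right _ _
  set d := Module.finrank ℝ W with hd
  let e := Module.finBasis ℝ W
  let E : W → S := fun w => ⟨ex (w : Mat M), by
    have := mem_lie.1 (hW _ w.2) 1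
    rwa [one_smul] at this⟩
  have hE : Continuous E := (continuous_ex.comp continuous_subtype_val).subtype_mk _
  have hprop : ProperSpace W := FiniteDimensional.proper ℝ W
  set K : ℝ := ∑ l, ‖e l‖ + 1 with hK
  have hKp : 0 < K := by positivity
  set r' : ℝ := r0 / K with hr'
  have hr'p : 0 < r' := by positivity
  let T : W →ₗ[ℝ] (Fin d → ℝ) := (e.equivFun : W →ₗ[ℝ] (Fin d → ℝ))
  obtain ⟨C0, hC0p, hTb⟩ : ∃ C0 : ℝ, 0 < C0 ∧ ∀ w : W, ‖T w‖ ≤ C0 * ‖w‖ := (LinearMap.toContinuousLinearMap T).bound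
  have hcoord : ∀ (w : W) (l : Fin d), |e.repr w l| ≤ C0 * ‖w‖ := by
    intro w l
    have h1 : ‖(T w) l‖ ≤ ‖T w‖ := norm_le_pi_norm _ l
    have h3 : (T w) l = e.repr w l := rfl
    rw [h3, Real.norm_eq_abs] at h1
    exact h1.trans (hTb w)
  refine ⟨{
    B1 := E '' Metric.closedBall 0 r0
    hB1 := (isCompact_closedBall _ _).image hE
    Sg := shl S W ρ
    hSg := isCompact_shl hS W hρ hρ1
    d1 := d
    c := r' ^ d
    C := ρ * C0
    c_pos := by positivity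
    fam := ?_ }, rfl, rfl⟩
  intro η hη _
  set q : ℕ := ⌊r' / η⌋₊ with hq
  have hq1 : (q : ℝ) * η ≤ r' := by
    have := Nat.floor_le (show 0 ≤ r' / η by positivity)
    rw [← hq] at this
    calc (q : ℝ) * η ≤ r' / η * η := mul_le_mul_of_nonneg_right this hη.le
      _ = r' := div_mul_cancel₀ _ hη.ne'
  have hq2 : r' ≤ ((q : ℝ) + 1) * η := by
    have := Nat.lt_floor_add_one (r' / η)
    rw [← hq] at this
    calc r' = r' / η * η := (div_mul_cancel₀ _ hη.ne').symm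
      _ ≤ ((q : ℝ) + 1) * η := mul_le_mul_of_nonneg_right this.le hη.le
  let w : (Fin d → Fin (q + 1)) → W := fun a => ∑ l, (((a l : ℕ) : ℝ) * η) • e l
  have hwn : ∀ a, ‖w a‖ ≤ r0 := by
    intro a
    calc ‖w a‖ ≤ ∑ l, ‖(((a l : ℕ) : ℝ) * η) • e l‖ := norm_sum_le _ _
      _ ≤ ∑ l, r' * ‖e l‖ := by
        refine Finset.sum_le_sum fun l _ => ?_
        rw [norm_smul, Real.norm_eq_abs, abs_of_nonneg (by positivity)]
        refine mul_le_mul_of_nonneg_right ?_ (norm_nonneg _)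
        have h1 : ((a l : ℕ) : ℝ) ≤ q := by
          have := (a l).2
          exact_mod_cast (by omega : (a l : ℕ) ≤ q)
        exact (mul_le_mul_of_nonneg_right h1 hη.le).trans hq1
      _ = r' * ∑ l, ‖e l‖ := by rw [Finset.mul_sum]
      _ ≤ r' * K := mul_le_mul_of_nonneg_left (by rw [hK]; linarith) hr'p.le
      _ = r0 := div_mul_cancel₀ _ hKp.ne'
  have hrepr : ∀ a l, e.repr (w a) l = ((a l : ℕ) : ℝ) * η := by
    intro a l
    show e.repr (∑ l, (((a l : ℕ) : ℝ) * η) • e l) l = _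
    rw [map_sum, Finsupp.finsetSum_apply, Finset.sum_eq_single l]
    · rw [map_smul, Finsupp.smul_apply, e.repr_self, Finsupp.single_eq_same, smul_eq_mul, mul_one]
    · intro l' _ hl'
      rw [map_smul, Finsupp.smul_apply, e.repr_self, Finsupp.single_eq_of_ne (Ne.symm hl'), smul_zero]
    · intro h
      exact absurd (Finset.mem_univ l) h
  have hsep : ∀ a b, a ≠ b → η ≤ C0 * ‖w a - w b‖ := by
    intro a b hab
    obtain ⟨l, hl⟩ := Function.ne_iff.1 hab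
    refine le_trans ?_ (hcoord (w a - w b) l)
    rw [map_sub, Finsupp.sub_apply, hrepr, hrepr, ← sub_mul, abs_mul, abs_of_pos hη]
    have h1 : (1 : ℝ) ≤ |((a l : ℕ) : ℝ) - ((b l : ℕ) : ℝ)| := by
      have h2 : ((a l : ℕ) : ℤ) - ((b l : ℕ) : ℤ) ≠ 0 := by
        intro h
        apply hl
        exact Fin.ext (by omega)
      have h3 := Int.one_le_abs h2
      exact_mod_cast h3
    nlinarith
  let φ : Fin (Fintype.card (Fin d → Fin (q + 1))) ≃ (Fin d → Fin (q + 1)) := (Fintype.equivFin _).symm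
  refine ⟨Fintype.card (Fin d → Fin (q + 1)), fun i => E (w (φ i)), ?_, ?_, ?_⟩
  · have h1 : (Fintype.card (Fin d → Fin (q + 1)) : ℝ) = ((q : ℝ) + 1) ^ d := by
      rw [Fintype.card_fun, Fintype.card_fin, Fintype.card_fin]
      push_cast
      rfl
    rw [h1, ← mul_pow]
    exact pow_le_pow_left₀ hr'p.le hq2 d
  · intro i
    refine ⟨w (φ i), ?_, rfl⟩
    rw [mem_closedBall_zero_iff]
    exact hwn _
  · intro i j hij
    have hφ : φ i ≠ φ j := fun h => hij (φ.injective h)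
    set X : Mat M := (w (φ i) : Mat M) with hX
    set Y : Mat M := (w (φ j) : Mat M) with hY
    have hXn : ‖X‖ ≤ r0 := hwn _
    have hYn : ‖Y‖ ≤ r0 := hwn _
    set D : ℝ := ‖X - Y‖ with hD
    have hDη : η ≤ C0 * D := hsep _ _ hφ
    have hDp : 0 < D := by
      by_contra h
      push Not at h
      have : C0 * D ≤ 0 := mul_nonpos_of_nonneg_of_nonpos hC0p.le h
      linarith
    have hD2 : D ≤ ρ / 2 := by
      calc D ≤ ‖X‖ + ‖Y‖ := norm_sub_le _ _
        _ ≤ ρ / 2 := by linarith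
    set a : ℕ := ⌊ρ / D⌋₊ with ha
    have ha1 : (a : ℝ) * D ≤ ρ := by
      have := Nat.floor_le (show 0 ≤ ρ / D by positivity)
      rw [← ha] at this
      calc (a : ℝ) * D ≤ ρ / D * D := mul_le_mul_of_nonneg_right this hDp.le
        _ = ρ := div_mul_cancel₀ _ hDp.ne'
    have ha2 : ρ / 2 ≤ (a : ℝ) * D := by
      have := Nat.lt_floor_add_one (ρ / D)
      rw [← ha] at this
      have h1 : ρ < ((a : ℝ) + 1) * D := by
        calc ρ = ρ / D * D := (div_mul_cancel₀ _ hDp.ne').symm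
          _ < _ := mul_lt_mul_of_pos_right this hDp
      nlinarith
    refine ⟨a, ?_, (a : ℝ) • (X - Y), W.smul_mem _ (W.sub_mem (w (φ i)).2 (w (φ j)).2), ?_, ?_, ?_⟩
    · calc (a : ℝ) * η ≤ a * (C0 * D) := mul_le_mul_of_nonneg_left hDη (Nat.cast_nonneg a)
        _ = (a * D) * C0 := by ring
        _ ≤ ρ * C0 := mul_le_mul_of_nonneg_right ha1 hC0p.le
    · rw [norm_smul, Real.norm_eq_abs, abs_of_nonneg (Nat.cast_nonneg a)]
      exact ha2
    · rw [norm_smul, Real.norm_eq_abs, abs_of_nonneg (Nat.cast_nonneg a)]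
      exact ha1
    · set x : Mat M := NormedSpace.exp (-Y) * NormedSpace.exp X - 1 with hx
      have hxd : ‖x - (X - Y)‖ ≤ ρ * D := hexp X Y (hXn.trans hr0r) (hYn.trans hr0r)
      have hxn : ‖x‖ ≤ (1 + ρ) * D := by
        have : x = (x - (X - Y)) + (X - Y) := by abel
        rw [this]
        refine (norm_add_le _ _).trans ?_
        rw [← hD]
        linarith
      have hax : (a : ℝ) * ‖x‖ ≤ (1 + ρ) * ρ := by
        calc (a : ℝ) * ‖x‖ ≤ a * ((1 + ρ) * D) := mul_le_mul_of_nonneg_left hxn (Nat.cast_nonneg a)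
          _ = (1 + ρ) * (a * D) := by ring
          _ ≤ (1 + ρ) * ρ := mul_le_mul_of_nonneg_left ha1 (by positivity)
      have hax0 : 0 ≤ (a : ℝ) * ‖x‖ := by positivity
      have hpow := Pool.Agent.Helper7.TZ.pow_est x a (hax.trans (by nlinarith))
      have ecoe : (((((E (w (φ j)))⁻¹ * E (w (φ i))) ^ a : S) : GL (Fin M) ℝ) : Mat M) = (1 + x) ^ a := by
        rw [Subgroup.coe_pow, Subgroup.coe_mul, Subgroup.coe_inv, Units.val_pow_eq_pow_val, Units.val_mul]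
        have h1 : (((ex Y)⁻¹ : GL (Fin M) ℝ) : Mat M) = NormedSpace.exp (-Y) := by rw [← ex_neg, ex_coe]
        have h2 : 1 + x = NormedSpace.exp (-Y) * NormedSpace.exp X := by rw [hx]; abel
        rw [h2]
        congr 2
      rw [ecoe]
      have e3 : (1 + x) ^ a - 1 - (a : ℝ) • (X - Y) = ((1 + x) ^ a - 1 - (a : Mat M) * x) + (a : ℝ) • (x - (X - Y)) := by
        have : (a : Mat M) * x = (a : ℝ) • x := by
          rw [← nsmul_eq_mul, Nat.cast_smul_eq_nsmul]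
        rw [this, smul_sub (a : ℝ) x]
        abel
      rw [e3]
      refine (norm_add_le _ _).trans ?_
      have h4 : ‖(a : ℝ) • (x - (X - Y))‖ ≤ ρ * ρ := by
        rw [norm_smul, Real.norm_eq_abs, abs_of_nonneg (Nat.cast_nonneg a)]
        calc (a : ℝ) * ‖x - (X - Y)‖ ≤ a * (ρ * D) := mul_le_mul_of_nonneg_left hxd (Nat.cast_nonneg a)
          _ = ρ * (a * D) := by ring
          _ ≤ ρ * ρ := mul_le_mul_of_nonneg_left ha1 hρ.le
      have h5 : ((a : ℝ) * ‖x‖) ^ 2 ≤ ((1 + ρ) * ρ) ^ 2 := pow_le_pow_left₀ hax0 hax 2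
      have h6 : ((1 + ρ) * ρ) ^ 2 ≤ 2 * ρ ^ 2 := by
        rw [mul_pow]
        refine mul_le_mul_of_nonneg_right ?_ (sq_nonneg _)
        nlinarith
      nlinarith

theorem exists_fam (S : Subgroup (GL (Fin M) ℝ)) (hS : IsClosed (S : Set (GL (Fin M) ℝ))) (W : Submodule ℝ (Mat M))
    (hW : ∀ X ∈ W, X ∈ lie S) (hW0 : W ≠ ⊥) (P : Set S)
    (hP : ∀ (t : ℕ → S) (τ : ℕ → ℝ) (X : Mat M), X ∈ W → X ≠ 0 → (∀ n, 0 < τ n) → Tendsto τ atTop (𝓝 0) →
      Tendsto (fun n => (τ n)⁻¹ • (((t n : GL (Fin M) ℝ) : Mat M) - 1)) atTop (𝓝 X) → ∃ n, t n ∈ P) :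
    ∃ F : Fam S, F.d1 = Module.finrank ℝ W ∧ F.Sg ⊆ P := by
  have hM : 0 < M := by
    rcases Nat.eq_zero_or_pos M with h | h
    · exfalso
      subst h
      apply hW0
      rw [eq_bot_iff]
      intro X _
      rw [Submodule.mem_bot]
      exact Subsingleton.elim _ _
    · exact h
  have hprop : ProperSpace (Mat M) := FiniteDimensional.proper ℝ (Mat M)
  suffices h : ∃ ρ : ℝ, 0 < ρ ∧ ρ ≤ 1 / 12 ∧ shl S W ρ ⊆ P by
    obtain ⟨ρ, h1, h2, h3⟩ := h
    obtain ⟨F, hF1, hF2⟩ := fam_of hS W hW hM h1 h2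
    exact ⟨F, hF1, by rw [hF2]; exact h3⟩
  by_contra hcon
  push Not at hcon
  let ρ : ℕ → ℝ := fun n => 1 / 12 / (n + 1)
  have hρp : ∀ n, 0 < ρ n := fun n => by positivity
  have hρ1 : ∀ n, ρ n ≤ 1 / 12 := fun n => by
    refine div_le_self (by norm_num) ?_
    have : (0 : ℝ) ≤ n := Nat.cast_nonneg n
    linarith
  have hρ0 : Tendsto ρ atTop (𝓝 0) := tendsto_const_div_atTop_nhds_zero_nat (1 / 12) |>.comp (tendsto_add_atTop_nat 1) |>.congr fun n => by
    simp [ρ]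
  have h1 : ∀ n, ∃ t : S, t ∈ shl S W (ρ n) ∧ t ∉ P := by
    intro n
    have := hcon (ρ n) (hρp n) (hρ1 n)
    exact Set.not_subset.1 this
  choose t ht htP using h1
  choose Z hZ hZ1 hZ2 hZ3 using ht
  obtain ⟨X, -, φ, hφ, hlim⟩ := (isCompact_closedBall (0 : Mat M) 1).tendsto_subseq (x := fun n => (ρ n)⁻¹ • Z n) fun n => by
    rw [mem_closedBall_zero_iff, norm_smul, norm_inv, Real.norm_eq_abs, abs_of_pos (hρp n)]
    rw [inv_mul_le_iff₀ (hρp n), mul_one]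
    exact hZ2 n
  have hXW : X ∈ W := by
    refine (W.closed_of_finiteDimensional).mem_of_tendsto hlim (Eventually.of_forall fun n => ?_)
    exact W.smul_mem _ (hZ _)
  have hX0 : X ≠ 0 := by
    intro h0
    have h2 := hlim.norm
    rw [h0, norm_zero] at h2
    have h3 : (1 : ℝ) / 2 ≤ 0 := ge_of_tendsto' h2 fun n => by
      show 1 / 2 ≤ ‖(ρ (φ n))⁻¹ • Z (φ n)‖
      rw [norm_smul, norm_inv, Real.norm_eq_abs, abs_of_pos (hρp _), inv_mul_eq_div, le_div_iff₀ (hρp _)]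
      linarith [hZ1 (φ n)]
    norm_num at h3
  obtain ⟨n, hn⟩ := hP (fun n => t (φ n)) (fun n => ρ (φ n)) X hXW hX0 (fun n => hρp _) (hρ0.comp hφ.tendsto_atTop) (by
    have h2 : Tendsto (fun n => (ρ (φ n))⁻¹ • (((((t (φ n) : S) : GL (Fin M) ℝ) : Mat M) - 1) - Z (φ n))) atTop (𝓝 0) := by
      refine squeeze_zero_norm (a := fun n => 6 * ρ (φ n)) (fun n => ?_) ?_
      · rw [norm_smul, norm_inv, Real.norm_eq_abs, abs_of_pos (hρp _), inv_mul_le_iff₀ (hρp _)]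
        calc _ ≤ 6 * ρ (φ n) ^ 2 := hZ3 (φ n)
          _ = _ := by ring
      · have := (hρ0.comp hφ.tendsto_atTop).const_mul 6
        rw [mul_zero] at this
        exact this
    have h3 := h2.add hlim
    rw [zero_add] at h3
    refine h3.congr fun n => ?_
    show (ρ (φ n))⁻¹ • (((((t (φ n) : S) : GL (Fin M) ℝ) : Mat M) - 1) - Z (φ n)) + (ρ (φ n))⁻¹ • Z (φ n) = _
    rw [← smul_add, sub_add_cancel])
  exact htP _ hn

end Pool.Agent.Helper43.TZ
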