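import Mathlib

/-!
# Project TZ, block PPG: ping-pong in the normal closure

`V = ⊕ V_l` a finite-dimensional real space, `S` a group acting on `V`, `u i j τ` acts as `1 + τ Y_ij`, `Y_ij : V_i → V_j` injective. `t ∈ S` such that the component `V_j → V_i` of `t⁻¹` is injective and `t V_j ∩ V_i = 0`.
(1) `g = t u(τ) t⁻¹ u(τ)⁻¹`, `u = u i j`: `g x = -τ² t Y t⁻¹ Y x + O(τ)|x|`, `t Y t⁻¹ Y x = t Y (E_i t⁻¹ Y x_i) ∈ t V_j`, of norm `≥ c |x_i|`. So for large `τ` it maps `{|x_i| ≥ δ |x|}` into the cone of radius `δ` around `t V_j`.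
(2) General position: `p(τ) = ∏ u_{c_l c_(l+1)}(τ)`, `c` an order of the indices with last index `i`. For `v ≠ 0` there are `d` and `0 ≠ z ∈ V_i` with `τ^(-d) p(τ) v → z` (`τ → ∞`), so `p(τ) v` is not in `ker E_i` and not in `t V_j` for large `τ`. Choose `τ_1, τ_2, ...` one after the other such that
`p(τ_l)⁻¹ ker E_i` and `p(τ_l)⁻¹ t V_j` do not contain any of the nonzero intersections of the previous ones: more than `dim V` of the subspaces `p(τ_l)⁻¹ ker E_i` have intersection `0`, the same for the `p(τ_l)⁻¹ t V_j`.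
(3) `g_l = h_l g h_l⁻¹`, `h_l = p(τ_l)⁻¹`, `D_l = {x : |E_i h_l⁻¹ x| ≤ δ |h_l⁻¹ x|}` with `δ` small: at most `dim V` of them contain a given `x ≠ 0`, and `g_l (V - D_l)` is in a small cone around `h_l t V_j`.
-/

set_option autoImplicit false

open Filter Topology

namespace Pool.Agent.Helper43.TZ

/-- Blocks and transvections. -/
structure Blk (S V : Type) [Group S] [NormedAddCommGroup V] [NormedSpace ℝ V] (m : ℕ) where
  /-- the action -/
  φ : S →* (V →L[ℝ] V)
  /-- the projections -/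
  E : Fin m → (V →L[ℝ] V)
  EE : ∀ i j, E i * E j = if i = j then E i else 0
  sumE : ∑ i, E i = 1
  /-- transvections -/
  Y : Fin m → Fin m → (V →L[ℝ] V)
  /-- transvections in `S` -/
  u : Fin m → Fin m → ℝ → S
  hu : ∀ i j, i ≠ j → ∀ τ : ℝ, φ (u i j τ) = 1 + τ • Y i j
  YE : ∀ i j, i ≠ j → Y i j = E j * Y i j * E i
  Yinj : ∀ i j, i ≠ j → ∀ v, Y i j (E i v) = 0 → E i v = 0

variable {S V : Type} [Group S] [NormedAddCommGroup V] [NormedSpace ℝ V] {m : ℕ}

/-- general position for families of subspaces -/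
theorem genpos [FiniteDimensional ℝ V] {ι : Type} [Finite ι] (X : ι → ℝ → Submodule ℝ V)
    (hX : ∀ i v, v ≠ 0 → ∀ᶠ τ in atTop, v ∉ X i τ) (k : ℕ) :
    ∃ τ : ℕ → ℝ, ∀ i, ∀ s ⊆ Finset.range k, Module.finrank ℝ V < s.card → (⨅ l ∈ s, X i (τ l)) = ⊥ := by
  classical
  have key : ∃ τ : ℕ → ℝ, ∀ i, ∀ s ⊆ Finset.range k,
      (⨅ l ∈ s, X i (τ l)) = ⊥ ∨ Module.finrank ℝ (⨅ l ∈ s, X i (τ l) : Submodule ℝ V) + s.card ≤ Module.finrank ℝ V := by
    induction k with
    | zero =>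
      refine ⟨fun _ => 0, fun i s hs => Or.inr ?_⟩
      have h0 : s = ∅ := by
        rw [Finset.range_zero] at hs
        exact Finset.subset_empty.1 hs
      subst h0
      rw [Finset.card_empty, add_zero]
      exact Submodule.finrank_le _
    | succ k ih =>
      obtain ⟨τ, hτ⟩ := ih
      have h1 : ∀ i, ∀ s ∈ (Finset.range k).powerset, ∃ v : V, v ∈ (⨅ l ∈ s, X i (τ l)) ∧
          ((⨅ l ∈ s, X i (τ l)) ≠ ⊥ → v ≠ 0) := by
        intro i s _
        by_cases h : (⨅ l ∈ s, X i (τ l)) = ⊥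
        · exact ⟨0, Submodule.zero_mem _, fun h' => absurd h h'⟩
        · obtain ⟨v, hv, hv0⟩ := Submodule.exists_mem_ne_zero_of_ne_bot h
          exact ⟨v, hv, fun _ => hv0⟩
      choose! v hv hv0 using h1
      have h2 : ∀ᶠ t in atTop, ∀ i, ∀ s ∈ (Finset.range k).powerset, v i s ≠ 0 → v i s ∉ X i t := by
        rw [eventually_all]
        intro i
        rw [eventually_all_finset]
        intro s _
        by_cases h : v i s = 0
        · exact Eventually.of_forall fun t h' => absurd h h'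
        · exact (hX i _ h).mono fun t ht _ => ht
      obtain ⟨t, ht⟩ := h2.exists
      refine ⟨Function.update τ k t, fun i s hs => ?_⟩
      have h3 : ∀ s' ⊆ Finset.range k, (⨅ l ∈ s', X i (Function.update τ k t l)) = ⨅ l ∈ s', X i (τ l) := by
        intro s' hs'
        refine iInf_congr fun l => iInf_congr fun hl => ?_
        have : l ≠ k := by
          have := Finset.mem_range.1 (hs' hl)
          omega
        rw [Function.update_of_ne this]
      by_cases hk : k ∈ s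
      · obtain ⟨s', hs', rfl⟩ : ∃ s', k ∉ s' ∧ insert k s' = s := ⟨s.erase k, Finset.notMem_erase k s, Finset.insert_erase hk⟩
        have hs'' : s' ⊆ Finset.range k := by
          intro l hl
          have h4 := Finset.mem_range.1 (hs (Finset.mem_insert_of_mem hl))
          have h5 : l ≠ k := by
            rintro rfl
            exact hs' hl
          exact Finset.mem_range.2 (by omega)
        rw [Finset.iInf_insert, h3 s' hs'', Function.update_self, Finset.card_insert_of_notMem hs']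
        rcases hτ i s' hs'' with h4 | h4
        · left
          rw [h4, inf_bot_eq]
        · by_cases h5 : (⨅ l ∈ s', X i (τ l)) = ⊥
          · left
            rw [h5, inf_bot_eq]
          right
          have hm := Finset.mem_powerset.2 hs''
          have h6 : (X i t ⊓ ⨅ l ∈ s', X i (τ l)) < ⨅ l ∈ s', X i (τ l) := by
            refine lt_of_le_of_ne inf_le_right fun h7 => ?_
            have h8 := hv i s' hm
            rw [← h7] at h8
            exact ht i s' hm (hv0 i s' hm h5) h8.1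
          have h7 := Submodule.finrank_lt_finrank_of_lt h6
          omega
      · have hs' : s ⊆ Finset.range k := by
          intro l hl
          have h4 := Finset.mem_range.1 (hs hl)
          have h5 : l ≠ k := by
            rintro rfl
            exact hk hl
          exact Finset.mem_range.2 (by omega)
        rw [h3 s hs']
        exact hτ i s hs'
  obtain ⟨τ, hτ⟩ := key
  refine ⟨τ, fun i s hs hc => ?_⟩
  rcases hτ i s hs with h | h
  · exact h
  · omega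

/-- thickening -/
theorem thick [FiniteDimensional ℝ V] {k n : ℕ} (P : Fin k → (V →L[ℝ] V))
    (hP : ∀ s : Finset (Fin k), n < s.card → ∀ x, (∀ l ∈ s, P l x = 0) → x = 0) :
    ∃ ε : ℝ, 0 < ε ∧ ∀ x, x ≠ 0 → ∀ s : Finset (Fin k), (∀ l ∈ s, ‖P l x‖ ≤ ε * ‖x‖) → s.card ≤ n := by
  classical
  have key : ∀ s : Finset (Fin k), ∀ᶠ ε in 𝓝[>] (0 : ℝ), ∀ x, x ≠ 0 → (∀ l ∈ s, ‖P l x‖ ≤ ε * ‖x‖) → s.card ≤ n := by
    intro s
    by_cases hs : s.card ≤ n
    · exact Eventually.of_forall fun _ _ _ _ => hs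
    let f : V →ₗ[ℝ] (s → V) := LinearMap.pi fun l => ((P l : V →L[ℝ] V) : V →ₗ[ℝ] V)
    have hf : LinearMap.ker f = ⊥ := by
      rw [LinearMap.ker_eq_bot']
      intro x hx
      exact hP s (not_le.1 hs) x fun l hl => congrFun hx ⟨l, hl⟩
    obtain ⟨C, hC, hCf⟩ := f.exists_antilipschitzWith hf
    have hC' : (0 : ℝ) < C := NNReal.coe_pos.2 hC
    have h1 : ∀ᶠ ε in 𝓝[>] (0 : ℝ), ε < 1 / (C : ℝ) := by
      have : Set.Ioo (0 : ℝ) (1 / (C : ℝ)) ∈ 𝓝[>] (0 : ℝ) := Ioo_mem_nhdsGT (by positivity)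
      filter_upwards [this] with ε hε
      exact hε.2
    filter_upwards [h1, self_mem_nhdsWithin] with ε h2 h3 x hx h4
    exfalso
    have h5 : ‖f x‖ ≤ ε * ‖x‖ :=
      (pi_norm_le_iff_of_nonneg (mul_nonneg (le_of_lt h3) (norm_nonneg x))).2 fun l => h4 l.1 l.2
    have h6 : ‖x‖ ≤ C * ‖f x‖ := by
      have := hCf.le_mul_dist x 0
      rwa [map_zero, dist_zero_right, dist_zero_right] at this
    have hx' : 0 < ‖x‖ := norm_pos_iff.2 hx
    have h7 : (C : ℝ) * ε < 1 := by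
      rw [lt_div_iff₀ hC'] at h2
      linarith
    nlinarith
  have h := (eventually_all.2 key).and (self_mem_nhdsWithin (s := Set.Ioi (0 : ℝ)))
  obtain ⟨ε, h1, h2⟩ := h.exists
  exact ⟨ε, h2, fun x hx s => h1 s x hx⟩

section chain

variable (B : Blk S V m) (i : Fin m)

theorem Blk.E_E (a : Fin m) (v : V) : B.E a (B.E a v) = B.E a v := by
  have h := B.EE a a
  rw [if_pos rfl] at h
  exact congrArg (fun T : V →L[ℝ] V => T v) h

theorem Blk.E_E_ne {a b : Fin m} (h : a ≠ b) (v : V) : B.E a (B.E b v) = 0 := by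
  have h1 := B.EE a b
  rw [if_neg h] at h1
  exact congrArg (fun T : V →L[ℝ] V => T v) h1

theorem Blk.Y_E {a b : Fin m} (h : a ≠ b) (v : V) : B.Y a b v = B.Y a b (B.E a v) := by
  have h1 := congrArg (fun T : V →L[ℝ] V => T v) (B.YE a b h)
  have h2 := congrArg (fun T : V →L[ℝ] V => T (B.E a v)) (B.YE a b h)
  have h1' : B.Y a b v = B.E b (B.Y a b (B.E a v)) := h1
  have h2' : B.Y a b (B.E a v) = B.E b (B.Y a b (B.E a (B.E a v))) := h2
  rw [h1', h2', B.E_E]

theorem Blk.E_Y {a b : Fin m} (h : a ≠ b) (v : V) : B.E b (B.Y a b v) = B.Y a b v := by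
  have h1 : B.Y a b v = B.E b (B.Y a b (B.E a v)) := congrArg (fun T : V →L[ℝ] V => T v) (B.YE a b h)
  rw [h1, B.E_E]

theorem Blk.sum_E (v : V) : ∑ a, B.E a v = v := by
  have h := congrArg (fun T : V →L[ℝ] V => T v) B.sumE
  simpa using h

theorem Blk.hu' {a b : Fin m} (h : a ≠ b) (τ : ℝ) (v : V) : B.φ (B.u a b τ) v = v + τ • B.Y a b v := by
  rw [B.hu a b h]
  rfl

/-- the product of the transvections along a list -/
def Blk.p (B : Blk S V m) (i : Fin m) (τ : ℝ) : List (Fin m) → S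
  | [] => 1
  | c :: L => B.p i τ L * B.u c (L.headD i) τ

theorem Blk.p_nil (τ : ℝ) : B.p i τ [] = 1 := rfl

theorem Blk.p_cons (τ : ℝ) (c : Fin m) (L : List (Fin m)) : B.p i τ (c :: L) = B.p i τ L * B.u c (L.headD i) τ := rfl

theorem Blk.φ_cons {c : Fin m} {L : List (Fin m)} (h : c ≠ L.headD i) (τ : ℝ) (v : V) :
    B.φ (B.p i τ (c :: L)) v = B.φ (B.p i τ L) v + τ • B.φ (B.p i τ L) (B.Y c (L.headD i) v) := by
  rw [B.p_cons, map_mul]
  show B.φ (B.p i τ L) (B.φ (B.u c (L.headD i) τ) v) = _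
  rw [B.hu' h, map_add, map_smul]

theorem headD_ne {c : Fin m} {L : List (Fin m)} (hc : c ∉ L) (hi : c ≠ i) : c ≠ L.headD i := by
  cases L with
  | nil => exact hi
  | cons a L =>
    rintro rfl
    exact hc List.mem_cons_self

theorem Blk.growth (L : List (Fin m)) : L.Nodup → i ∉ L → ∀ w : V,
    Tendsto (fun τ : ℝ => (τ ^ (L.length + 1))⁻¹ • B.φ (B.p i τ L) w) atTop (𝓝 0) := by
  induction L with
  | nil =>
    intro _ _ w
    simp only [B.p_nil, map_one, one_apply_eq_self, List.length_nil, zero_add, pow_one]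
    have := (tendsto_inv_atTop_zero (𝕜 := ℝ)).smul_const w
    rwa [zero_smul] at this
  | cons c L ih =>
    intro hL hi w
    have hc : c ∉ L := (List.nodup_cons.1 hL).1
    have hci : c ≠ i := fun h => hi (h ▸ List.mem_cons_self)
    have hne := headD_ne i hc hci
    have ih' := ih (List.nodup_cons.1 hL).2 fun h => hi (List.mem_cons_of_mem _ h)
    have h1 := ((tendsto_inv_atTop_zero (𝕜 := ℝ)).smul (ih' w)).add (ih' (B.Y c (L.headD i) w))
    rw [zero_smul, add_zero] at h1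
    refine h1.congr' ?_
    filter_upwards [eventually_gt_atTop (0 : ℝ)] with τ hτ
    rw [B.φ_cons i hne, List.length_cons, smul_add, smul_smul, smul_smul]
    congr 2
    · field_simp
      ring
    · field_simp
      ring

theorem Blk.lead (L : List (Fin m)) : L.Nodup → i ∉ L → ∀ w : V, B.E (L.headD i) w = w → w ≠ 0 →
    ∃ z : V, z ≠ 0 ∧ B.E i z = z ∧ Tendsto (fun τ : ℝ => (τ ^ L.length)⁻¹ • B.φ (B.p i τ L) w) atTop (𝓝 z) := by
  induction L with
  | nil =>
    intro _ _ w hw hw0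
    refine ⟨w, hw0, hw, ?_⟩
    simp only [B.p_nil, map_one, one_apply_eq_self, List.length_nil, pow_zero, inv_one, one_smul]
    exact tendsto_const_nhds
  | cons c L ih =>
    intro hL hi w hw hw0
    have hc : c ∉ L := (List.nodup_cons.1 hL).1
    have hci : c ≠ i := fun h => hi (h ▸ List.mem_cons_self)
    have hne := headD_ne i hc hci
    have hw' : B.E c w = w := hw
    obtain ⟨z, hz0, hz, h1⟩ := ih (List.nodup_cons.1 hL).2 (fun h => hi (List.mem_cons_of_mem _ h)) (B.Y c (L.headD i) w)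
      (B.E_Y hne w) (by
        intro h0
        apply hw0
        rw [← hw'] at h0 ⊢
        exact B.Yinj _ _ hne _ h0)
    refine ⟨z, hz0, hz, ?_⟩
    have h2 := (B.growth i L (List.nodup_cons.1 hL).2 (fun h => hi (List.mem_cons_of_mem _ h)) w).add h1
    rw [zero_add] at h2
    refine h2.congr' ?_
    filter_upwards [eventually_gt_atTop (0 : ℝ)] with τ hτ
    rw [B.φ_cons i hne, List.length_cons, smul_add, smul_smul]
    congr 2
    field_simp
    ring

theorem Blk.supp (L : List (Fin m)) : L.Nodup → i ∉ L → ∀ v : V, (∀ a, a ∉ L → a ≠ i → B.E a v = 0) → v ≠ 0 →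
    ∃ (d : ℕ) (z : V), z ≠ 0 ∧ B.E i z = z ∧ Tendsto (fun τ : ℝ => (τ ^ d)⁻¹ • B.φ (B.p i τ L) v) atTop (𝓝 z) := by
  induction L with
  | nil =>
    intro h1 h2 v hv hv0
    have hEv : B.E i v = v := by
      conv_rhs => rw [← B.sum_E v]
      rw [Finset.sum_eq_single i]
      · intro a _ ha
        exact hv a List.not_mem_nil ha
      · intro h
        exact absurd (Finset.mem_univ i) h
    obtain ⟨z, hz0, hz, h3⟩ := B.lead i [] h1 h2 v hEv hv0
    exact ⟨_, z, hz0, hz, h3⟩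
  | cons c L ih =>
    intro hL hi v hv hv0
    have hc : c ∉ L := (List.nodup_cons.1 hL).1
    have hL' := (List.nodup_cons.1 hL).2
    have hi' : i ∉ L := fun h => hi (List.mem_cons_of_mem _ h)
    have hci : c ≠ i := fun h => hi (h ▸ List.mem_cons_self)
    have hne := headD_ne i hc hci
    by_cases hcv : B.E c v = 0
    · obtain ⟨d, z, hz0, hz, h3⟩ := ih hL' hi' v (fun a ha hai => by
        by_cases hac : a = c
        · rw [hac, hcv]
        · exact hv a (by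
            rw [List.mem_cons]
            push Not
            exact ⟨hac, ha⟩) hai) hv0
      refine ⟨d, z, hz0, hz, h3.congr fun τ => ?_⟩
      rw [B.φ_cons i hne, B.Y_E hne, hcv, map_zero, map_zero, smul_zero, add_zero]
    · obtain ⟨z, hz0, hz, h3⟩ := B.lead i (c :: L) hL hi (B.E c v) (B.E_E c v) hcv
      refine ⟨(c :: L).length, z, hz0, hz, ?_⟩
      have h4 := h3.add (B.growth i L hL' hi' (v - B.E c v))
      rw [add_zero] at h4
      refine h4.congr fun τ => ?_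
      have h5 : B.φ (B.p i τ (c :: L)) v = B.φ (B.p i τ (c :: L)) (B.E c v) + B.φ (B.p i τ L) (v - B.E c v) := by
        have h6 : B.φ (B.p i τ (c :: L)) (v - B.E c v) = B.φ (B.p i τ L) (v - B.E c v) := by
          rw [B.φ_cons i hne, B.Y_E hne, map_sub (B.E c), B.E_E, sub_self, map_zero, map_zero, smul_zero, add_zero]
        rw [← h6, ← map_add]
        congr 1
        abel
      rw [h5, smul_add]
      rfl

end chain

section main

variable (B : Blk S V m)

theorem Blk.mul_inv (s : S) (x : V) : B.φ s (B.φ s⁻¹ x) = x := by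
  have h : B.φ s * B.φ s⁻¹ = 1 := by rw [← map_mul, mul_inv_cancel, map_one]
  exact congrArg (fun T : V →L[ℝ] V => T x) h

theorem Blk.inv_mul (s : S) (x : V) : B.φ s⁻¹ (B.φ s x) = x := by
  have h : B.φ s⁻¹ * B.φ s = 1 := by rw [← map_mul, inv_mul_cancel, map_one]
  exact congrArg (fun T : V →L[ℝ] V => T x) h

/-- the element `g` of the normal closure of `t` -/
theorem Blk.exists_g [FiniteDimensional ℝ V] {t : S} {i j : Fin m} (hij : i ≠ j)
    (h1 : ∀ v, B.E i (B.φ t⁻¹ (B.E j v)) = 0 → B.E j v = 0) {δ ε : ℝ} (hδ : 0 < δ) (hε : 0 < ε) :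
    ∃ g ∈ Subgroup.normalClosure {t}, ∀ z, δ * ‖z‖ < ‖B.E i z‖ →
      ‖B.φ t⁻¹ (B.φ g z) - B.E j (B.φ t⁻¹ (B.φ g z))‖ ≤ ε * ‖B.φ g z‖ := by
  -- the operators
  let T : V →L[ℝ] V := B.φ t
  let T' : V →L[ℝ] V := B.φ t⁻¹
  let Y : V →L[ℝ] V := B.Y i j
  let Q : V →L[ℝ] V := T' - B.E j * T'
  let A : V →L[ℝ] V := T * Y * T' * Y
  let C : V →L[ℝ] V := T * Y * T' - Y
  have hQ : ∀ x, Q x = T' x - B.E j (T' x) := fun _ => rfl
  have hA : ∀ x, A x = T (Y (T' (Y x))) := fun _ => rfl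
  have hC : ∀ x, C x = T (Y (T' x)) - Y x := fun _ => rfl
  have hT'T : ∀ x, T' (T x) = x := B.inv_mul t
  have hYY : ∀ x, Y (Y x) = 0 := by
    intro x
    have e : Y (Y x) = B.Y i j (B.E i (B.E j (Y x))) := by
      rw [← B.Y_E hij]
      congr 1
      exact (B.E_Y hij x).symm
    rw [e, B.E_E_ne hij, map_zero]
  have hQA : ∀ x, Q (A x) = 0 := by
    intro x
    rw [hQ, hA, hT'T]
    exact sub_eq_zero.2 (B.E_Y hij _).symm
  -- the lower bound
  obtain ⟨c, hc, hcA⟩ : ∃ c : ℝ, 0 < c ∧ ∀ z, c * ‖B.E i z‖ ≤ ‖A z‖ := by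
    let f : V →ₗ[ℝ] V × V := LinearMap.prod (A : V →ₗ[ℝ] V) ((1 - B.E i : V →L[ℝ] V) : V →ₗ[ℝ] V)
    have hf : LinearMap.ker f = ⊥ := by
      rw [LinearMap.ker_eq_bot']
      intro x hx
      have hx1 : A x = 0 := congrArg Prod.fst hx
      have hx2 : x - B.E i x = 0 := congrArg Prod.snd hx
      have hx3 : Y (T' (Y x)) = 0 := by
        have := congrArg T' hx1
        rwa [hA, hT'T, map_zero] at this
      have hx4 : B.E i (T' (Y x)) = 0 := by
        refine B.Yinj i j hij _ ?_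
        rw [← B.Y_E hij]
        exact hx3
      have hx5 : Y x = 0 := by
        have e : B.E j (Y x) = Y x := B.E_Y hij x
        rw [← e]
        refine h1 _ ?_
        rw [e]
        exact hx4
      have hx6 : B.E i x = 0 := by
        refine B.Yinj i j hij _ ?_
        rw [← B.Y_E hij]
        exact hx5
      rwa [hx6, sub_zero] at hx2
    obtain ⟨K, hK, hKf⟩ := f.exists_antilipschitzWith hf
    have hK' : (0 : ℝ) < K := NNReal.coe_pos.2 hK
    refine ⟨1 / K, by positivity, fun z => ?_⟩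
    have h3 := hKf.le_mul_dist (B.E i z) 0
    rw [map_zero, dist_zero_right, dist_zero_right] at h3
    have h4 : f (B.E i z) = (A z, 0) := by
      refine Prod.ext ?_ ?_
      · show A (B.E i z) = A z
        rw [hA, hA]
        congr 3
        exact (B.Y_E hij z).symm
      · show B.E i z - B.E i (B.E i z) = 0
        rw [B.E_E, sub_self]
    rw [h4, Prod.norm_mk, norm_zero, max_eq_left (norm_nonneg _)] at h3
    rw [one_div, inv_mul_le_iff₀ hK']
    exact h3
  -- the size of `τ`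
  obtain ⟨τ, hτ1, hτ2⟩ : ∃ τ : ℝ, 1 ≤ τ ∧ ((‖Q‖ + ‖Q * C‖) / ε + (1 + ‖C‖)) / (c * δ) ≤ τ := ⟨max 1 _, le_max_left _ _, le_max_right _ _⟩
  have hcδ : 0 < c * δ := mul_pos hc hδ
  rw [div_le_iff₀ hcδ] at hτ2
  refine ⟨t * B.u i j τ * t⁻¹ * (B.u i j τ)⁻¹, ?_, fun z hz => ?_⟩
  · have e : t * B.u i j τ * t⁻¹ * (B.u i j τ)⁻¹ = t * (B.u i j τ * t⁻¹ * (B.u i j τ)⁻¹) := by group
    rw [e]
    have ht : t ∈ Subgroup.normalClosure {t} := Subgroup.subset_normalClosure (Set.mem_singleton t)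
    exact Subgroup.mul_mem _ ht (Subgroup.normalClosure_normal.conj_mem _ (Subgroup.inv_mem _ ht) _)
  -- the action of `g`
  have hui : ∀ x, B.φ (B.u i j τ)⁻¹ x = x - τ • Y x := by
    intro x
    have h3 : B.φ (B.u i j τ) (x - τ • Y x) = x := by
      rw [B.hu' hij, map_sub, map_smul]
      have : (B.Y i j) (Y x) = 0 := hYY x
      rw [this, smul_zero, sub_zero]
      show x - τ • Y x + τ • Y x = x
      abel
    conv_lhs => rw [← h3]
    rw [B.inv_mul]
  have hg : B.φ (t * B.u i j τ * t⁻¹ * (B.u i j τ)⁻¹) z = z + τ • C z - τ ^ 2 • A z := by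
    have e : B.φ (t * B.u i j τ * t⁻¹ * (B.u i j τ)⁻¹) z = T (B.φ (B.u i j τ) (T' (B.φ (B.u i j τ)⁻¹ z))) := by
      rw [map_mul, map_mul, map_mul]
      rfl
    rw [e, hui, B.hu' hij, map_add, map_sub T', map_sub T]
    have e1 : T (T' z) = z := B.mul_inv t z
    have e2 : T (T' (τ • Y z)) = τ • Y z := B.mul_inv t _
    have e3 : T (τ • (B.Y i j) (T' z - T' (τ • Y z))) = τ • T (Y (T' z)) - τ ^ 2 • A z := by
      rw [map_smul, map_smul T']
      show τ • T (Y (T' z - τ • T' (Y z))) = _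
      rw [map_sub Y, map_smul Y, map_sub T, map_smul T, smul_sub, smul_smul, ← pow_two, hA]
    rw [e1, e2, e3, hC, smul_sub]
    abel
  have hQg : Q (B.φ (t * B.u i j τ * t⁻¹ * (B.u i j τ)⁻¹) z) = Q z + τ • (Q * C) z := by
    rw [hg, map_sub, map_add, map_smul, map_smul, hQA, smul_zero, sub_zero]
    rfl
  have h3 : ‖Q (B.φ (t * B.u i j τ * t⁻¹ * (B.u i j τ)⁻¹) z)‖ ≤ (‖Q‖ + ‖Q * C‖) * τ * ‖z‖ := by
    rw [hQg]
    refine (norm_add_le _ _).trans ?_
    rw [norm_smul, Real.norm_of_nonneg (by linarith : (0 : ℝ) ≤ τ)]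
    have a1 := Q.le_opNorm z
    have a2 := (Q * C).le_opNorm z
    have a3 : ‖Q‖ * ‖z‖ ≤ τ * (‖Q‖ * ‖z‖) := le_mul_of_one_le_left (by positivity) hτ1
    have a4 : τ * ‖(Q * C) z‖ ≤ τ * (‖Q * C‖ * ‖z‖) := mul_le_mul_of_nonneg_left a2 (by linarith)
    calc ‖Q z‖ + τ * ‖(Q * C) z‖ ≤ τ * (‖Q‖ * ‖z‖) + τ * (‖Q * C‖ * ‖z‖) := add_le_add (a1.trans a3) a4
      _ = _ := by ring
  have h4 : (τ * (c * δ) - (1 + ‖C‖)) * τ * ‖z‖ ≤ ‖B.φ (t * B.u i j τ * t⁻¹ * (B.u i j τ)⁻¹) z‖ := by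
    rw [hg]
    have a1 : ‖τ ^ 2 • A z‖ ≤ ‖z + τ • C z - τ ^ 2 • A z‖ + (‖z‖ + τ * (‖C‖ * ‖z‖)) := by
      have e : τ ^ 2 • A z = (z + τ • C z) - (z + τ • C z - τ ^ 2 • A z) := by abel
      have a2 : ‖τ ^ 2 • A z‖ ≤ ‖z + τ • C z‖ + ‖z + τ • C z - τ ^ 2 • A z‖ := by
        conv_lhs => rw [e]
        exact norm_sub_le _ _
      have a3 : ‖z + τ • C z‖ ≤ ‖z‖ + τ * (‖C‖ * ‖z‖) := by
        refine (norm_add_le _ _).trans ?_
        rw [norm_smul, Real.norm_of_nonneg (by linarith : (0 : ℝ) ≤ τ)]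
        exact add_le_add le_rfl (mul_le_mul_of_nonneg_left (C.le_opNorm z) (by linarith))
      linarith
    have a2 : τ ^ 2 * (c * (δ * ‖z‖)) ≤ ‖τ ^ 2 • A z‖ := by
      rw [norm_smul, Real.norm_of_nonneg (by positivity)]
      refine mul_le_mul_of_nonneg_left ?_ (by positivity)
      exact (mul_le_mul_of_nonneg_left hz.le hc.le).trans (hcA z)
    have a3 : ‖z‖ ≤ τ * ‖z‖ := le_mul_of_one_le_left (norm_nonneg z) hτ1
    nlinarith [a1, a2, a3]
  show ‖Q (B.φ (t * B.u i j τ * t⁻¹ * (B.u i j τ)⁻¹) z)‖ ≤ _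
  refine h3.trans (le_trans ?_ (mul_le_mul_of_nonneg_left h4 hε.le))
  have h5 : (‖Q‖ + ‖Q * C‖) ≤ ε * (τ * (c * δ) - (1 + ‖C‖)) := by
    have h6 : (‖Q‖ + ‖Q * C‖) / ε ≤ τ * (c * δ) - (1 + ‖C‖) := by linarith
    rw [div_le_iff₀ hε] at h6
    linarith
  calc (‖Q‖ + ‖Q * C‖) * τ * ‖z‖ ≤ ε * (τ * (c * δ) - (1 + ‖C‖)) * τ * ‖z‖ := by
        have : (0 : ℝ) ≤ τ := by linarith
        gcongr
    _ = _ := by ring

end main

theorem pingpong [FiniteDimensional ℝ V] (B : Blk S V m) {t : S} {i j : Fin m} (hij : i ≠ j)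
    (h1 : ∀ v, B.E i (B.φ t⁻¹ (B.E j v)) = 0 → B.E j v = 0)
    (h2 : ∀ v w, B.φ t (B.E j v) = B.E i w → B.E i w = 0) (k : ℕ) :
    ∃ (g : Fin k → S) (D : Fin k → Set V), (∀ l, g l ∈ Subgroup.normalClosure {t}) ∧ (∀ l, IsClosed (D l)) ∧
      (∀ x, x ≠ 0 → {l | x ∈ D l}.ncard ≤ Module.finrank ℝ V) ∧
      ∀ x, x ≠ 0 → {l | B.φ (g l)⁻¹ x ∉ D l}.ncard ≤ Module.finrank ℝ V := by
  classical
  -- the list of the indices
  let L : List (Fin m) := (Finset.univ.erase i).toList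
  have hL : L.Nodup := Finset.nodup_toList _
  have hiL : i ∉ L := by
    rw [Finset.mem_toList]
    exact Finset.notMem_erase i _
  have hLa : ∀ a, a ≠ i → a ∈ L := by
    intro a ha
    rw [Finset.mem_toList]
    exact Finset.mem_erase.2 ⟨ha, Finset.mem_univ a⟩
  let P : Bool → (V →L[ℝ] V) := fun b => if b then B.E i else B.φ t⁻¹ - B.E j * B.φ t⁻¹
  have hPt : P true = B.E i := rfl
  have hPf : ∀ x, P false x = B.φ t⁻¹ x - B.E j (B.φ t⁻¹ x) := fun _ => rfl
  have hP : ∀ b z, B.E i z = z → P b z = 0 → z = 0 := by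
    intro b z hz h
    cases b with
    | true => rwa [hPt, hz] at h
    | false =>
      rw [hPf, sub_eq_zero] at h
      rw [← hz]
      refine h2 (B.φ t⁻¹ z) z ?_
      rw [← h, B.mul_inv, hz]
  let X : Bool → ℝ → Submodule ℝ V := fun b τ => LinearMap.ker ((P b * B.φ (B.p i τ L) : V →L[ℝ] V) : V →ₗ[ℝ] V)
  have hX : ∀ b v, v ≠ 0 → ∀ᶠ τ in atTop, v ∉ X b τ := by
    intro b v hv
    obtain ⟨d, z, hz0, hz, hlim⟩ := B.supp i L hL hiL v (fun a ha hai => absurd (hLa a hai) ha) hv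
    have h3 := ((P b).continuous.tendsto z).comp hlim
    have h4 : P b z ≠ 0 := fun h => hz0 (hP b z hz h)
    filter_upwards [h3.eventually_ne h4] with τ hτ hmem
    apply hτ
    have h5 : P b (B.φ (B.p i τ L) v) = 0 := LinearMap.mem_ker.1 hmem
    show P b ((τ ^ d)⁻¹ • B.φ (B.p i τ L) v) = 0
    rw [map_smul, h5, smul_zero]
  obtain ⟨τ, hτ⟩ := genpos X hX k
  let q : Fin k → S := fun l => B.p i (τ l) L
  have hthick : ∀ b, ∃ ε : ℝ, 0 < ε ∧ ∀ x, x ≠ 0 → ∀ s : Finset (Fin k), (∀ l ∈ s, ‖P b (B.φ (q l) x)‖ ≤ ε * ‖x‖) →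
      s.card ≤ Module.finrank ℝ V := by
    intro b
    refine thick (fun l => P b * B.φ (q l)) fun s hs x hx => ?_
    have h3 : x ∈ (⨅ l ∈ s.map Fin.valEmbedding, X b (τ l)) := by
      rw [Submodule.mem_iInf]
      intro l
      rw [Submodule.mem_iInf]
      intro hl
      obtain ⟨l', hl', rfl⟩ := Finset.mem_map.1 hl
      exact LinearMap.mem_ker.2 (hx l' hl')
    rw [hτ b _ (by
      intro l hl
      obtain ⟨l', hl', rfl⟩ := Finset.mem_map.1 hl
      exact Finset.mem_range.2 l'.2) (by rwa [Finset.card_map])] at h3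
    exact (Submodule.mem_bot ℝ).1 h3
  obtain ⟨ε1, hε1, ht1⟩ := hthick true
  obtain ⟨ε2, hε2, ht2⟩ := hthick false
  -- the constant of the `q l`
  obtain ⟨M, hM, hMq⟩ : ∃ M : ℝ, 0 < M ∧ ∀ l x, ‖B.φ (q l) x‖ ≤ M * ‖x‖ := by
    refine ⟨1 + ∑ l, ‖B.φ (q l)‖, by positivity, fun l x => ?_⟩
    refine ((B.φ (q l)).le_opNorm x).trans (mul_le_mul_of_nonneg_right ?_ (norm_nonneg x))
    have := Finset.single_le_sum (f := fun l => ‖B.φ (q l)‖) (fun _ _ => norm_nonneg _) (Finset.mem_univ l)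
    have h' : ‖B.φ (q l)‖ ≤ ∑ l, ‖B.φ (q l)‖ := this
    linarith
  obtain ⟨g, hg, hgz⟩ := B.exists_g hij h1 (δ := ε1 / M) (ε := ε2 / M) (by positivity) (by positivity)
  have hcard : ∀ (p : Fin k → Prop) (n : ℕ), (∀ s : Finset (Fin k), (∀ l ∈ s, p l) → s.card ≤ n) → {l | p l}.ncard ≤ n := by
    intro p n hs
    have e : {l | p l} = ((Finset.univ.filter p : Finset (Fin k)) : Set (Fin k)) := by
      ext l
      simp
    rw [e, Set.ncard_coe_finset]
    exact hs _ fun l hl => (Finset.mem_filter.1 hl).2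
  refine ⟨fun l => (q l)⁻¹ * g * q l, fun l => {x | ‖B.E i (B.φ (q l) x)‖ ≤ ε1 / M * ‖B.φ (q l) x‖}, fun l => ?_, fun l => ?_,
    fun x hx => ?_, fun x hx => ?_⟩
  · have := (Subgroup.normalClosure_normal (s := {t})).conj_mem g hg (q l)⁻¹
    rwa [inv_inv] at this
  · exact isClosed_le ((B.E i).continuous.comp (B.φ (q l)).continuous).norm (continuous_const.mul (B.φ (q l)).continuous.norm)
  · refine hcard _ _ fun s hs => ht1 x hx s fun l hl => ?_
    have h3 : ‖B.E i (B.φ (q l) x)‖ ≤ ε1 / M * ‖B.φ (q l) x‖ := hs l hl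
    refine h3.trans ?_
    calc ε1 / M * ‖B.φ (q l) x‖ ≤ ε1 / M * (M * ‖x‖) := mul_le_mul_of_nonneg_left (hMq l x) (by positivity)
      _ = ε1 * ‖x‖ := by field_simp
  · refine hcard _ _ fun s hs => ht2 x hx s fun l hl => ?_
    have h3 : B.φ ((q l)⁻¹ * g * q l)⁻¹ x ∉ {x | ‖B.E i (B.φ (q l) x)‖ ≤ ε1 / M * ‖B.φ (q l) x‖} := hs l hl
    have h4 : ε1 / M * ‖B.φ (q l) (B.φ ((q l)⁻¹ * g * q l)⁻¹ x)‖ < ‖B.E i (B.φ (q l) (B.φ ((q l)⁻¹ * g * q l)⁻¹ x))‖ := not_le.1 h3
    have h5 := hgz _ h4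
    have h6 : B.φ g (B.φ (q l) (B.φ ((q l)⁻¹ * g * q l)⁻¹ x)) = B.φ (q l) x := by
      have e : B.φ g (B.φ (q l) (B.φ ((q l)⁻¹ * g * q l)⁻¹ x)) = B.φ (g * q l * ((q l)⁻¹ * g * q l)⁻¹) x := by
        rw [map_mul, map_mul]
        rfl
      rw [e]
      congr 2
      group
    rw [h6] at h5
    show ‖P false (B.φ (q l) x)‖ ≤ _
    rw [hPf]
    refine h5.trans ?_
    calc ε2 / M * ‖B.φ (q l) x‖ ≤ ε2 / M * (M * ‖x‖) := mul_le_mul_of_nonneg_left (hMq l x) (by positivity)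
      _ = ε2 * ‖x‖ := by field_simp

end Pool.Agent.Helper43.TZ
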