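import Pool.Agent.Helper43.TZ.SFam
import Pool.Agent.Helper43.TZ.SPing

/-!
# Project TZ, block SGlue: the data of the source from the Lie algebra data
-/

set_option autoImplicit false
set_option linter.unusedSectionVars false

open MeasureTheory Filter Topology Matrix

namespace Pool.Agent.Helper43.TZ

open Pool.Agent.Helper96.SA Pool.Agent.Helper96.FR Pool.Agent.Helper43.TA

variable {M : ℕ}

section Mat

private theorem spec43 {H : Mat M} (hs : Hᵀ = H) : ∃ (O : Mat M) (d : Fin M → ℝ), Oᵀ * O = 1 ∧ O * Oᵀ = 1 ∧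
    H = O * diagonal d * Oᵀ := by
  have hH : H.IsHermitian := by
    unfold Matrix.IsHermitian
    rw [Matrix.conjTranspose_eq_transpose_of_trivial, hs]
  refine ⟨hH.eigenvectorUnitary, hH.eigenvalues, ?_, ?_, ?_⟩
  · have h := Unitary.coe_star_mul_self hH.eigenvectorUnitary
    rwa [Matrix.star_eq_conjTranspose, Matrix.conjTranspose_eq_transpose_of_trivial] at h
  · have h := Unitary.coe_mul_star_self hH.eigenvectorUnitary
    rwa [Unitary.coe_star, Matrix.star_eq_conjTranspose, Matrix.conjTranspose_eq_transpose_of_trivial] at h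
  · have h := hH.spectral_theorem
    rw [Unitary.conjStarAlgAut_apply, Matrix.star_eq_conjTranspose,
      Matrix.conjTranspose_eq_transpose_of_trivial] at h
    exact h

/-- The projections on the eigenspaces of `H`. -/
noncomputable def P1 (H : Mat M) : Mat M := (1 / 2 : ℝ) • (H * H + H)
/-- The projections on the eigenspaces of `H`. -/
noncomputable def Pm (H : Mat M) : Mat M := (1 / 2 : ℝ) • (H * H - H)
/-- The projections on the eigenspaces of `H`. -/
noncomputable def P0 (H : Mat M) : Mat M := 1 - H * H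

variable {H : Mat M}

theorem P_sum (H : Mat M) : P1 H + P0 H + Pm H = 1 := by
  unfold P1 P0 Pm
  rw [smul_add, smul_sub]
  have : (1 / 2 : ℝ) • (H * H) + (1 / 2 : ℝ) • (H * H) = H * H := by rw [← add_smul]; norm_num
  calc (1 / 2 : ℝ) • (H * H) + (1 / 2 : ℝ) • H + (1 - H * H) + ((1 / 2 : ℝ) • (H * H) - (1 / 2 : ℝ) • H)
      = ((1 / 2 : ℝ) • (H * H) + (1 / 2 : ℝ) • (H * H)) + 1 - H * H := by abel
    _ = 1 := by rw [this]; abel

private theorem cub4 (hc : H * H * H = H) : H * H * (H * H) = H * H := by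
  rw [← mul_assoc, hc]

theorem P11 (hc : H * H * H = H) : P1 H * P1 H = P1 H := by
  unfold P1
  rw [smul_mul_smul_comm, mul_add, add_mul, add_mul, cub4 hc, hc, ← mul_assoc, hc]
  have : H * H + H + (H + H * H) = (2 : ℝ) • (H * H + H) := by rw [two_smul]; abel
  rw [this, smul_smul]
  norm_num

theorem P10 (hc : H * H * H = H) : P1 H * P0 H = 0 := by
  unfold P1 P0
  rw [smul_mul_assoc, mul_sub, mul_one, add_mul, cub4 hc, ← mul_assoc, hc, sub_self, smul_zero]

theorem P1m (hc : H * H * H = H) : P1 H * Pm H = 0 := by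
  unfold P1 Pm
  rw [smul_mul_smul_comm, mul_sub, add_mul, add_mul, cub4 hc, hc, ← mul_assoc, hc]
  have : H * H + H - (H + H * H) = 0 := by abel
  rw [this, smul_zero]

theorem exp_cub (hs : Hᵀ = H) (hc : H * H * H = H) (τ : ℝ) :
    NormedSpace.exp (τ • H) = Real.exp τ • P1 H + P0 H + Real.exp (-τ) • Pm H := by
  obtain ⟨O, d, h1, h2, hO⟩ := spec43 hs
  have e1 : ∀ f g : Fin M → ℝ, (O * diagonal f * Oᵀ) * (O * diagonal g * Oᵀ) = O * diagonal (fun i => f i * g i) * Oᵀ := by
    intro f g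
    calc (O * diagonal f * Oᵀ) * (O * diagonal g * Oᵀ) = O * diagonal f * (Oᵀ * O) * diagonal g * Oᵀ := by
          simp only [Matrix.mul_assoc]
      _ = _ := by rw [h1, Matrix.mul_one, Matrix.mul_assoc O, diagonal_mul_diagonal]
  have e2 : ∀ (c : ℝ) (f : Fin M → ℝ), c • (O * diagonal f * Oᵀ) = O * diagonal (fun i => c * f i) * Oᵀ := by
    intro c f
    have : diagonal (fun i => c * f i) = c • diagonal f := by
      rw [← Matrix.diagonal_smul]
      rfl
    rw [this, Matrix.mul_smul, Matrix.smul_mul]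
  have e3 : ∀ f g : Fin M → ℝ, (O * diagonal f * Oᵀ) + (O * diagonal g * Oᵀ) = O * diagonal (fun i => f i + g i) * Oᵀ := by
    intro f g
    rw [← diagonal_add, Matrix.mul_add, Matrix.add_mul]
  have e4 : (1 : Mat M) = O * diagonal (fun _ => (1 : ℝ)) * Oᵀ := by
    rw [Matrix.diagonal_one, Matrix.mul_one, h2]
  have e5 : ∀ f g : Fin M → ℝ, (O * diagonal f * Oᵀ) - (O * diagonal g * Oᵀ) = O * diagonal (fun i => f i - g i) * Oᵀ := by
    intro f g
    rw [← diagonal_sub, Matrix.mul_sub, Matrix.sub_mul]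
  have hd : ∀ i, d i * d i * d i = d i := by
    have h3 : O * diagonal (fun i => d i * d i * d i) * Oᵀ = O * diagonal d * Oᵀ := by
      rw [← e1, ← e1, ← hO, hc]
    have h4 := congrArg (fun A => Oᵀ * A * O) h3
    have e6 : ∀ f : Fin M → ℝ, Oᵀ * (O * diagonal f * Oᵀ) * O = diagonal f := by
      intro f
      calc Oᵀ * (O * diagonal f * Oᵀ) * O = (Oᵀ * O) * diagonal f * (Oᵀ * O) := by simp only [Matrix.mul_assoc]
        _ = _ := by rw [h1, Matrix.one_mul, Matrix.mul_one]
    simp only [e6] at h4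
    intro i
    exact congrFun (diagonal_injective h4) i
  unfold P1 P0 Pm
  rw [hO, e2, exp_diag O h1 h2, e1, e3, e5, e4, e5, e2, e2, e2, e2, e3, e3]
  congr 2
  refine congrArg diagonal (funext fun i => ?_)
  have h5 : d i = 0 ∨ d i = 1 ∨ d i = -1 := by
    have h6 : d i * (d i - 1) * (d i + 1) = 0 := by
      have := hd i
      ring_nf
      ring_nf at this
      linarith
    rcases mul_eq_zero.1 h6 with h7 | h7
    · rcases mul_eq_zero.1 h7 with h8 | h8
      · exact Or.inl h8
      · exact Or.inr (Or.inl (by linarith))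
    · exact Or.inr (Or.inr (by linarith))
  rcases h5 with h5 | h5 | h5 <;> rw [h5] <;> norm_num

/-- `exp(τH) X exp(-τH) = e^(-τ) X` if `[H, X] = -X`. -/
theorem conj_exp (hs : Hᵀ = H) {X : Mat M} (h : H * X - X * H = -X) (τ : ℝ) :
    NormedSpace.exp (τ • H) * X * NormedSpace.exp (-(τ • H)) = Real.exp (-τ) • X := by
  obtain ⟨O, d, h1, h2, rfl⟩ := spec43 hs
  have hsm : ∀ t : ℝ, t • (O * diagonal d * Oᵀ) = O * diagonal (fun i => t * d i) * Oᵀ := by
    intro t
    have e : diagonal (fun i => t * d i) = t • diagonal d := by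
      rw [← Matrix.diagonal_smul]
      rfl
    rw [e, Matrix.mul_smul, Matrix.smul_mul]
  have e1 : -(τ • (O * diagonal d * Oᵀ)) = O * diagonal (fun i => -τ * d i) * Oᵀ := by
    rw [← neg_smul, hsm]
  rw [e1, hsm, exp_diag O h1 h2, exp_diag O h1 h2]
  have key : diagonal (fun i => Real.exp (τ * d i)) * (Oᵀ * X * O) * diagonal (fun i => Real.exp (-τ * d i)) =
      Real.exp (-τ) • (Oᵀ * X * O) := by
    have h3 : diagonal d * (Oᵀ * X * O) - (Oᵀ * X * O) * diagonal d = -(Oᵀ * X * O) := by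
      have h4 : Oᵀ * (O * diagonal d * Oᵀ * X - X * (O * diagonal d * Oᵀ)) * O = -(Oᵀ * X * O) := by
        rw [h, Matrix.mul_neg, Matrix.neg_mul]
      refine Eq.trans ?_ h4
      rw [Matrix.mul_sub, Matrix.sub_mul]
      congr 1
      · calc diagonal d * (Oᵀ * X * O) = 1 * diagonal d * Oᵀ * X * O := by
              rw [Matrix.one_mul]; simp only [Matrix.mul_assoc]
          _ = Oᵀ * O * diagonal d * Oᵀ * X * O := by rw [h1]
          _ = _ := by simp only [Matrix.mul_assoc]
      · calc Oᵀ * X * O * diagonal d = Oᵀ * X * O * diagonal d * 1 := by rw [Matrix.mul_one]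
          _ = Oᵀ * X * O * diagonal d * (Oᵀ * O) := by rw [h1]
          _ = _ := by simp only [Matrix.mul_assoc]
    ext i j
    have h5 := congrFun (congrFun h3 i) j
    rw [Matrix.sub_apply, Matrix.diagonal_mul, Matrix.mul_diagonal, Matrix.neg_apply] at h5
    rw [Matrix.mul_diagonal, Matrix.diagonal_mul, Matrix.smul_apply, smul_eq_mul]
    set y := (Oᵀ * X * O) i j with hy
    by_cases hy0 : y = 0
    · rw [hy0]
      ring
    · have h6 : d i - d j = -1 := by
        have : (d i - d j) * y = (-1) * y := by linarith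
        exact mul_right_cancel₀ hy0 this
      have h7 : Real.exp (τ * d i) * y * Real.exp (-τ * d j) = Real.exp (τ * d i + -τ * d j) * y := by
        rw [Real.exp_add]
        ring
      rw [h7]
      congr 2
      have : d i = d j - 1 := by linarith
      rw [this]
      ring
  calc O * diagonal (fun i => Real.exp (τ * d i)) * Oᵀ * X * (O * diagonal (fun i => Real.exp (-τ * d i)) * Oᵀ) =
      O * (diagonal (fun i => Real.exp (τ * d i)) * (Oᵀ * X * O) * diagonal (fun i => Real.exp (-τ * d i))) * Oᵀ := by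
        simp only [Matrix.mul_assoc]
    _ = O * (Real.exp (-τ) • (Oᵀ * X * O)) * Oᵀ := by rw [key]
    _ = Real.exp (-τ) • (O * Oᵀ * X * (O * Oᵀ)) := by
        rw [Matrix.mul_smul, Matrix.smul_mul]
        simp only [Matrix.mul_assoc]
    _ = Real.exp (-τ) • X := by rw [h2, Matrix.one_mul, Matrix.mul_one]

theorem conj_ex (hs : Hᵀ = H) {X : Mat M} (h : H * X - X * H = -X) (τ t : ℝ) :
    ex (τ • H) * ex (t • X) * (ex (τ • H))⁻¹ = ex ((t * Real.exp (-τ)) • X) := by
  rw [← ex_conj]
  congr 1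
  have e2 : (((ex (τ • H))⁻¹ : GL (Fin M) ℝ) : Mat M) = NormedSpace.exp (-(τ • H)) := by rw [← ex_neg, ex_coe]
  rw [ex_coe, e2, Matrix.mul_smul, Matrix.smul_mul, conj_exp hs h, smul_smul]

/-- Contracted elements are in the parabolic subgroup. -/
theorem P1_of_contr (hs : Hᵀ = H) (hc : H * H * H = H) {l : Filter ℕ} [l.NeBot] {τ : ℕ → ℝ} (hτ : Tendsto τ l atTop)
    {q : GL (Fin M) ℝ} (hq : Tendsto (fun n => ex (τ n • H) * q * (ex (τ n • H))⁻¹) l (𝓝 1)) : P1 H * (q : Mat M) = P1 H := by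
  -- multiply on the left by `P1`
  have h0 : Tendsto (fun n => P1 H * ((ex (τ n • H) * q * (ex (τ n • H))⁻¹ : GL (Fin M) ℝ) : Mat M)) l (𝓝 (P1 H)) := by
    have h1 : Tendsto (fun n => ((ex (τ n • H) * q * (ex (τ n • H))⁻¹ : GL (Fin M) ℝ) : Mat M)) l (𝓝 ((1 : GL (Fin M) ℝ) : Mat M)) :=
      (Units.continuous_val.tendsto _).comp hq
    have h2 := h1.const_mul (P1 H)
    rwa [Units.val_one, mul_one] at h2
  have e1 : ∀ n, P1 H * ((ex (τ n • H) * q * (ex (τ n • H))⁻¹ : GL (Fin M) ℝ) : Mat M) =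
      Real.exp (τ n) • (P1 H * (q : Mat M) * (Real.exp (-(τ n)) • P1 H + P0 H + Real.exp (τ n) • Pm H)) := by
    intro n
    have e2 : (((ex (τ n • H))⁻¹ : GL (Fin M) ℝ) : Mat M) = Real.exp (-(τ n)) • P1 H + P0 H + Real.exp (τ n) • Pm H := by
      rw [← ex_neg, ← neg_smul, ex_coe, exp_cub hs hc, neg_neg]
    have e3 : P1 H * (Real.exp (τ n) • P1 H + P0 H + Real.exp (-(τ n)) • Pm H) = Real.exp (τ n) • P1 H := by
      rw [mul_add, mul_add, mul_smul_comm, mul_smul_comm, P11 hc, P10 hc, P1m hc, smul_zero, add_zero, add_zero]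
    rw [Units.val_mul, Units.val_mul, e2, ex_coe, exp_cub hs hc, ← mul_assoc, ← mul_assoc, e3, smul_mul_assoc, smul_mul_assoc]
  -- the component on `P0`
  have P00 : P0 H * P0 H = P0 H := by
    unfold P0
    have : (1 - H * H) * (1 - H * H) = 1 - H * H - (H * H - H * H * (H * H)) := by
      rw [mul_sub, mul_one, sub_mul, one_mul]
    rw [this, cub4 hc, sub_self, sub_zero]
  have P01 : P0 H * P1 H = 0 := by
    unfold P1 P0
    rw [mul_smul_comm, sub_mul, one_mul, mul_add, cub4 hc, hc, sub_self, smul_zero]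
  have Pm1 : Pm H * P1 H = 0 := by
    unfold P1 Pm
    rw [smul_mul_smul_comm, mul_add, sub_mul, sub_mul, cub4 hc, hc, ← mul_assoc, hc]
    have : H * H - H + (H - H * H) = 0 := by abel
    rw [this, smul_zero]
  have P0m : P0 H * Pm H = 0 := by
    unfold P0 Pm
    rw [mul_smul_comm, sub_mul, one_mul, mul_sub, cub4 hc, hc, sub_self, smul_zero]
  have Pm0 : Pm H * P0 H = 0 := by
    unfold P0 Pm
    rw [smul_mul_assoc, mul_sub, mul_one, sub_mul, cub4 hc, ← mul_assoc, hc]
    rw [sub_self, smul_zero]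
  have Pmm : Pm H * Pm H = Pm H := by
    unfold Pm
    rw [smul_mul_smul_comm, mul_sub, sub_mul, sub_mul, cub4 hc, hc, ← mul_assoc, hc]
    have : H * H - H - (H - H * H) = (2 : ℝ) • (H * H - H) := by rw [two_smul]; abel
    rw [this, smul_smul]
    norm_num
  have hexp : Tendsto (fun n => Real.exp (-(τ n))) l (𝓝 0) := Real.tendsto_exp_neg_atTop_nhds_zero.comp hτ
  have key0 : P1 H * (q : Mat M) * P0 H = 0 := by
    have h1 := (hexp.smul h0).mul_const (P0 H)
    have e3 : (fun n => (Real.exp (-(τ n)) • (P1 H * ((ex (τ n • H) * q * (ex (τ n • H))⁻¹ : GL (Fin M) ℝ) : Mat M))) * P0 H) = fun _ => P1 H * (q : Mat M) * P0 H := by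
      funext n
      rw [e1, smul_smul, ← Real.exp_add, neg_add_cancel, Real.exp_zero, one_smul, mul_assoc, add_mul, add_mul, smul_mul_assoc,
        smul_mul_assoc, P10 hc, P00, Pm0, smul_zero, smul_zero, zero_add, add_zero]
    rw [e3, zero_smul, zero_mul] at h1
    exact tendsto_nhds_unique tendsto_const_nhds h1
  have keym : P1 H * (q : Mat M) * Pm H = 0 := by
    have h1 := ((hexp.mul hexp).smul h0).mul_const (Pm H)
    have e3 : (fun n => ((Real.exp (-(τ n)) * Real.exp (-(τ n))) • (P1 H * ((ex (τ n • H) * q * (ex (τ n • H))⁻¹ : GL (Fin M) ℝ) : Mat M))) * Pm H) = fun _ => P1 H * (q : Mat M) * Pm H := by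
      funext n
      rw [e1, smul_smul, smul_mul_assoc, mul_assoc (P1 H * (q : Mat M)), add_mul, add_mul, smul_mul_assoc, smul_mul_assoc, P1m hc, P0m, Pmm, smul_zero, zero_add, zero_add,
        mul_smul_comm, smul_smul]
      have : Real.exp (-(τ n)) * Real.exp (-(τ n)) * Real.exp (τ n) * Real.exp (τ n) = 1 := by
        rw [← Real.exp_add, ← Real.exp_add, ← Real.exp_add]
        rw [← Real.exp_zero]
        congr 1
        ring
      rw [this, one_smul]
    rw [e3, mul_zero, zero_smul, zero_mul] at h1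
    exact tendsto_nhds_unique tendsto_const_nhds h1
  have key1 : P1 H * (q : Mat M) * P1 H = P1 H := by
    have h1 := h0.mul_const (P1 H)
    have e3 : (fun n => (P1 H * ((ex (τ n • H) * q * (ex (τ n • H))⁻¹ : GL (Fin M) ℝ) : Mat M)) * P1 H) = fun _ => P1 H * (q : Mat M) * P1 H := by
      funext n
      rw [e1, smul_mul_assoc, mul_assoc (P1 H * (q : Mat M)), add_mul, add_mul, smul_mul_assoc, smul_mul_assoc, P11 hc, P01, Pm1, smul_zero, add_zero, add_zero,
        mul_smul_comm, smul_smul, ← Real.exp_add, add_neg_cancel, Real.exp_zero, one_smul]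
    rw [e3, P11 hc] at h1
    exact tendsto_nhds_unique tendsto_const_nhds h1
  calc P1 H * (q : Mat M) = P1 H * (q : Mat M) * (P1 H + P0 H + Pm H) := by rw [P_sum, mul_one]
    _ = P1 H := by rw [mul_add, mul_add, key1, key0, keym, add_zero, add_zero]

end Mat

end Pool.Agent.Helper43.TZ
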