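import Pool.Agent.Helper43.TZ.SGlue

/-!
# Project TZ, block SGlue2: the Levi group, its action on the eigenspace, the boundary map
-/

set_option autoImplicit false
set_option linter.unusedSectionVars false

open MeasureTheory Filter Topology Matrix

namespace Pool.Agent.Helper43.TZ

open Pool.Agent.Helper96.SA Pool.Agent.Helper96.FR Pool.Agent.Helper43.TA

variable {M : ℕ}

/-- The Levi group. -/
def lv (G : Subgroup (GL (Fin M) ℝ)) (H : Mat M) : Subgroup (GL (Fin M) ℝ) where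
  carrier := {g | g ∈ G ∧ (g : Mat M) * H = H * (g : Mat M)}
  mul_mem' := by
    rintro g h ⟨hg, hg'⟩ ⟨hh, hh'⟩
    refine ⟨G.mul_mem hg hh, ?_⟩
    rw [Units.val_mul, mul_assoc, hh', ← mul_assoc, hg', mul_assoc]
  one_mem' := ⟨G.one_mem, by rw [Units.val_one, one_mul, mul_one]⟩
  inv_mem' := by
    rintro g ⟨hg, hg'⟩
    refine ⟨G.inv_mem hg, ?_⟩
    have h1 : Commute (g : Mat M) H := hg'
    exact h1.units_inv_left.eq

theorem mem_lv {G : Subgroup (GL (Fin M) ℝ)} {H : Mat M} {g : GL (Fin M) ℝ} : g ∈ lv G H ↔ g ∈ G ∧ (g : Mat M) * H = H * (g : Mat M) := Iff.rfl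

theorem lv_le (G : Subgroup (GL (Fin M) ℝ)) (H : Mat M) : lv G H ≤ G := fun _ h => h.1

theorem isClosed_lv {G : Subgroup (GL (Fin M) ℝ)} (hG : IsClosed (G : Set (GL (Fin M) ℝ))) (H : Mat M) : IsClosed (lv G H : Set (GL (Fin M) ℝ)) := by
  have h1 : IsClosed {g : GL (Fin M) ℝ | (g : Mat M) * H = H * (g : Mat M)} :=
    isClosed_eq (Units.continuous_val.mul continuous_const) (continuous_const.mul Units.continuous_val)
  exact hG.inter h1

section V

variable {H : Mat M}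

/-- The eigenspace of the eigenvalue `1`. -/
def VV (H : Mat M) : Submodule ℝ (Fin M → ℝ) where
  carrier := {v | P1 H *ᵥ v = v}
  add_mem' := by
    intro v w hv hw
    show P1 H *ᵥ (v + w) = v + w
    rw [Matrix.mulVec_add, hv, hw]
  zero_mem' := Matrix.mulVec_zero _
  smul_mem' := by
    intro c v hv
    show P1 H *ᵥ (c • v) = c • v
    rw [Matrix.mulVec_smul, hv]

theorem mem_VV {v : Fin M → ℝ} : v ∈ VV H ↔ P1 H *ᵥ v = v := Iff.rfl

theorem P1_mem_VV (hc : H * H * H = H) (v : Fin M → ℝ) : P1 H *ᵥ v ∈ VV H := by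
  rw [mem_VV, Matrix.mulVec_mulVec, P11 hc]

/-- Compression to the eigenspace. -/
noncomputable def rs (hc : H * H * H = H) (A : Mat M) : VV H →L[ℝ] VV H :=
  LinearMap.toContinuousLinearMap
    { toFun := fun v => ⟨P1 H *ᵥ (A *ᵥ (v : Fin M → ℝ)), P1_mem_VV hc _⟩
      map_add' := fun v w => Subtype.ext (by
        show P1 H *ᵥ (A *ᵥ ((v : Fin M → ℝ) + w)) = _
        rw [Matrix.mulVec_add, Matrix.mulVec_add]
        rfl)
      map_smul' := fun c v => Subtype.ext (by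
        show P1 H *ᵥ (A *ᵥ (c • (v : Fin M → ℝ))) = _
        rw [Matrix.mulVec_smul, Matrix.mulVec_smul]
        rfl) }

theorem rs_coe (hc : H * H * H = H) (A : Mat M) (v : VV H) : ((rs hc A v : VV H) : Fin M → ℝ) = P1 H *ᵥ (A *ᵥ (v : Fin M → ℝ)) := rfl

theorem rs_coe' (hc : H * H * H = H) {A : Mat M} (hA : A * P1 H = P1 H * A) (v : VV H) :
    ((rs hc A v : VV H) : Fin M → ℝ) = A *ᵥ (v : Fin M → ℝ) := by
  rw [rs_coe, Matrix.mulVec_mulVec, ← hA, ← Matrix.mulVec_mulVec, v.2]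

theorem rs_mul (hc : H * H * H = H) (A : Mat M) {B : Mat M} (hB : B * P1 H = P1 H * B) : rs hc (A * B) = rs hc A * rs hc B := by
  refine ContinuousLinearMap.ext fun v => Subtype.ext ?_
  show ((rs hc (A * B) v : VV H) : Fin M → ℝ) = ((rs hc A (rs hc B v) : VV H) : Fin M → ℝ)
  rw [rs_coe, rs_coe, rs_coe' hc hB, Matrix.mulVec_mulVec (v : Fin M → ℝ) A B]

theorem rs_add (hc : H * H * H = H) (A B : Mat M) : rs hc (A + B) = rs hc A + rs hc B := by
  refine ContinuousLinearMap.ext fun v => Subtype.ext ?_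
  show P1 H *ᵥ ((A + B) *ᵥ (v : Fin M → ℝ)) = P1 H *ᵥ (A *ᵥ (v : Fin M → ℝ)) + P1 H *ᵥ (B *ᵥ (v : Fin M → ℝ))
  rw [Matrix.add_mulVec, Matrix.mulVec_add]

theorem rs_zero (hc : H * H * H = H) : rs hc (0 : Mat M) = 0 := by
  refine ContinuousLinearMap.ext fun v => Subtype.ext ?_
  show P1 H *ᵥ ((0 : Mat M) *ᵥ (v : Fin M → ℝ)) = 0
  rw [Matrix.zero_mulVec, Matrix.mulVec_zero]

theorem rs_one (hc : H * H * H = H) : rs hc (1 : Mat M) = 1 := by
  refine ContinuousLinearMap.ext fun v => Subtype.ext ?_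
  rw [rs_coe' hc (by rw [one_mul, mul_one])]
  show (1 : Mat M) *ᵥ (v : Fin M → ℝ) = (v : Fin M → ℝ)
  rw [Matrix.one_mulVec]

theorem rs_P1 (hc : H * H * H = H) : rs hc (P1 H) = 1 := by
  refine ContinuousLinearMap.ext fun v => Subtype.ext ?_
  rw [rs_coe' hc rfl]
  exact v.2

theorem rs_smul (hc : H * H * H = H) (c : ℝ) (A : Mat M) : rs hc (c • A) = c • rs hc A := by
  refine ContinuousLinearMap.ext fun v => Subtype.ext ?_
  show P1 H *ᵥ ((c • A) *ᵥ (v : Fin M → ℝ)) = c • (P1 H *ᵥ (A *ᵥ (v : Fin M → ℝ)))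
  rw [Matrix.smul_mulVec, Matrix.mulVec_smul]

theorem comm_P1 {A : Mat M} (hA : A * H = H * A) : A * P1 H = P1 H * A := by
  unfold P1
  rw [mul_smul_comm, smul_mul_assoc, mul_add, add_mul, ← mul_assoc, hA, mul_assoc, hA, ← mul_assoc]

theorem exp_mulVec {A : Mat M} {v : Fin M → ℝ} (h : A *ᵥ (A *ᵥ v) = 0) : NormedSpace.exp A *ᵥ v = v + A *ᵥ v := by
  have h1 : HasSum (fun n : ℕ => ((Nat.factorial n : ℝ)⁻¹ • A ^ n)) (NormedSpace.exp A) := by
    open scoped Matrix.Norms.Operator in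
    exact NormedSpace.exp_series_hasSum_exp' (𝕂 := ℝ) A
  have h2 : HasSum (fun n : ℕ => ((Nat.factorial n : ℝ)⁻¹ • A ^ n) *ᵥ v) (NormedSpace.exp A *ᵥ v) := by
    let f : Mat M →ₗ[ℝ] (Fin M → ℝ) :=
      { toFun := fun B => B *ᵥ v
        map_add' := fun B C => Matrix.add_mulVec B C v
        map_smul' := fun c B => Matrix.smul_mulVec c B v }
    have hf : Continuous f := LinearMap.continuous_of_finiteDimensional f
    exact h1.map f hf
  have h3 : HasSum (fun n : ℕ => ((Nat.factorial n : ℝ)⁻¹ • A ^ n) *ᵥ v) (∑ n ∈ Finset.range 2, ((Nat.factorial n : ℝ)⁻¹ • A ^ n) *ᵥ v) := by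
    refine hasSum_sum_of_ne_finset_zero fun n hn => ?_
    rw [Finset.mem_range, not_lt] at hn
    obtain ⟨k, rfl⟩ := Nat.exists_eq_add_of_le hn
    rw [add_comm, pow_add, pow_two, Matrix.smul_mulVec, ← Matrix.mulVec_mulVec, ← Matrix.mulVec_mulVec, h, Matrix.mulVec_zero, smul_zero]
  have h4 := h2.unique h3
  rw [h4, Finset.sum_range_succ, Finset.sum_range_one]
  simp

end V

variable {G : Subgroup (GL (Fin M) ℝ)} {m d : ℕ}

theorem VSrc.P1_eq (s : VSrc G m d) : ∑ i, s.E i = P1 s.H := s.sumE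

theorem VSrc.EP (s : VSrc G m d) (i : Fin m) : s.E i * P1 s.H = s.E i := by
  rw [← s.P1_eq, Finset.mul_sum, Finset.sum_eq_single i]
  · rw [s.EE, if_pos rfl]
  · intro j _ hj
    rw [s.EE, if_neg (Ne.symm hj)]
  · intro h
    exact absurd (Finset.mem_univ i) h

theorem VSrc.PE (s : VSrc G m d) (i : Fin m) : P1 s.H * s.E i = s.E i := by
  rw [← s.P1_eq, Finset.sum_mul, Finset.sum_eq_single i]
  · rw [s.EE, if_pos rfl]
  · intro j _ hj
    rw [s.EE, if_neg hj]
  · intro h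
    exact absurd (Finset.mem_univ i) h

theorem lv_comm {H : Mat M} (s : lv G H) : ((s : GL (Fin M) ℝ) : Mat M) * P1 H = P1 H * ((s : GL (Fin M) ℝ) : Mat M) := comm_P1 s.2.2

/-- The blocks. -/
noncomputable def VSrc.blk (s : VSrc G m d) : Blk (lv G s.H) (VV s.H) m where
  φ :=
    { toFun := fun g => rs s.cub ((g : GL (Fin M) ℝ) : Mat M)
      map_one' := rs_one s.cub
      map_mul' := fun g h => by
        show rs s.cub (((g * h : lv G s.H) : GL (Fin M) ℝ) : Mat M) = _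
        rw [Subgroup.coe_mul, Units.val_mul, rs_mul s.cub _ (lv_comm h)] }
  E i := rs s.cub (s.E i)
  EE i j := by
    rw [← rs_mul s.cub _ (by rw [s.EP, s.PE]), s.EE]
    split_ifs with h
    · rfl
    · exact rs_zero s.cub
  sumE := by
    have : ∀ t : Finset (Fin m), ∑ i ∈ t, rs s.cub (s.E i) = rs s.cub (∑ i ∈ t, s.E i) := by
      intro t
      induction t using Finset.induction_on with
      | empty => rw [Finset.sum_empty, Finset.sum_empty, rs_zero]
      | insert a t ha ih => rw [Finset.sum_insert ha, Finset.sum_insert ha, ih, rs_add]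
    rw [this, s.P1_eq, rs_P1]
  Y i j := rs s.cub (s.Y i j)
  u i j τ := if h : i = j then 1 else ⟨ex (τ • s.Y i j), mem_lie.1 (s.Yl i j h) τ, by
    have h1 : Commute (τ • s.Y i j) s.H := by
      show τ • s.Y i j * s.H = s.H * (τ • s.Y i j)
      rw [smul_mul_assoc, mul_smul_comm, s.YH i j h]
    exact (Commute.exp_left h1)⟩
  hu i j hij τ := by
    have hYP : s.Y i j * P1 s.H = P1 s.H * s.Y i j := comm_P1 (s.YH i j hij)
    have hYE : s.Y i j * P1 s.H = s.E j * s.Y i j * s.E i := s.YE i j hij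
    rw [dif_neg hij]
    refine ContinuousLinearMap.ext fun v => Subtype.ext ?_
    show ((rs s.cub (NormedSpace.exp (τ • s.Y i j)) v : VV s.H) : Fin M → ℝ) = (v : Fin M → ℝ) + ((τ • rs s.cub (s.Y i j)) v : VV s.H)
    have h2 : (τ • s.Y i j) *ᵥ ((τ • s.Y i j) *ᵥ (v : Fin M → ℝ)) = 0 := by
      have h6 : s.E i * s.E j = 0 := by rw [s.EE, if_neg hij]
      have h5 : s.Y i j * (s.Y i j * P1 s.H) = 0 := by
        rw [hYE]
        calc s.Y i j * (s.E j * s.Y i j * s.E i) = s.Y i j * (P1 s.H * s.E j) * s.Y i j * s.E i := by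
              rw [s.PE]; noncomm_ring
          _ = (s.Y i j * P1 s.H) * s.E j * s.Y i j * s.E i := by noncomm_ring
          _ = s.E j * s.Y i j * (s.E i * s.E j) * (s.Y i j * s.E i) := by rw [hYE]; noncomm_ring
          _ = 0 := by rw [h6, mul_zero, zero_mul]
      have h4 : s.Y i j *ᵥ (s.Y i j *ᵥ (v : Fin M → ℝ)) = 0 := by
        conv_lhs => rw [← v.2]
        rw [Matrix.mulVec_mulVec, Matrix.mulVec_mulVec, mul_assoc, h5, Matrix.zero_mulVec]
      rw [Matrix.smul_mulVec, Matrix.smul_mulVec, Matrix.mulVec_smul, h4, smul_zero, smul_zero]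
    have h7 : NormedSpace.exp (τ • s.Y i j) * P1 s.H = P1 s.H * NormedSpace.exp (τ • s.Y i j) := by
      have h1 : Commute (τ • s.Y i j) (P1 s.H) := by
        show τ • s.Y i j * P1 s.H = P1 s.H * (τ • s.Y i j)
        rw [smul_mul_assoc, mul_smul_comm, hYP]
      exact (Commute.exp_left h1)
    rw [rs_coe' s.cub h7, exp_mulVec h2]
    congr 1
    show (τ • s.Y i j) *ᵥ (v : Fin M → ℝ) = τ • ((rs s.cub (s.Y i j) v : VV s.H) : Fin M → ℝ)
    rw [rs_coe' s.cub hYP, Matrix.smul_mulVec]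
  YE i j hij := by
    have hYE : s.Y i j * P1 s.H = s.E j * s.Y i j * s.E i := s.YE i j hij
    rw [← rs_mul s.cub _ (by rw [s.YH i j hij |> comm_P1]), ← rs_mul s.cub _ (by rw [s.EP, s.PE]), ← hYE, rs_mul s.cub _ rfl, rs_P1, mul_one]
  Yinj i j hij v hv := by
    have hYP : s.Y i j * P1 s.H = P1 s.H * s.Y i j := comm_P1 (s.YH i j hij)
    have hEP : s.E i * P1 s.H = P1 s.H * s.E i := by rw [s.EP, s.PE]
    have h1 := congrArg (fun w : VV s.H => (w : Fin M → ℝ)) hv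
    change ((rs s.cub (s.Y i j) (rs s.cub (s.E i) v) : VV s.H) : Fin M → ℝ) = 0 at h1
    rw [rs_coe' s.cub hYP, rs_coe' s.cub hEP] at h1
    refine Subtype.ext ?_
    rw [rs_coe' s.cub hEP]
    exact s.Yinj i j hij _ h1

end Pool.Agent.Helper43.TZ
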