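import Pool.Agent.Helper43.TZ.SGlue2

/-!
# Project TZ, block SGlue3: `Dir` from `VSrc`
-/

set_option autoImplicit false
set_option linter.unusedSectionVars false

open MeasureTheory Filter Topology Matrix

namespace Pool.Agent.Helper43.TZ

open Pool.Agent.Helper96.SA Pool.Agent.Helper96.FR Pool.Agent.Helper43.TA

variable {M : ℕ}

section Kap

/-- The first nonzero column of `A`. -/
noncomputable def k0 (A : Mat M) : Fin M → ℝ :=
  ∑ j, (if (A *ᵥ Pi.single j 1 ≠ 0 ∧ ∀ i, i < j → A *ᵥ Pi.single i 1 = 0) then A *ᵥ Pi.single j 1 else 0)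

theorem k0_mem {H A : Mat M} (hA : P1 H * A = A) : P1 H *ᵥ k0 A = k0 A := by
  unfold k0
  rw [Matrix.mulVec_sum]
  refine Finset.sum_congr rfl fun j _ => ?_
  split_ifs with h
  · rw [Matrix.mulVec_mulVec, hA]
  · exact Matrix.mulVec_zero _

theorem k0_ne {A : Mat M} (hA : A ≠ 0) : k0 A ≠ 0 := by
  classical
  have h1 : ∃ j, A *ᵥ Pi.single j 1 ≠ 0 := by
    by_contra hcon
    push Not at hcon
    apply hA
    ext i j
    have := congrFun (hcon j) i
    rw [Matrix.mulVec_single_one] at this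
    exact this
  have hne : (Finset.univ.filter fun j => A *ᵥ Pi.single j 1 ≠ 0).Nonempty := by
    obtain ⟨j, hj⟩ := h1
    exact ⟨j, by simp only [Finset.mem_filter, Finset.mem_univ, true_and]; exact hj⟩
  obtain ⟨j, hj⟩ : ∃ j, j = (Finset.univ.filter fun j => A *ᵥ Pi.single j 1 ≠ 0).min' hne := ⟨_, rfl⟩
  have hj1 : A *ᵥ Pi.single j 1 ≠ 0 := by
    have := Finset.min'_mem _ hne
    rw [← hj] at this
    simp only [Finset.mem_filter, Finset.mem_univ, true_and] at this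
    exact this
  have hj2 : ∀ i, i < j → A *ᵥ Pi.single i 1 = 0 := by
    intro i hi
    by_contra hcon
    have h2 := Finset.min'_le (Finset.univ.filter fun j => A *ᵥ Pi.single j 1 ≠ 0) i (by
      simp only [Finset.mem_filter, Finset.mem_univ, true_and]; exact hcon)
    rw [← hj] at h2
    exact absurd h2 (not_le.2 hi)
  have h3 : k0 A = A *ᵥ Pi.single j 1 := by
    unfold k0
    rw [Finset.sum_eq_single j]
    · rw [if_pos ⟨hj1, hj2⟩]
    · intro i _ hij
      rw [if_neg]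
      rintro ⟨h4, h5⟩
      rcases lt_or_gt_of_ne hij with h6 | h6
      · exact h4 (hj2 i h6)
      · exact hj1 (h5 j h6)
    · intro h
      exact absurd (Finset.mem_univ j) h
  rw [h3]
  exact hj1

theorem k0_mul {B B' A : Mat M} (hB : B' * B = 1) : k0 (B * A) = B *ᵥ k0 A := by
  have h0 : ∀ v : Fin M → ℝ, B *ᵥ v = 0 ↔ v = 0 := by
    intro v
    constructor
    · intro h
      have := congrArg (fun w => B' *ᵥ w) h
      simp only [Matrix.mulVec_mulVec, hB, Matrix.one_mulVec, Matrix.mulVec_zero] at this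
      exact this
    · intro h
      rw [h, Matrix.mulVec_zero]
  have h1 : ∀ j : Fin M, (B * A) *ᵥ Pi.single j 1 = B *ᵥ (A *ᵥ Pi.single j 1) := fun j => by rw [Matrix.mulVec_mulVec]
  unfold k0
  rw [Matrix.mulVec_sum]
  refine Finset.sum_congr rfl fun j _ => ?_
  simp only [h1, h0, ne_eq]
  split_ifs with h
  · rfl
  · rw [Matrix.mulVec_zero]

theorem measurable_k0 {X : Type} [MeasurableSpace X] {f : X → Mat M} (hf : ∀ v : Fin M → ℝ, Measurable fun x => f x *ᵥ v) :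
    Measurable fun x => k0 (f x) := by
  unfold k0
  refine Finset.measurable_sum _ fun j _ => ?_
  refine Measurable.ite ?_ (hf _) measurable_const
  refine MeasurableSet.inter ?_ ?_
  · exact ((hf _) (measurableSet_singleton 0)).compl
  · have : {x : X | ∀ i, i < j → f x *ᵥ Pi.single i 1 = 0} = ⋂ i, ⋂ (_ : i < j), {x : X | f x *ᵥ Pi.single i 1 = 0} := by
      ext A
      simp
    have h2 : MeasurableSet {x : X | ∀ i, i < j → f x *ᵥ Pi.single i 1 = 0} := by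
      rw [this]
      exact MeasurableSet.iInter fun i => MeasurableSet.iInter fun _ => (hf _) (measurableSet_singleton 0)
    exact h2

end Kap

variable {G : Subgroup (GL (Fin M) ℝ)} {m d : ℕ}

/-- The boundary: nonzero vectors of the eigenspace. -/
abbrev Om (H : Mat M) : Type := {v : Fin M → ℝ // P1 H *ᵥ v = v ∧ v ≠ 0}

instance (G : Subgroup (GL (Fin M) ℝ)) (H : Mat M) : MulAction (lv G H) (Om H) where
  smul s v := ⟨((s : GL (Fin M) ℝ) : Mat M) *ᵥ (v : Fin M → ℝ), by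
    refine ⟨?_, fun h => v.2.2 ?_⟩
    · rw [Matrix.mulVec_mulVec, ← lv_comm s, ← Matrix.mulVec_mulVec, v.2.1]
    · have := congrArg (fun w => (((s : GL (Fin M) ℝ)⁻¹ : GL (Fin M) ℝ) : Mat M) *ᵥ w) h
      simp only [Matrix.mulVec_mulVec, Matrix.mulVec_zero] at this
      rwa [Units.inv_mul, Matrix.one_mulVec] at this⟩
  one_smul v := Subtype.ext (Matrix.one_mulVec _)
  mul_smul s t v := Subtype.ext (by
    show (((s * t : lv G H) : GL (Fin M) ℝ) : Mat M) *ᵥ (v : Fin M → ℝ) = _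
    rw [Subgroup.coe_mul, Units.val_mul, ← Matrix.mulVec_mulVec]
    rfl)

theorem smul_coe {H : Mat M} (s : lv G H) (v : Om H) : ((s • v : Om H) : Fin M → ℝ) = ((s : GL (Fin M) ℝ) : Mat M) *ᵥ (v : Fin M → ℝ) := rfl

theorem VSrc.P1_ne (s : VSrc G m d) (hm : 0 < m) : P1 s.H ≠ 0 := by
  intro h
  have h1 := s.EP ⟨0, hm⟩
  rw [h, mul_zero] at h1
  exact s.E0 _ h1.symm

theorem unit_ne {H : Mat M} (hP : P1 H ≠ 0) (g : GL (Fin M) ℝ) : P1 H * (g : Mat M) ≠ 0 := by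
  intro h
  apply hP
  have := congrArg (fun A => A * ((g⁻¹ : GL (Fin M) ℝ) : Mat M)) h
  simp only [zero_mul, mul_assoc, Units.mul_inv, mul_one] at this
  exact this

/-- The boundary map. -/
noncomputable def VSrc.kap (s : VSrc G m d) (hm : 0 < m) (g : G) : Om s.H :=
  ⟨k0 (P1 s.H * ((g : GL (Fin M) ℝ) : Mat M)), k0_mem (by rw [← mul_assoc, P11 s.cub]), k0_ne (unit_ne (s.P1_ne hm) _)⟩

theorem VSrc.kap_meas (s : VSrc G m d) (hm : 0 < m) (D : Set (Om s.H)) (hD : MeasurableSet D) : MeasurableSet[borel G] (s.kap hm ⁻¹' D) := by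
  let _ : MeasurableSpace G := borel G
  have _ : BorelSpace G := ⟨rfl⟩
  have h1 : Measurable (s.kap hm) := by
    refine Measurable.subtype_mk (measurable_k0 fun v => ?_)
    have hc : Continuous fun g : G => (P1 s.H * ((g : GL (Fin M) ℝ) : Mat M)) *ᵥ v :=
      (continuous_const.mul (Units.continuous_val.comp continuous_subtype_val)).matrix_mulVec continuous_const
    exact hc.measurable
  exact h1 hD

theorem VSrc.ex_coe' (s : VSrc G m d) {F : Subgroup G} {par : G → ℝ} (hF : ∀ f ∈ F, (f : GL (Fin M) ℝ) = ex (par f • s.H)) {b : G} (hb : b ∈ F) :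
    (b : GL (Fin M) ℝ) = ex (par b • s.H) := hF b hb

/-- Contracted elements (in `G`). -/
theorem VSrc.contr (s : VSrc G m d) {F : Subgroup G} {par : G → ℝ} (hF : ∀ f ∈ F, (f : GL (Fin M) ℝ) = ex (par f • s.H))
    {b : ℕ → G} {l : Filter ℕ} [l.NeBot] (hb : ∀ n, b n ∈ F) (hp : Tendsto (fun n => par (b n)) l atTop) {q : G}
    (hq : Tendsto (fun n => b n * q * (b n)⁻¹) l (𝓝 1)) : P1 s.H * ((q : GL (Fin M) ℝ) : Mat M) = P1 s.H := by
  refine P1_of_contr s.symm s.cub hp ?_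
  have h1 : Tendsto (fun n => ((b n * q * (b n)⁻¹ : G) : GL (Fin M) ℝ)) l (𝓝 ((1 : G) : GL (Fin M) ℝ)) :=
    (continuous_subtype_val.tendsto _).comp hq
  refine h1.congr fun n => ?_
  rw [Subgroup.coe_mul, Subgroup.coe_mul, Subgroup.coe_inv, hF _ (hb n)]

theorem VSrc.contr' (s : VSrc G m d) {F : Subgroup G} {par : G → ℝ} (hF : ∀ f ∈ F, (f : GL (Fin M) ℝ) = ex (par f • s.H))
    {b : ℕ → G} {l : Filter ℕ} (hb : ∀ n, b n ∈ F) (hp : Tendsto (fun n => par (b n)) l atTop) {X : Mat M} (hX : X ∈ lie G)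
    (hHX : s.H * X - X * s.H = -X) (t : ℝ) :
    Tendsto (fun n => b n * (⟨ex (t • X), mem_lie.1 hX t⟩ : G) * (b n)⁻¹) l (𝓝 1) := by
  rw [tendsto_subtype_rng]
  have h1 : Tendsto (fun n => ex ((t * Real.exp (-(par (b n)))) • X)) l (𝓝 1) := by
    have h2 : Tendsto (fun n => (t * Real.exp (-(par (b n)))) • X) l (𝓝 ((t * 0) • X)) :=
      Tendsto.smul_const (Tendsto.const_mul t (Real.tendsto_exp_neg_atTop_nhds_zero.comp hp)) X
    rw [mul_zero, zero_smul] at h2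
    have h3 := (continuous_ex.tendsto (0 : Mat M)).comp h2
    rwa [ex_zero] at h3
  refine h1.congr fun n => ?_
  rw [Subgroup.coe_mul, Subgroup.coe_mul, Subgroup.coe_inv, hF _ (hb n)]
  exact (conj_ex s.symm hHX _ _).symm

/-- The good elements. -/
def VSrc.good (s : VSrc G m d) : Set (lv G s.H) :=
  {t | ∃ i j, i ≠ j ∧ (∀ v, s.blk.E i (s.blk.φ t⁻¹ (s.blk.E j v)) = 0 → s.blk.E j v = 0) ∧
    ∀ v w, s.blk.φ t (s.blk.E j v) = s.blk.E i w → s.blk.E i w = 0}

theorem VSrc.blkE_coe (s : VSrc G m d) (i : Fin m) (v : VV s.H) : ((s.blk.E i v : VV s.H) : Fin M → ℝ) = s.E i *ᵥ (v : Fin M → ℝ) :=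
  rs_coe' s.cub (by rw [s.EP, s.PE]) v

theorem VSrc.blkφ_coe (s : VSrc G m d) (t : lv G s.H) (v : VV s.H) :
    ((s.blk.φ t v : VV s.H) : Fin M → ℝ) = ((t : GL (Fin M) ℝ) : Mat M) *ᵥ (v : Fin M → ℝ) :=
  rs_coe' s.cub (lv_comm t) v

/-- A sequence of elements which tends to `1` in a direction of `W` has good elements. -/
theorem VSrc.exists_good (s : VSrc G m d) (t : ℕ → lv G s.H) (τ : ℕ → ℝ) (X : Mat M) (hX : X ∈ s.W) (hX0 : X ≠ 0) (hτ : ∀ n, 0 < τ n)
    (hτ0 : Tendsto τ atTop (𝓝 0)) (ht : Tendsto (fun n => (τ n)⁻¹ • (((t n : GL (Fin M) ℝ) : Mat M) - 1)) atTop (𝓝 X)) : ∃ n, t n ∈ s.good := by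
  obtain ⟨i, j, hij, hinj⟩ := s.Winj X hX hX0
  by_contra hcon
  push Not at hcon
  let T : ℕ → Mat M := fun n => ((t n : GL (Fin M) ℝ) : Mat M)
  let T' : ℕ → Mat M := fun n => (((t n : GL (Fin M) ℝ)⁻¹ : GL (Fin M) ℝ) : Mat M)
  have hji : s.E j * s.E i = 0 := by rw [s.EE, if_neg (Ne.symm hij)]
  have hij' : s.E i * s.E j = 0 := by rw [s.EE, if_neg hij]
  -- bad unit vectors
  have h1 : ∀ n, ∃ v : Fin M → ℝ, ‖v‖ = 1 ∧ s.E i *ᵥ v = v ∧ (s.E j *ᵥ (T' n *ᵥ v) = 0 ∨ s.E j *ᵥ (T n *ᵥ v) = T n *ᵥ v) := by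
    intro n
    have h2 : ∃ u : Fin M → ℝ, u ≠ 0 ∧ s.E i *ᵥ u = u ∧ (s.E j *ᵥ (T' n *ᵥ u) = 0 ∨ s.E j *ᵥ (T n *ᵥ u) = T n *ᵥ u) := by
      by_contra hno
      push Not at hno
      refine hcon n ⟨j, i, Ne.symm hij, fun v hv => ?_, fun v w hv => ?_⟩
      · by_contra h0
        have h3 : ((s.blk.E i v : VV s.H) : Fin M → ℝ) ≠ 0 := fun h => h0 (Subtype.ext h)
        have h4 := hno _ h3 (by rw [s.blkE_coe, Matrix.mulVec_mulVec, s.EE, if_pos rfl])
        apply h4.1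
        have h5 := congrArg (fun w : VV s.H => (w : Fin M → ℝ)) hv
        simp only [s.blkE_coe j, s.blkφ_coe] at h5
        exact h5
      · by_contra h0
        have h3 : ((s.blk.E i v : VV s.H) : Fin M → ℝ) ≠ 0 := by
          intro h
          apply h0
          have h6 : s.blk.E i v = 0 := Subtype.ext h
          rw [← hv, h6, map_zero]
        have h4 := hno _ h3 (by rw [s.blkE_coe, Matrix.mulVec_mulVec, s.EE, if_pos rfl])
        apply h4.2
        have h5 := congrArg (fun w : VV s.H => (w : Fin M → ℝ)) hv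
        simp only [s.blkφ_coe, s.blkE_coe j] at h5
        show s.E j *ᵥ (((t n : GL (Fin M) ℝ) : Mat M) *ᵥ ((s.blk.E i v : VV s.H) : Fin M → ℝ)) = ((t n : GL (Fin M) ℝ) : Mat M) *ᵥ ((s.blk.E i v : VV s.H) : Fin M → ℝ)
        rw [h5, Matrix.mulVec_mulVec, s.EE, if_pos rfl]
    obtain ⟨u, hu, hu1, hu2⟩ := h2
    have hn : ‖u‖ ≠ 0 := norm_ne_zero_iff.2 hu
    refine ⟨‖u‖⁻¹ • u, ?_, ?_, ?_⟩
    · rw [norm_smul, norm_inv, norm_norm, inv_mul_cancel₀ hn]
    · rw [Matrix.mulVec_smul, hu1]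
    · rcases hu2 with h | h
      · left
        rw [Matrix.mulVec_smul, Matrix.mulVec_smul, h, smul_zero]
      · right
        rw [Matrix.mulVec_smul, Matrix.mulVec_smul, h]
  choose v hv1 hv2 hv3 using h1
  obtain ⟨v0, hv0, φ, hφ, hlim⟩ := (isCompact_sphere (0 : Fin M → ℝ) 1).tendsto_subseq (x := v) fun n => by
    rw [mem_sphere_zero_iff_norm]
    exact hv1 n
  rw [mem_sphere_zero_iff_norm] at hv0
  have hφ' := hφ.tendsto_atTop
  have hEv0 : s.E i *ᵥ v0 = v0 := by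
    have h2 : Tendsto (fun n => s.E i *ᵥ v (φ n)) atTop (𝓝 (s.E i *ᵥ v0)) :=
      ((continuous_const.matrix_mulVec continuous_id).tendsto v0).comp hlim
    have h3 : (fun n => s.E i *ᵥ v (φ n)) = v ∘ φ := funext fun n => hv2 (φ n)
    rw [h3] at h2
    exact tendsto_nhds_unique h2 hlim
  have hT : Tendsto T atTop (𝓝 1) := by
    have h2 := hτ0.smul ht
    rw [zero_smul] at h2
    have h3 := h2.add_const (1 : Mat M)
    rw [zero_add] at h3
    refine h3.congr fun n => ?_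
    rw [smul_smul, mul_inv_cancel₀ (hτ n).ne', one_smul, sub_add_cancel]
  have hT' : Tendsto T' atTop (𝓝 1) := by
    have h2 : Tendsto (fun n => (t n : GL (Fin M) ℝ)) atTop (𝓝 1) := by
      rw [isEmbedding_val.tendsto_nhds_iff]
      exact hT
    have h3 := h2.inv
    rw [inv_one] at h3
    exact (Units.continuous_val.tendsto _).comp h3
  have hne : v0 ≠ 0 := by
    intro h
    rw [h, norm_zero] at hv0
    exact zero_ne_one hv0
  have hfr : (∃ᶠ n in atTop, s.E j *ᵥ (T' (φ n) *ᵥ v (φ n)) = 0) ∨ ∃ᶠ n in atTop, s.E j *ᵥ (T (φ n) *ᵥ v (φ n)) = T (φ n) *ᵥ v (φ n) := by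
    rw [← frequently_or_distrib]
    exact Frequently.of_forall fun n => hv3 (φ n)
  have hmv : ∀ {A : ℕ → Mat M} {A0 : Mat M} {w : ℕ → Fin M → ℝ} {w0 : Fin M → ℝ}, Tendsto A atTop (𝓝 A0) → Tendsto w atTop (𝓝 w0) →
      Tendsto (fun n => A n *ᵥ w n) atTop (𝓝 (A0 *ᵥ w0)) := by
    intro A A0 w w0 hA hw
    have h2 : Continuous fun p : Mat M × (Fin M → ℝ) => p.1 *ᵥ p.2 := continuous_fst.matrix_mulVec continuous_snd
    exact (h2.tendsto (A0, w0)).comp (hA.prodMk_nhds hw)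
  rcases hfr with hfr | hfr
  · -- the component of the inverse
    have e1 : ∀ n, s.E j *ᵥ (T' (φ n) *ᵥ v (φ n)) = -(τ (φ n) • (s.E j *ᵥ ((T' (φ n) * ((τ (φ n))⁻¹ • (T (φ n) - 1))) *ᵥ v (φ n)))) := by
      intro n
      have e2 : T' (φ n) * T (φ n) = 1 := Units.inv_mul _
      have e3 : T' (φ n) = 1 - T' (φ n) * (T (φ n) - 1) := by
        rw [mul_sub, e2, mul_one]
        abel
      have e4 : s.E j *ᵥ v (φ n) = 0 := by
        rw [← hv2 (φ n), Matrix.mulVec_mulVec, hji, Matrix.zero_mulVec]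
      conv_lhs => rw [e3]
      rw [Matrix.sub_mulVec, Matrix.one_mulVec, Matrix.mulVec_sub, e4, zero_sub, mul_smul_comm, Matrix.smul_mulVec, Matrix.mulVec_smul, smul_smul,
        mul_inv_cancel₀ (hτ _).ne', one_smul]
    have h2 : Tendsto (fun n => s.E j *ᵥ ((T' (φ n) * ((τ (φ n))⁻¹ • (T (φ n) - 1))) *ᵥ v (φ n))) atTop (𝓝 (s.E j *ᵥ ((1 * X) *ᵥ v0))) :=
      hmv tendsto_const_nhds (hmv ((hT'.comp hφ').mul (ht.comp hφ')) hlim)
    rw [one_mul] at h2
    have h3 : s.E j *ᵥ (X *ᵥ v0) ∈ ({0} : Set (Fin M → ℝ)) := by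
      refine isClosed_singleton.mem_of_frequently_of_tendsto (hfr.mono fun n hn => ?_) h2
      rw [e1, neg_eq_zero, smul_eq_zero] at hn
      exact hn.resolve_left (hτ _).ne'
    have h4 := hinj v0 (by rw [hEv0]; exact h3)
    rw [hEv0] at h4
    exact hne h4
  · have h2 : Tendsto (fun n => s.E j *ᵥ (T (φ n) *ᵥ v (φ n)) - T (φ n) *ᵥ v (φ n)) atTop (𝓝 (s.E j *ᵥ ((1 : Mat M) *ᵥ v0) - (1 : Mat M) *ᵥ v0)) :=
      (hmv tendsto_const_nhds (hmv (hT.comp hφ') hlim)).sub (hmv (hT.comp hφ') hlim)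
    have h3 : s.E j *ᵥ ((1 : Mat M) *ᵥ v0) - (1 : Mat M) *ᵥ v0 ∈ ({0} : Set (Fin M → ℝ)) := by
      refine isClosed_singleton.mem_of_frequently_of_tendsto (hfr.mono fun n hn => ?_) h2
      show _ = _
      rw [hn, sub_self]
    rw [Matrix.one_mulVec, Set.mem_singleton_iff, sub_eq_zero] at h3
    apply hne
    rw [← h3, ← hEv0, Matrix.mulVec_mulVec, hji, Matrix.zero_mulVec]

end Pool.Agent.Helper43.TZ
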