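import Pool.Agent.Helper43.TZ.SGlue3

/-!
# Project TZ, block SGlue4: `Dir` from `VSrc`, conclusion
-/

set_option autoImplicit false
set_option linter.unusedSectionVars false

open MeasureTheory Filter Topology Matrix

namespace Pool.Agent.Helper43.TZ

open Pool.Agent.Helper96.SA Pool.Agent.Helper96.FR Pool.Agent.Helper43.TA

variable {M : ℕ} {G : Subgroup (GL (Fin M) ℝ)} {m d : ℕ}

/-- The inclusion of the boundary in the eigenspace. -/
def toVV {H : Mat M} (x : Om H) : VV H := ⟨x.1, x.2.1⟩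

theorem continuous_toVV {H : Mat M} : Continuous (toVV : Om H → VV H) := continuous_subtype_val.subtype_mk _

theorem toVV_ne {H : Mat M} (x : Om H) : toVV x ≠ 0 := fun h => x.2.2 (congrArg (fun w : VV H => (w : Fin M → ℝ)) h)

theorem toVV_smul (s : VSrc G m d) (t : lv G s.H) (x : Om s.H) : toVV (t • x) = s.blk.φ t (toVV x) :=
  Subtype.ext (by rw [s.blkφ_coe]; rfl)

theorem continuous_smul_Om {H : Mat M} (t : lv G H) : Continuous fun x : Om H => t • x := by
  refine Continuous.subtype_mk ?_ _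
  exact continuous_const.matrix_mulVec continuous_subtype_val

instance {H : Mat M} : MeasurableConstSMul (lv G H) (Om H) := ⟨fun t => (continuous_smul_Om t).measurable⟩

theorem exists_dir (s : VSrc G m d) (hm : 0 < m) (hd : 0 < d) (F : Subgroup G) (par : G → ℝ)
    (hF : ∀ f ∈ F, (f : GL (Fin M) ℝ) = ex (par f • s.H)) : Nonempty (Dir G F par d) := by
  have hW0 : s.W ≠ ⊥ := by
    intro h
    have := s.Wd
    rw [h, finrank_bot] at this
    omega
  obtain ⟨Fm, hFm1, hFm2⟩ := exists_fam (lv G s.H) (isClosed_lv s.closed s.H) s.W (fun X hX => by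
    rw [mem_lie]
    intro t
    refine ⟨mem_lie.1 (s.Wl X hX) t, ?_⟩
    have h1 : Commute (t • X) s.H := by
      show t • X * s.H = s.H * (t • X)
      rw [smul_mul_assoc, mul_smul_comm, s.WH X hX]
    exact (Commute.exp_left h1)) hW0 s.good (fun t τ X hX hX0 hτ hτ0 ht => s.exists_good t τ X hX hX0 hτ hτ0 ht)
  refine ⟨{
    S' := lv G s.H
    ι := Subgroup.inclusion (lv_le G s.H)
    ιc := continuous_subtype_val.subtype_mk _
    cm := ?_
    Ω := Om s.H
    κ := s.kap hm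
    κm := s.kap_meas hm
    κs := ?_
    κq := ?_
    maut := ?_
    fam := Fm
    famd := hFm1.trans s.Wd
    mult := Module.finrank ℝ (VV s.H)
    pp := ?_ }⟩
  · intro t f hf
    refine Subtype.ext ?_
    show (t : GL (Fin M) ℝ) * (f : GL (Fin M) ℝ) = (f : GL (Fin M) ℝ) * (t : GL (Fin M) ℝ)
    rw [hF f hf]
    refine ex_commute ?_
    rw [mul_smul_comm, smul_mul_assoc, t.2.2]
  · intro t g
    refine Subtype.ext ?_
    show k0 (P1 s.H * (((t : GL (Fin M) ℝ) * (g : GL (Fin M) ℝ) : GL (Fin M) ℝ) : Mat M)) = ((t : GL (Fin M) ℝ) : Mat M) *ᵥ k0 (P1 s.H * ((g : GL (Fin M) ℝ) : Mat M))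
    rw [Units.val_mul, ← mul_assoc, ← lv_comm t, mul_assoc, k0_mul (Units.inv_mul _)]
  · intro b l _ hb hp q hq g
    refine Subtype.ext ?_
    show k0 (P1 s.H * (((q : GL (Fin M) ℝ) * (g : GL (Fin M) ℝ) : GL (Fin M) ℝ) : Mat M)) = k0 (P1 s.H * ((g : GL (Fin M) ℝ) : Mat M))
    rw [Units.val_mul, ← mul_assoc, s.contr hF hb hp hq]
  · intro b l _ hb hp K _ _ σ ξ hξ h g
    exact s.maut σ ξ hξ (fun X hX hHX τ => h _ (s.contr' hF hb hp hX hHX τ)) g
  · intro t ht k
    obtain ⟨i, j, hij, h1, h2⟩ := hFm2 ht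
    obtain ⟨g, D, hg, hD, hD1, hD2⟩ := pingpong s.blk hij h1 h2 k
    refine ⟨g, fun l => toVV ⁻¹' D l, hg, fun l => ((hD l).preimage continuous_toVV).measurableSet, fun x => hD1 (toVV x) (toVV_ne x), fun x => ?_⟩
    have h3 := hD2 (toVV x) (toVV_ne x)
    have e : {l | (g l)⁻¹ • x ∉ toVV ⁻¹' D l} = {l | s.blk.φ (g l)⁻¹ (toVV x) ∉ D l} := by
      ext l
      simp only [Set.mem_ofPred_eq, Set.mem_preimage, toVV_smul]
    rw [e]
    exact h3

end Pool.Agent.Helper43.TZ
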