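import Pool.Agent.Helper16.TZ.Kap

/-!
# Project TZ, block T1: Kaplansky's density theorem for a pair of representations

`B` a unital star algebra with two representations `π` (on `H`) and `σ` (on `E`); `y` a unitary in the bicommutant of `π(B)`. Then `y` and `y⋆` are approximated on finitely many vectors by `π T`, `π T⋆` with
`T ∈ B`, `‖π T‖ ≤ 2`, `‖σ T‖ ≤ 2`. Proof: `f(a) = 2a(1+a⋆a)⁻¹`, strong-* density (bicommutant theorem for the selfadjoint `2 × 2` matrix); see `Helper16/TZ/Kap.lean`, which gives the bound `1`.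
-/

set_option autoImplicit false

namespace Pool.Agent.Helper43.TZ

variable {H E B : Type} [NormedAddCommGroup H] [InnerProductSpace ℂ H] [CompleteSpace H]
  [NormedAddCommGroup E] [InnerProductSpace ℂ E] [CompleteSpace E] [Ring B] [StarRing B] [Algebra ℂ B] [StarModule ℂ B]

theorem kap (π : B →⋆ₐ[ℂ] (H →L[ℂ] H)) (σ : B →⋆ₐ[ℂ] (E →L[ℂ] E)) (y : H →L[ℂ] H) (hy : star y * y = 1) (hy' : y * star y = 1)
    (hc : ∀ c : H →L[ℂ] H, (∀ b, π b * c = c * π b) → y * c = c * y) (n : ℕ) (v : Fin n → H) (ε : ℝ) (hε : 0 < ε) :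
    ∃ T : B, ‖π T‖ ≤ 2 ∧ ‖σ T‖ ≤ 2 ∧ ∀ i, ‖π T (v i) - y (v i)‖ ≤ ε ∧ ‖π (star T) (v i) - (star y) (v i)‖ ≤ ε := by
  obtain ⟨T, h1, h2, h3⟩ := Pool.Agent.Helper16.TZ.kaplansky π σ y (fun c hc' => (hc c fun b => (hc' b).symm).symm) hy hy' v hε
  exact ⟨T, h1.trans one_le_two, h2.trans one_le_two, h3⟩

end Pool.Agent.Helper43.TZ
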