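import Mathlib

/-!
# Project TZ, block T2: the ping-pong bound

`D i = D i (P i) + D i (1 - P i) = D i (P i) + P' i (D i)`, `∑ ‖P i u‖² ≤ ∑ ⟨u, P i u⟩ ≤ m ‖u‖²`, the same for `P'`; Cauchy-Schwarz.
(`P' i ≤ 1` is not assumed but `‖P' i v‖² ≤ c' ⟨v, P' i v⟩` follows from `P' i ≤ 1`, which is assumed here.)
-/

set_option autoImplicit false
set_option linter.unusedSectionVars false

namespace Pool.Agent.Helper43.TZ

variable {E : Type} [NormedAddCommGroup E] [InnerProductSpace ℂ E] [CompleteSpace E]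

/-- `P² ≤ P` for `0 ≤ P ≤ 1`. -/
theorem sq_le_re {P : E →L[ℂ] E} (h0 : 0 ≤ P) (h1 : P ≤ 1) (x : E) : ‖P x‖ ^ 2 ≤ (inner ℂ x (P x) : ℂ).re := by
  have p0 : P.IsPositive := (ContinuousLinearMap.nonneg_iff_isPositive P).1 h0
  have p1 : (1 - P).IsPositive := (ContinuousLinearMap.le_def P 1).1 h1
  have a1 : 0 ≤ (inner ℂ (P (x - P x)) (x - P x) : ℂ).re := p0.re_inner_nonneg_left _
  have a2 : 0 ≤ (inner ℂ ((1 - P) (P x)) (P x) : ℂ).re := p1.re_inner_nonneg_left _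
  have e2 : (1 - P) (P x) = P (x - P x) := by
    rw [map_sub]
    rfl
  rw [e2] at a2
  have e3 : (inner ℂ (P (x - P x)) (x - P x) : ℂ) + inner ℂ (P (x - P x)) (P x) = inner ℂ (P x) x - inner ℂ (P x) (P x) := by
    rw [← inner_add_right, sub_add_cancel, map_sub, inner_sub_left]
    congr 1
    rw [p0.inner_left_eq_inner_right]
  have e4 := congrArg Complex.re e3
  rw [Complex.add_re, Complex.sub_re] at e4
  have e5 : (inner ℂ (P x) (P x) : ℂ).re = ‖P x‖ ^ 2 := by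
    rw [inner_self_eq_norm_sq_to_K]
    norm_cast
  have e6 : (inner ℂ x (P x) : ℂ).re = (inner ℂ (P x) x : ℂ).re := by
    rw [← inner_conj_symm, Complex.conj_re]
  rw [e5] at e4
  rw [e6]
  linarith

theorem sum_norm_le (k m : ℕ) (P : Fin k → (E →L[ℂ] E)) (h0 : ∀ i, 0 ≤ P i) (h1 : ∀ i, P i ≤ 1)
    (hs : ∀ x, (∑ i, (inner ℂ x (P i x) : ℂ).re) ≤ m * ‖x‖ ^ 2) (x : E) : ∑ i, ‖P i x‖ ≤ Real.sqrt (m * k) * ‖x‖ := by
  have h2 : (∑ i, ‖P i x‖) ^ 2 ≤ (k : ℝ) * ∑ i, ‖P i x‖ ^ 2 := by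
    have := sq_sum_le_card_mul_sum_sq (s := (Finset.univ : Finset (Fin k))) (f := fun i => ‖P i x‖)
    rwa [Finset.card_univ, Fintype.card_fin] at this
  have h3 : ∑ i, ‖P i x‖ ^ 2 ≤ m * ‖x‖ ^ 2 :=
    (Finset.sum_le_sum fun i _ => sq_le_re (h0 i) (h1 i) x).trans (hs x)
  have h4 : (∑ i, ‖P i x‖) ^ 2 ≤ (Real.sqrt (m * k) * ‖x‖) ^ 2 := by
    rw [mul_pow, Real.sq_sqrt (by positivity)]
    refine h2.trans ?_
    calc (k : ℝ) * ∑ i, ‖P i x‖ ^ 2 ≤ k * (m * ‖x‖ ^ 2) := by gcongr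
      _ = m * k * ‖x‖ ^ 2 := by ring
  exact le_of_sq_le_sq h4 (by positivity)

theorem pp_bound (k m : ℕ) (D P P' : Fin k → (E →L[ℂ] E)) (c : ℝ) (hc : 0 ≤ c) (hD : ∀ i, ‖D i‖ ≤ c)
    (h0 : ∀ i, 0 ≤ P i) (h0' : ∀ i, 0 ≤ P' i) (h1 : ∀ i, P i ≤ 1) (h1' : ∀ i, P' i ≤ 1)
    (hs : ∀ x, (∑ i, (inner ℂ x (P i x) : ℂ).re) ≤ m * ‖x‖ ^ 2) (hs' : ∀ x, (∑ i, (inner ℂ x (P' i x) : ℂ).re) ≤ m * ‖x‖ ^ 2)
    (hDP : ∀ i, D i * (1 - P i) = P' i * D i) :
    ‖∑ i, D i‖ ≤ 2 * c * Real.sqrt (m * k) := by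
  -- the bilinear estimate
  have key : ∀ u v : E, ‖(inner ℂ v ((∑ i, D i) u) : ℂ)‖ ≤ 2 * c * Real.sqrt (m * k) * ‖u‖ * ‖v‖ := by
    intro u v
    have e1 : (inner ℂ v ((∑ i, D i) u) : ℂ) = ∑ i, ((inner ℂ v (D i (P i u)) : ℂ) + inner ℂ (P' i v) (D i u)) := by
      rw [sum_apply, inner_sum]
      refine Finset.sum_congr rfl fun i _ => ?_
      have e2 : D i u = D i (P i u) + P' i (D i u) := by
        have e3 := congrArg (fun A : E →L[ℂ] E => A u) (hDP i)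
        have e4 : (D i * (1 - P i)) u = D i u - D i (P i u) := by
          change D i (u - P i u) = _
          rw [map_sub]
        change (D i * (1 - P i)) u = P' i (D i u) at e3
        rw [← e3, e4]
        abel
      have p0 : (P' i).IsPositive := (ContinuousLinearMap.nonneg_iff_isPositive _).1 (h0' i)
      conv_lhs => rw [e2]
      rw [inner_add_right, p0.inner_left_eq_inner_right]
    rw [e1]
    have e5 : ∀ i, ‖(inner ℂ v (D i (P i u)) : ℂ) + inner ℂ (P' i v) (D i u)‖ ≤ c * ‖v‖ * ‖P i u‖ + c * ‖u‖ * ‖P' i v‖ := by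
      intro i
      refine (norm_add_le _ _).trans (add_le_add ?_ ?_)
      · refine (norm_inner_le_norm _ _).trans ?_
        calc ‖v‖ * ‖D i (P i u)‖ ≤ ‖v‖ * (c * ‖P i u‖) := by
              gcongr
              exact (D i).le_of_opNorm_le (hD i) _
          _ = c * ‖v‖ * ‖P i u‖ := by ring
      · refine (norm_inner_le_norm _ _).trans ?_
        calc ‖P' i v‖ * ‖D i u‖ ≤ ‖P' i v‖ * (c * ‖u‖) := by
              gcongr
              exact (D i).le_of_opNorm_le (hD i) _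
          _ = c * ‖u‖ * ‖P' i v‖ := by ring
    refine (norm_sum_le _ _).trans ((Finset.sum_le_sum fun i _ => e5 i).trans ?_)
    rw [Finset.sum_add_distrib, ← Finset.mul_sum, ← Finset.mul_sum]
    have s1 := sum_norm_le k m P h0 h1 hs u
    have s2 := sum_norm_le k m P' h0' h1' hs' v
    calc c * ‖v‖ * ∑ i, ‖P i u‖ + c * ‖u‖ * ∑ i, ‖P' i v‖
        ≤ c * ‖v‖ * (Real.sqrt (m * k) * ‖u‖) + c * ‖u‖ * (Real.sqrt (m * k) * ‖v‖) := by gcongr
      _ = 2 * c * Real.sqrt (m * k) * ‖u‖ * ‖v‖ := by ring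
  refine ContinuousLinearMap.opNorm_le_bound _ (by positivity) fun u => ?_
  set w := (∑ i, D i) u with hw
  rcases eq_or_ne w 0 with h | h
  · rw [h, norm_zero]
    positivity
  · have h2 := key u w
    rw [← hw, inner_self_eq_norm_sq_to_K, norm_pow, RCLike.norm_ofReal, abs_norm] at h2
    have h3 : 0 < ‖w‖ := norm_pos_iff.2 h
    nlinarith

end Pool.Agent.Helper43.TZ
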