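import Pool.Agent.Helper43.TZ.Defs

/-!
# Project TZ, block T3: averaging over a small ball

`F n h = (X h)^n (F0 h)`. On `{ρ h < r}` (`r = (4 (M+1))⁻ⁿ`) `‖F n h - F n 1‖ ≤ L' (n+1) (M+1)^n ρ h`, so `‖F n 1‖ ≤ ‖F n h‖ + L' (n+1) 4⁻ⁿ`; average over the ball (Cauchy-Schwarz):
`‖F n 1‖ ≤ (C κⁿ) / (c rᵈ)^(1/2) + L' (n+1) 4⁻ⁿ`.
-/

set_option autoImplicit false
set_option linter.unusedVariables false

open MeasureTheory Filter Topology
open scoped ENNReal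

namespace Pool.Agent.Helper43.TZ

variable {S2 H : Type} [Group S2] [TopologicalSpace S2] [MeasurableSpace S2] [BorelSpace S2] {μ : Measure S2}
  [NormedAddCommGroup H] [InnerProductSpace ℂ H]

omit [Group S2] [TopologicalSpace S2] [MeasurableSpace S2] [BorelSpace S2] in
theorem pow_diff {A B : H →L[ℂ] H} {u v : H} {N L D r : ℝ} (hN : 1 ≤ N) (hA : ‖A‖ ≤ N) (hB : ‖B‖ ≤ N) (hL : 0 ≤ L)
    (hr : 0 ≤ r) (hAB : ‖A - B‖ ≤ L * r) (huv : ‖u - v‖ ≤ L * r) (hD : D = L * (1 + ‖v‖)) (n : ℕ) :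
    ‖(A ^ n) u - (B ^ n) v‖ ≤ D * (n + 1) * N ^ n * r := by
  have hD0 : 0 ≤ D := by rw [hD]; positivity
  have hN0 : 0 ≤ N := by linarith
  have hb : ∀ n, ‖(B ^ n) v‖ ≤ N ^ n * ‖v‖ := by
    intro n
    induction n with
    | zero => simp
    | succ n ih =>
      have e0 : (B ^ (n + 1)) v = B ((B ^ n) v) := by rw [pow_succ']; rfl
      rw [e0]
      refine (B.le_of_opNorm_le_of_le hB ih).trans (le_of_eq ?_)
      ring
  induction n with
  | zero =>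
    simp only [pow_zero, one_apply_eq_self, Nat.cast_zero, zero_add, mul_one]
    refine huv.trans ?_
    rw [hD]
    nlinarith [norm_nonneg v, mul_nonneg hL hr]
  | succ n ih =>
    have e1 : (A ^ (n + 1)) u - (B ^ (n + 1)) v = A ((A ^ n) u - (B ^ n) v) + (A - B) ((B ^ n) v) := by
      rw [pow_succ', pow_succ', map_sub]
      change A ((A ^ n) u) - B ((B ^ n) v) = A ((A ^ n) u) - A ((B ^ n) v) + (A ((B ^ n) v) - B ((B ^ n) v))
      abel
    rw [e1]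
    refine (norm_add_le _ _).trans ?_
    have e2 : ‖A ((A ^ n) u - (B ^ n) v)‖ ≤ N * (D * (n + 1) * N ^ n * r) := A.le_of_opNorm_le_of_le hA ih
    have e3 : ‖(A - B) ((B ^ n) v)‖ ≤ (L * r) * (N ^ n * ‖v‖) := (A - B).le_of_opNorm_le_of_le hAB (hb n)
    refine (add_le_add e2 e3).trans ?_
    have e4 : (L * r) * (N ^ n * ‖v‖) ≤ D * N ^ (n + 1) * r := by
      have e5 : L * ‖v‖ ≤ D * N := by
        rw [hD]
        nlinarith [mul_nonneg hL (norm_nonneg v), norm_nonneg v]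
      calc (L * r) * (N ^ n * ‖v‖) = (L * ‖v‖) * (N ^ n * r) := by ring
        _ ≤ (D * N) * (N ^ n * r) := by gcongr
        _ = D * N ^ (n + 1) * r := by ring
    push_cast
    calc N * (D * (n + 1) * N ^ n * r) + (L * r) * (N ^ n * ‖v‖) ≤ N * (D * (n + 1) * N ^ n * r) + D * N ^ (n + 1) * r := by gcongr
      _ = D * (n + 1 + 1) * N ^ (n + 1) * r := by ring

theorem avg (z : Siz S2 μ) (X : S2 → (H →L[ℂ] H)) (F0 : S2 → H) (hXc : Continuous X) (hFc : Continuous F0)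
    (L M C κ : ℝ) (hX : ∀ h, ‖X h - X 1‖ ≤ L * z.ρ h) (hM : ‖X 1‖ ≤ M) (hF : ∀ h, ‖F0 h - F0 1‖ ≤ L * z.ρ h)
    (hκ : 0 ≤ κ) (hκ' : κ * (4 * (M + 1)) ^ z.d ≤ 1 / 4)
    (hint : ∀ n : ℕ, ∫⁻ h, ‖((X h) ^ n) (F0 h)‖ₑ ^ 2 ∂μ ≤ ENNReal.ofReal ((C * κ ^ n) ^ 2)) :
    ∃ C' : ℝ, ∀ n : ℕ, ‖((X 1) ^ n) (F0 1)‖ ≤ C' * (n + 1) * (1 / 4) ^ n := by
  obtain ⟨c, hc0, hc⟩ := z.vol
  have hM0 : 0 ≤ M := (norm_nonneg _).trans hM
  set N : ℝ := M + 1 with hN
  have hN1 : 1 ≤ N := by linarith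
  set L' : ℝ := |L| with hL'
  have hL0 : 0 ≤ L' := abs_nonneg _
  set r0 : ℝ := 1 / (L' + 1) with hr0
  have hr00 : 0 < r0 := by positivity
  have hr01 : r0 ≤ 1 := by
    rw [hr0, div_le_one (by positivity)]
    linarith
  set D : ℝ := L' * (1 + ‖F0 1‖) with hD
  have hD0 : 0 ≤ D := by positivity
  set E : ℝ := |C| / Real.sqrt (c * r0 ^ z.d) with hE
  have hcr : 0 < c * r0 ^ z.d := by positivity
  have hE0 : 0 ≤ E := by positivity
  refine ⟨D + E, fun n => ?_⟩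
  set r : ℝ := r0 * (1 / (4 * N)) ^ n with hr
  have h4N : 1 ≤ 4 * N := by linarith
  have hr1 : 0 < r := by positivity
  have hr2 : r ≤ r0 := by
    rw [hr]
    refine mul_le_of_le_one_right hr00.le (pow_le_one₀ (by positivity) ?_)
    rw [div_le_one (by positivity)]
    exact h4N
  -- the difference on the ball
  have hball : ∀ h, z.ρ h < r → ‖((X 1) ^ n) (F0 1)‖ - D * (n + 1) * (1 / 4) ^ n ≤ ‖((X h) ^ n) (F0 h)‖ := by
    intro h hh
    have a1 : L' * z.ρ h ≤ 1 := by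
      have : z.ρ h ≤ r0 := hh.le.trans hr2
      calc L' * z.ρ h ≤ L' * r0 := by gcongr
        _ ≤ 1 := by
          rw [hr0, mul_one_div, div_le_one (by positivity)]
          linarith
    have a2 : ‖X h - X 1‖ ≤ L' * z.ρ h := (hX h).trans (mul_le_mul_of_nonneg_right (le_abs_self L) (z.nonneg h))
    have a3 : ‖F0 h - F0 1‖ ≤ L' * z.ρ h := (hF h).trans (mul_le_mul_of_nonneg_right (le_abs_self L) (z.nonneg h))
    have a4 : ‖X h‖ ≤ N := by
      have := norm_add_le (X h - X 1) (X 1)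
      rw [sub_add_cancel] at this
      linarith
    have a5 := pow_diff hN1 a4 (hM.trans (by linarith)) hL0 (z.nonneg h) a2 a3 hD n
    have a6 : D * (n + 1) * N ^ n * z.ρ h ≤ D * (n + 1) * (1 / 4) ^ n := by
      calc D * (n + 1) * N ^ n * z.ρ h ≤ D * (n + 1) * N ^ n * r := by gcongr
        _ = D * (n + 1) * r0 * (N * (1 / (4 * N))) ^ n := by rw [hr, mul_pow]; ring
        _ = D * (n + 1) * r0 * (1 / 4) ^ n := by
          congr 2
          field_simp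
        _ ≤ D * (n + 1) * 1 * (1 / 4) ^ n := by gcongr
        _ = D * (n + 1) * (1 / 4) ^ n := by ring
    have a7 := norm_sub_norm_le (((X 1) ^ n) (F0 1)) (((X h) ^ n) (F0 h))
    rw [norm_sub_rev] at a7
    linarith
  by_contra hcon
  push Not at hcon
  set β : ℝ := ‖((X 1) ^ n) (F0 1)‖ - D * (n + 1) * (1 / 4) ^ n with hβ
  have hn1 : (1 : ℝ) ≤ n + 1 := by
    have : (0 : ℝ) ≤ n := Nat.cast_nonneg n
    linarith
  have hβ1 : E * (1 / 4) ^ n < β := by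
    have : (D + E) * (n + 1) * (1 / 4) ^ n ≥ D * (n + 1) * (1 / 4) ^ n + E * (1 / 4) ^ n := by
      have : E * (1 / 4) ^ n ≤ E * (n + 1) * (1 / 4) ^ n := by
        calc E * (1 / 4) ^ n = E * 1 * (1 / 4) ^ n := by ring
          _ ≤ E * (n + 1) * (1 / 4) ^ n := by gcongr
      nlinarith
    rw [hβ]
    linarith
  have hβ0 : 0 < β := lt_of_le_of_lt (by positivity) hβ1
  -- the integral over the ball
  have hmeas : MeasurableSet {g | z.ρ g < r} := (isOpen_lt z.cont continuous_const).measurableSet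
  have b1 : ENNReal.ofReal (β ^ 2) * ENNReal.ofReal (c * r ^ z.d) ≤ ENNReal.ofReal ((C * κ ^ n) ^ 2) := by
    calc ENNReal.ofReal (β ^ 2) * ENNReal.ofReal (c * r ^ z.d) ≤ ENNReal.ofReal (β ^ 2) * μ {g | z.ρ g < r} := by
          gcongr
          exact hc r hr1 (hr2.trans hr01)
      _ = ∫⁻ _ in {g | z.ρ g < r}, ENNReal.ofReal (β ^ 2) ∂μ := by rw [setLIntegral_const]
      _ ≤ ∫⁻ h in {g | z.ρ g < r}, ‖((X h) ^ n) (F0 h)‖ₑ ^ 2 ∂μ := by
          refine setLIntegral_mono' hmeas fun h hh => ?_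
          rw [← ofReal_norm, ← ENNReal.ofReal_pow (norm_nonneg _)]
          exact ENNReal.ofReal_le_ofReal (pow_le_pow_left₀ hβ0.le (hball h hh) 2)
      _ ≤ ∫⁻ h, ‖((X h) ^ n) (F0 h)‖ₑ ^ 2 ∂μ := setLIntegral_le_lintegral _ _
      _ ≤ _ := hint n
  rw [← ENNReal.ofReal_mul (by positivity), ENNReal.ofReal_le_ofReal_iff (by positivity)] at b1
  -- the real inequality
  have b2 : β ^ 2 * (c * r0 ^ z.d) ≤ C ^ 2 * ((1 / 4) ^ n) ^ 2 := by
    have q1 : (1 / (4 * N)) ^ (n * z.d) * (4 * N) ^ (n * z.d) = 1 := by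
      rw [← mul_pow, one_div_mul_cancel (by positivity), one_pow]
    have q2 : r ^ z.d = r0 ^ z.d * (1 / (4 * N)) ^ (n * z.d) := by rw [hr, mul_pow, ← pow_mul]
    have q3 : β ^ 2 * (c * r0 ^ z.d) = β ^ 2 * (c * r ^ z.d) * (4 * N) ^ (n * z.d) := by
      rw [q2]
      calc β ^ 2 * (c * r0 ^ z.d) = β ^ 2 * (c * r0 ^ z.d) * ((1 / (4 * N)) ^ (n * z.d) * (4 * N) ^ (n * z.d)) := by rw [q1, mul_one]
        _ = _ := by ring
    rw [q3]
    have q4 : (4 * N) ^ (n * z.d) ≤ ((4 * N) ^ (n * z.d)) ^ 2 := by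
      have : 1 ≤ (4 * N) ^ (n * z.d) := one_le_pow₀ h4N
      nlinarith
    calc β ^ 2 * (c * r ^ z.d) * (4 * N) ^ (n * z.d) ≤ (C * κ ^ n) ^ 2 * (((4 * N) ^ (n * z.d)) ^ 2) := by gcongr
      _ = C ^ 2 * ((κ * (4 * N) ^ z.d) ^ n) ^ 2 := by
        rw [mul_comm n z.d, pow_mul]
        ring
      _ ≤ C ^ 2 * ((1 / 4) ^ n) ^ 2 := by gcongr
  have b3 : β * Real.sqrt (c * r0 ^ z.d) ≤ |C| * (1 / 4) ^ n := by
    refine le_of_sq_le_sq ?_ (by positivity)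
    rw [mul_pow, Real.sq_sqrt hcr.le, mul_pow, sq_abs]
    exact b2
  have b4 : β ≤ E * (1 / 4) ^ n := by
    rw [hE, div_mul_eq_mul_div, le_div_iff₀ (Real.sqrt_pos.2 hcr)]
    exact b3
  linarith

end Pool.Agent.Helper43.TZ
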