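import Pool.Agent.Helper43.TZ.T5
import Pool.Agent.Helper16.TZ.Tn

/-!
# Project TZ, block T4: the Hilbert space `E = K ⊗ H` and the algebra of decomposable operators

`E`: the Gram space of the kernel `((x, ξ), (y, η)) ↦ φ(x, y) ⟨ξ, η⟩` on `J2 × H` (`Pool.Agent.Helper35.FP.exists_gram`, `gram_clm`, `gram_isom`: positive semidefinite because the kernel is the Gram matrix of the functions `h ↦ α_h(x) ξ` in
`L²(S2; H)`). `EE`: the submodule of `E × (S2 → H)` generated by the pairs `(e x ξ, h ↦ α_h(x) ξ)`. `ES`: the structure of everything Theorem T needs: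
* `EE` and the norms: `(u, F) ∈ EE` → `F` continuous, Lipschitz at `1`, `∫⁻ ‖F‖² = ‖u‖²`;
* `TT`: the star algebra of the pairs `(A, T)`, `A : E → E`, `T : S2 → B(H)` continuous and Lipschitz at `1`, such that `(u, F) ∈ EE → (A u, h ↦ T h (F h)) ∈ EE` (the same for the adjoints), `A` commuting with all `Rt c` (`c ∈ J`);
* `Rt c = 1 ⊗ c`, `c ∈ J`; `VE s = V_1(s) ⊗ V(s)`.
-/

set_option autoImplicit false

open MeasureTheory Filter Topology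
open scoped ENNReal

namespace Pool.Agent.Helper43.TZ

variable {S1 S2 H : Type} [Group S1] [TopologicalSpace S1] [Group S2] [TopologicalSpace S2] [MeasurableSpace S2]
  {μ : Measure S2} [NormedAddCommGroup H] [InnerProductSpace ℂ H] [CompleteSpace H]

/-- The space `E = K ⊗ H`. -/
structure ES (L : Lev S1 S2 H μ) (z : Siz S2 μ) (E : Type) [NormedAddCommGroup E] [InnerProductSpace ℂ E] [CompleteSpace E] where
  /-- vectors together with their functions -/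
  EE : Submodule ℂ (E × (S2 → H))
  mem : ∀ x ∈ L.J2 z, ∀ ξ, ∃ u : E, (u, fun h => cj (L.W h) x ξ) ∈ EE
  cont : ∀ p ∈ EE, Continuous p.2
  lip : ∀ p ∈ EE, ∃ C : ℝ, ∀ h, ‖p.2 h - p.2 1‖ ≤ C * z.ρ h
  norm : ∀ p ∈ EE, ∫⁻ h, ‖p.2 h‖ₑ ^ 2 ∂μ = ‖p.1‖ₑ ^ 2
  dense : ∀ y : E, (∀ p ∈ EE, inner ℂ p.1 y = (0 : ℂ)) → y = 0
  /-- the operators `1 ⊗ c` -/
  Rt : (H →L[ℂ] H) → (E →L[ℂ] E)
  Rt_one : Rt 1 = 1
  Rt_add : ∀ a ∈ L.J, ∀ b ∈ L.J, Rt (a + b) = Rt a + Rt b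
  Rt_smul : ∀ (c : ℂ), ∀ a ∈ L.J, Rt (c • a) = c • Rt a
  Rt_mul : ∀ a ∈ L.J, ∀ b ∈ L.J, Rt (a * b) = Rt a * Rt b
  Rt_star : ∀ a ∈ L.J, Rt (star a) = star (Rt a)
  Rt_nonneg : ∀ a ∈ L.J, 0 ≤ a → 0 ≤ Rt a
  /-- the operators `V_1(s) ⊗ V(s)` -/
  VE : S1 → (E ≃ₗᵢ[ℂ] E)
  VE_mem : ∀ s, ∀ p ∈ EE, (VE s p.1, fun h => L.V s (p.2 h)) ∈ EE
  VE_inv : ∀ s u, VE s⁻¹ u = (VE s).symm u
  VE_Rt : ∀ s, ∀ a ∈ L.J, cj (VE s) (Rt a) = Rt (cj (L.V s) a)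
  /-- the operators `a ⊗ b` -/
  tn : ∀ a ∈ L.J, L.Lip z a → ∀ b ∈ L.J', ∃ A : E →L[ℂ] E, (∀ p ∈ EE, (A p.1, fun h => cj (L.W h) a (b (p.2 h))) ∈ EE) ∧
    (∀ p ∈ EE, (star A p.1, fun h => cj (L.W h) (star a) (star b (p.2 h))) ∈ EE) ∧ ∀ c ∈ L.J, A * Rt c = Rt c * A

theorem exists_ES [IsTopologicalGroup S2] [LocallyCompactSpace S2] [SecondCountableTopology S2] [T2Space S2] [BorelSpace S2]
    [μ.IsHaarMeasure] [μ.IsMulRightInvariant] (L : Lev S1 S2 H μ) (z : Siz S2 μ) :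
    ∃ (E : Type) (_ : NormedAddCommGroup E) (_ : InnerProductSpace ℂ E) (_ : CompleteSpace E), Nonempty (ES L z E) := by
  obtain ⟨E, i1, i2, i3, ⟨M⟩⟩ := Pool.Agent.Helper16.TZ.exists_Mod L z
  obtain ⟨φ, hφ⟩ := M.exists_phi'
  obtain ⟨Rt, hR, -, hRn⟩ := Pool.Agent.Helper16.TZ.exists_Rt M.tot hφ
  refine ⟨E, i1, i2, i3, ⟨
    { EE := M.EE
      mem := fun x hx ξ => ⟨M.e (⟨x, hx⟩, ξ), M.pr_mem (⟨x, hx⟩, ξ)⟩
      cont := fun p hp => M.cont hp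
      lip := fun p hp => M.lip hp
      norm := fun p hp => M.norm_EE hp
      dense := M.dense
      Rt := fun a => Rt a
      Rt_one := map_one Rt
      Rt_add := fun a _ b _ => map_add Rt a b
      Rt_smul := fun c a _ => map_smul Rt c a
      Rt_mul := fun a _ b _ => map_mul Rt a b
      Rt_star := fun a _ => map_star Rt a
      Rt_nonneg := fun a _ ha => hRn a ha
      VE := M.VE
      VE_mem := fun s p hp => M.VE_mem s hp
      VE_inv := M.VE_inv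
      VE_Rt := fun s a _ => ?_
      tn := fun a ha hl b hb => M.tn a ha hl b hb (Rt := fun a => Rt a) hR }⟩⟩
  refine Pool.Agent.Helper35.FP.ext_tot M.tot fun p => ?_
  rw [cj_apply, ← M.VE_inv, M.VE_e, hR, M.VE_e, hR]
  congr 1
  refine Prod.ext (Subtype.ext ?_) ?_
  · change cj (L.V s) (cj (L.V s⁻¹) p.1.1) = p.1.1
    rw [map_inv]
    exact Pool.Agent.Helper16.TZ.cj_cj_symm _ _
  · change L.V s (a (L.V s⁻¹ p.2)) = cj (L.V s) a p.2
    rw [map_inv]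
    rfl

end Pool.Agent.Helper43.TZ
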