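import Pool.Agent.Helper43.TZ.T1
import Pool.Agent.Helper43.TZ.T2
import Pool.Agent.Helper43.TZ.T3
import Pool.Agent.Helper43.TZ.T4
import Pool.Agent.Helper43.TZ.T5
import Pool.Agent.Helper43.TZ.Low

/-!
# Project TZ: Theorem T

If `k` is large (depending on `m` and the dimension of `S2`), there are no ping-pong families of `k` elements of `S1` acting trivially on the centre of `J`.
-/

set_option autoImplicit false
set_option linter.unusedSectionVars false

open MeasureTheory Filter Topology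
open scoped ENNReal

namespace Pool.Agent.Helper43.TZ

section op

variable {H : Type} [NormedAddCommGroup H] [InnerProductSpace ℂ H] [CompleteSpace H]

/-- A unitary as an operator. -/
noncomputable def op (u : H ≃ₗᵢ[ℂ] H) : H →L[ℂ] H := (u.toContinuousLinearEquiv : H →L[ℂ] H)

theorem op_apply (u : H ≃ₗᵢ[ℂ] H) (x : H) : op u x = u x := rfl

theorem norm_op_le (u : H ≃ₗᵢ[ℂ] H) : ‖op u‖ ≤ 1 :=
  ContinuousLinearMap.opNorm_le_bound _ zero_le_one fun x => by rw [op_apply, u.norm_map, one_mul]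

theorem star_op (u : H ≃ₗᵢ[ℂ] H) : star (op u) = op u.symm := by
  refine ContinuousLinearMap.ext fun x => ext_inner_left ℂ fun y => ?_
  rw [ContinuousLinearMap.star_eq_adjoint, ContinuousLinearMap.adjoint_inner_right, op_apply, op_apply,
    ← u.inner_map_map y (u.symm x), u.apply_symm_apply]

theorem cj_eq (u : H ≃ₗᵢ[ℂ] H) (a : H →L[ℂ] H) : cj u a = op u * a * op u.symm := rfl

theorem op_mul_symm (u : H ≃ₗᵢ[ℂ] H) : op u * op u.symm = 1 := by
  refine ContinuousLinearMap.ext fun x => ?_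
  show u (u.symm x) = x
  exact u.apply_symm_apply x

theorem op_symm_mul (u : H ≃ₗᵢ[ℂ] H) : op u.symm * op u = 1 := by
  refine ContinuousLinearMap.ext fun x => ?_
  show u.symm (u x) = x
  exact u.symm_apply_apply x

theorem op_mul (u : H ≃ₗᵢ[ℂ] H) (a : H →L[ℂ] H) : op u * a = cj u a * op u := by
  rw [cj_eq, mul_assoc, op_symm_mul, mul_one]

theorem cj_nonneg (u : H ≃ₗᵢ[ℂ] H) {a : H →L[ℂ] H} (ha : 0 ≤ a) : 0 ≤ cj u a := by
  rw [ContinuousLinearMap.nonneg_iff_isPositive] at ha ⊢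
  have h := ha.conj_adjoint (op u)
  have e : (op u).comp (a.comp (ContinuousLinearMap.adjoint (op u))) = cj u a := by
    rw [← ContinuousLinearMap.star_eq_adjoint, star_op]
    rfl
  rwa [e] at h

theorem cj_sub (u : H ≃ₗᵢ[ℂ] H) (a b : H →L[ℂ] H) : cj u (a - b) = cj u a - cj u b := by
  rw [cj_eq, cj_eq, cj_eq, mul_sub, sub_mul]

theorem cj_one (u : H ≃ₗᵢ[ℂ] H) : cj u (1 : H →L[ℂ] H) = 1 := by
  rw [cj_eq, mul_one, op_mul_symm]

theorem norm_cj_le (u : H ≃ₗᵢ[ℂ] H) (a : H →L[ℂ] H) : ‖cj u a‖ ≤ ‖a‖ :=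
  ContinuousLinearMap.opNorm_le_bound _ (norm_nonneg _) fun x => by
    rw [cj_apply, u.norm_map]
    exact (a.le_opNorm _).trans (by rw [u.symm.norm_map])

end op

variable {S1 S2 H : Type} [Group S1] [TopologicalSpace S1] [Group S2] [TopologicalSpace S2] [IsTopologicalGroup S2]
  [LocallyCompactSpace S2] [SecondCountableTopology S2] [T2Space S2] [MeasurableSpace S2] [BorelSpace S2]
  {μ : Measure S2} [μ.IsHaarMeasure] [μ.IsMulRightInvariant] [NormedAddCommGroup H] [InnerProductSpace ℂ H] [CompleteSpace H]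

section TT

variable {L : Lev S1 S2 H μ} {z : Siz S2 μ} {E : Type} [NormedAddCommGroup E] [InnerProductSpace ℂ E] [CompleteSpace E]

/-- Decomposable operators. -/
structure ES.Dec (M : ES L z E) (q : (E →L[ℂ] E) × (S2 → (H →L[ℂ] H))) : Prop where
  m : ∀ p ∈ M.EE, (q.1 p.1, fun h => q.2 h (p.2 h)) ∈ M.EE
  ms : ∀ p ∈ M.EE, (star q.1 p.1, fun h => star (q.2 h) (p.2 h)) ∈ M.EE
  c : Continuous q.2
  b : ∃ C : ℝ, ∀ h, ‖q.2 h‖ ≤ C
  l : ∃ C : ℝ, ∀ h, ‖q.2 h - q.2 1‖ ≤ C * z.ρ h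
  r : ∀ c ∈ L.J, q.1 * M.Rt c = M.Rt c * q.1

theorem ES.Rt_comm_star (M : ES L z E) {A : E →L[ℂ] E} (hA : ∀ c ∈ L.J, A * M.Rt c = M.Rt c * A) :
    ∀ c ∈ L.J, star A * M.Rt c = M.Rt c * star A := by
  intro c hc
  have h1 := congrArg star (hA (star c) (star_mem hc))
  rw [star_mul, star_mul, M.Rt_star c hc, star_star] at h1
  exact h1.symm

/-- The star algebra of the decomposable operators. -/
noncomputable def ES.TT (M : ES L z E) : StarSubalgebra ℂ ((E →L[ℂ] E) × (S2 → (H →L[ℂ] H))) where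
  carrier := {q | M.Dec q}
  mul_mem' := by
    rintro q q' h h'
    obtain ⟨b, hb⟩ := h.b
    obtain ⟨b', hb'⟩ := h'.b
    obtain ⟨l, hl⟩ := h.l
    obtain ⟨l', hl'⟩ := h'.l
    refine ⟨fun p hp => h.m _ (h'.m p hp), fun p hp => ?_, h.c.mul h'.c, ⟨b * b', fun g => ?_⟩, ⟨b * l' + l * b', fun g => ?_⟩, fun c hc => ?_⟩
    · have := h'.ms _ (h.ms p hp)
      simp only [Prod.fst_mul, Prod.snd_mul, star_mul, Pi.mul_apply]
      exact this
    · exact (norm_mul_le _ _).trans (mul_le_mul (hb g) (hb' g) (norm_nonneg _) ((norm_nonneg _).trans (hb g)))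
    · have e : (q * q').2 g - (q * q').2 1 = q.2 g * (q'.2 g - q'.2 1) + (q.2 g - q.2 1) * q'.2 1 := by
        show q.2 g * q'.2 g - q.2 1 * q'.2 1 = _
        rw [mul_sub, sub_mul]
        abel
      rw [e]
      have h1 : ‖q.2 g * (q'.2 g - q'.2 1)‖ ≤ b * (l' * z.ρ g) :=
        (norm_mul_le _ _).trans (mul_le_mul (hb g) (hl' g) (norm_nonneg _) ((norm_nonneg _).trans (hb g)))
      have h2 : ‖(q.2 g - q.2 1) * q'.2 1‖ ≤ (l * z.ρ g) * b' :=
        (norm_mul_le _ _).trans (mul_le_mul (hl g) (hb' 1) (norm_nonneg _) ((norm_nonneg _).trans (hl g)))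
      refine (norm_add_le _ _).trans ((add_le_add h1 h2).trans (le_of_eq (by ring)))
    · show q.1 * q'.1 * M.Rt c = M.Rt c * (q.1 * q'.1)
      rw [mul_assoc, h'.r c hc, ← mul_assoc, h.r c hc, mul_assoc]
  add_mem' := by
    rintro q q' h h'
    obtain ⟨b, hb⟩ := h.b
    obtain ⟨b', hb'⟩ := h'.b
    obtain ⟨l, hl⟩ := h.l
    obtain ⟨l', hl'⟩ := h'.l
    refine ⟨fun p hp => M.EE.add_mem (h.m p hp) (h'.m p hp), fun p hp => ?_, h.c.add h'.c, ⟨b + b', fun g => ?_⟩, ⟨l + l', fun g => ?_⟩, fun c hc => ?_⟩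
    · have := M.EE.add_mem (h.ms p hp) (h'.ms p hp)
      simp only [Prod.fst_add, Prod.snd_add, star_add, Pi.add_apply]
      exact this
    · exact (norm_add_le _ _).trans (add_le_add (hb g) (hb' g))
    · have e : (q + q').2 g - (q + q').2 1 = (q.2 g - q.2 1) + (q'.2 g - q'.2 1) := by
        show q.2 g + q'.2 g - (q.2 1 + q'.2 1) = _
        abel
      rw [e]
      refine (norm_add_le _ _).trans ((add_le_add (hl g) (hl' g)).trans (le_of_eq (by ring)))
    · show (q.1 + q'.1) * M.Rt c = M.Rt c * (q.1 + q'.1)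
      rw [add_mul, mul_add, h.r c hc, h'.r c hc]
  algebraMap_mem' := by
    intro t
    have e1 : (algebraMap ℂ ((E →L[ℂ] E) × (S2 → (H →L[ℂ] H))) t).1 = t • (1 : E →L[ℂ] E) := by
      rw [Algebra.algebraMap_eq_smul_one]
      rfl
    have e2 : ∀ h, (algebraMap ℂ ((E →L[ℂ] E) × (S2 → (H →L[ℂ] H))) t).2 h = t • (1 : H →L[ℂ] H) := by
      intro h
      rw [Algebra.algebraMap_eq_smul_one]
      rfl
    refine ⟨fun p hp => ?_, fun p hp => ?_, ?_, ⟨‖t • (1 : H →L[ℂ] H)‖, fun h => by rw [e2]⟩, ⟨0, fun h => by simp [e2]⟩, fun c hc => ?_⟩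
    · have := M.EE.smul_mem t hp
      rw [e1]
      simp only [e2]
      exact this
    · have := M.EE.smul_mem (star t) hp
      rw [e1]
      simp only [e2, star_smul, star_one]
      exact this
    · have e3 : (algebraMap ℂ ((E →L[ℂ] E) × (S2 → (H →L[ℂ] H))) t).2 = fun _ => t • (1 : H →L[ℂ] H) := funext e2
      rw [e3]
      exact continuous_const
    · rw [e1, smul_mul_assoc, one_mul, mul_smul_comm, mul_one]
  star_mem' := by
    rintro q h
    obtain ⟨b, hb⟩ := h.b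
    obtain ⟨l, hl⟩ := h.l
    refine ⟨h.ms, fun p hp => ?_, h.c.star, ⟨b, fun g => ?_⟩, ⟨l, fun g => ?_⟩, ?_⟩
    · have := h.m p hp
      simp only [Prod.fst_star, Prod.snd_star, Pi.star_apply, star_star]
      exact this
    · show ‖star (q.2 g)‖ ≤ b
      rw [norm_star]
      exact hb g
    · show ‖star (q.2 g) - star (q.2 1)‖ ≤ _
      rw [← star_sub, norm_star]
      exact hl g
    · exact M.Rt_comm_star h.r

/-- Evaluation at `1`. -/
noncomputable def ES.pi (M : ES L z E) : M.TT →⋆ₐ[ℂ] (H →L[ℂ] H) where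
  toFun q := (q : (E →L[ℂ] E) × (S2 → (H →L[ℂ] H))).2 1
  map_one' := rfl
  map_mul' _ _ := rfl
  map_zero' := rfl
  map_add' _ _ := rfl
  commutes' t := rfl
  map_star' _ := rfl

/-- The operator on `E`. -/
noncomputable def ES.sg (M : ES L z E) : M.TT →⋆ₐ[ℂ] (E →L[ℂ] E) where
  toFun q := (q : (E →L[ℂ] E) × (S2 → (H →L[ℂ] H))).1
  map_one' := rfl
  map_mul' _ _ := rfl
  map_zero' := rfl
  map_add' _ _ := rfl
  commutes' t := rfl
  map_star' _ := rfl

/-- `a ⊗ b` as a decomposable operator. -/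
theorem ES.tn_mem (M : ES L z E) {a b : H →L[ℂ] H} (ha : a ∈ L.J) (hl : L.Lip z a) (hb : b ∈ L.J') : ∃ q : M.TT, M.pi q = a * b := by
  obtain ⟨A, h1, h2, h3⟩ := M.tn a ha hl b hb
  obtain ⟨C, hC⟩ := hl
  have hcomm : ∀ h, cj (L.W h) a * b = b * cj (L.W h) a := fun h =>
    (StarSubalgebra.mem_centralizer_iff ℂ).1 hb _ (L.RW a ha h) |>.1
  have hq : (A, fun h => cj (L.W h) a * b) ∈ M.TT := by
    refine ⟨h1, fun p hp => ?_, ?_, ⟨‖a‖ * ‖b‖, fun h => ?_⟩, ⟨C * ‖b‖, fun h => ?_⟩, h3⟩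
    · have := h2 p hp
      have e : ∀ h, star (cj (L.W h) a * b) = cj (L.W h) (star a) * star b := by
        intro h
        rw [hcomm, star_mul, cj_eq, cj_eq, star_mul, star_mul, star_op, star_op, LinearIsometryEquiv.symm_symm, mul_assoc (op (L.W h)) (star a)]
      simp only [e]
      exact this
    · exact (Lev.Lip.cont ⟨C, hC⟩).mul continuous_const
    · exact (norm_mul_le _ _).trans (mul_le_mul_of_nonneg_right (norm_cj_le _ _) (norm_nonneg _))
    · have e : cj (L.W h) a * b - cj (L.W 1) a * b = (cj (L.W h) a - a) * b := by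
        have e1 : cj (L.W 1) a = a := by
          rw [map_one]
          rfl
        rw [e1, sub_mul]
      rw [e]
      refine (norm_mul_le _ _).trans ((mul_le_mul_of_nonneg_right (hC h) (norm_nonneg _)).trans (le_of_eq (by ring)))
  refine ⟨⟨_, hq⟩, ?_⟩
  show cj (L.W 1) a * b = a * b
  rw [map_one]
  rfl

end TT

theorem Lev.one_mem_lip (L : Lev S1 S2 H μ) (z : Siz S2 μ) : L.Lip z 1 :=
  ⟨0, fun h => by rw [cj_one, sub_self, norm_zero, zero_mul]⟩

/-- The commutant of the decomposable operators is in the centre. -/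
theorem ES.comm_mem {L : Lev S1 S2 H μ} {z : Siz S2 μ} {E : Type} [NormedAddCommGroup E] [InnerProductSpace ℂ E] [CompleteSpace E]
    (M : ES L z E) {c : H →L[ℂ] H} (hc : ∀ q : M.TT, M.pi q * c = c * M.pi q) : c ∈ L.Z := by
  have h1 : c ∈ L.J' := by
    refine comm_of_lip L z c fun a ha hl => ?_
    obtain ⟨q, hq⟩ := M.tn_mem ha hl (one_mem L.J')
    have := hc q
    rwa [hq, mul_one] at this
  have h2 : ∀ b ∈ L.J', b * c = c * b := by
    intro b hb
    obtain ⟨q, hq⟩ := M.tn_mem (one_mem L.J) (L.one_mem_lip z) hb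
    have := hc q
    rwa [hq, one_mul] at this
  refine ⟨?_, h1⟩
  refine (StarSubalgebra.mem_centralizer_iff ℂ).2 fun r hr => ?_
  have h3 : r ∈ L.J' := (StarSubalgebra.mem_centralizer_iff ℂ).2 fun a ha => by
    have h4 := (StarSubalgebra.mem_centralizer_iff ℂ).1 (show a ∈ StarSubalgebra.centralizer ℂ L.R from ha) r hr
    have h5 := (StarSubalgebra.mem_centralizer_iff ℂ).1 (show star a ∈ StarSubalgebra.centralizer ℂ L.R from star_mem ha) r hr
    exact ⟨h4.1.symm, h5.1.symm⟩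
  exact ⟨h2 r h3, h2 (star r) (star_mem h3)⟩

end Pool.Agent.Helper43.TZ
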